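import Pool.Agent.W630.LT.EmbC

/-!
# Symmetry of Lagrangian isotopy; the Clifford torus is a Lagrangian torus
-/

open scoped ContDiff ComplexConjugate
open Set

namespace Pool.Agent.W630.LT

theorem LagrangianIsotopic.symm {n : ℕ} {L₀ L₁ : Set (Fin n → ℂ)}
    (h : LagrangianIsotopic L₀ L₁) : LagrangianIsotopic L₁ L₀ := by
  obtain ⟨f, hf, hL, h0, h1⟩ := h
  refine ⟨fun t => f (1 - t), ?_, fun t ht => hL _ ⟨by linarith [ht.2], by linarith [ht.1]⟩, ?_, ?_⟩
  · have h2 : ContDiff ℝ ∞ (fun p : ℝ × (Fin n → ℝ) => ((1 - p.1, p.2) : ℝ × (Fin n → ℝ))) :=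
      (contDiff_const.sub contDiff_fst).prodMk contDiff_snd
    exact hf.comp h2.contDiffOn (fun p hp => ⟨⟨by linarith [hp.1.2], by linarith [hp.1.1]⟩,
      mem_univ _⟩)
  · change range (f (1 - 0)) = L₁
    rw [sub_zero, h1]
  · change range (f (1 - 1)) = L₀
    rw [sub_self, h0]

/-- the Clifford torus is a Lagrangian torus -/
theorem isLagrangianTorus_clifford {n : ℕ} (hn : 0 < n) : IsLagrangianTorus (cliffordTorus n) := by
  have hr : 0 < Real.sqrt (1 / n) := Real.sqrt_pos.2 (by positivity)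
  have hsq : Real.sqrt (1 / n) ^ 2 = 1 / n := Real.sq_sqrt (by positivity)
  set r := Real.sqrt (1 / n) with hrdef
  have hsm : ContDiff ℝ ∞ (fun (x : Fin n → ℝ) (j : Fin n) => (r : ℂ) * ee (x j)) := by
    rw [contDiff_pi]
    intro j
    exact contDiff_const.mul (contDiff_ee.comp (contDiff_apply ℝ ℝ j))
  have hfd : ∀ (x v : Fin n → ℝ) (j : Fin n),
      fderiv ℝ (fun (x : Fin n → ℝ) (j : Fin n) => (r : ℂ) * ee (x j)) x v j =
        (r : ℂ) * (2 * Real.pi * Complex.I * ee (x j)) * v j := by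
    intro x v j
    have h1 : HasFDerivAt (fun (x : Fin n → ℝ) (j : Fin n) => (r : ℂ) * ee (x j)) _ x :=
      (hsm.differentiable (by simp)).differentiableAt.hasFDerivAt
    have h2 := (hasFDerivAt_pi'.1 h1) j
    have h3 : HasFDerivAt (fun y : Fin n → ℝ => y j)
        (ContinuousLinearMap.proj (R := ℝ) (φ := fun _ : Fin n => ℝ) j) x :=
      (ContinuousLinearMap.proj (R := ℝ) (φ := fun _ : Fin n => ℝ) j).hasFDerivAt
    have h4 := ((hasDerivAt_ee (x j)).hasFDerivAt.comp x h3).const_mul (r : ℂ)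
    have h5 := congrArg (fun T : (Fin n → ℝ) →L[ℝ] ℂ => T v) (h2.unique h4)
    have h6 : ((ContinuousLinearMap.proj (R := ℝ) (φ := fun _ : Fin n => ℂ) j).comp
      (fderiv ℝ (fun (x : Fin n → ℝ) (j : Fin n) => (r : ℂ) * ee (x j)) x)) v =
      fderiv ℝ (fun (x : Fin n → ℝ) (j : Fin n) => (r : ℂ) * ee (x j)) x v j := rfl
    rw [← h6, h5]
    simp
    ring
  have hrc : (r : ℂ) ≠ 0 := by exact_mod_cast hr.ne'
  refine ⟨fun x j => (r : ℂ) * ee (x j), ⟨hsm, fun x y => ⟨fun h => ?_, ?_⟩, fun x u v h => ?_,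
    fun x u v => ?_⟩, ?_⟩
  · have h1 : ∀ j, ∃ m : ℤ, y j = x j + m := fun j =>
      (ee_eq_iff _ _).1 (mul_left_cancel₀ hrc (congrFun h j))
    choose m hm using h1
    exact ⟨m, hm⟩
  · rintro ⟨m, hm⟩
    funext j
    rw [hm j, ee_add_int]
  · ext j
    have h1 := congrFun h j
    rw [hfd, hfd] at h1
    have h2 : (r : ℂ) * (2 * Real.pi * Complex.I * ee (x j)) ≠ 0 := by
      refine mul_ne_zero hrc (mul_ne_zero ?_ (ee_ne _))
      simp [Real.pi_ne_zero]
    exact_mod_cast mul_left_cancel₀ h2 h1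
  · unfold omega
    refine Finset.sum_eq_zero fun j _ => ?_
    rw [hfd, hfd]
    simp only [Complex.mul_re, Complex.mul_im, Complex.ofReal_re, Complex.ofReal_im]
    ring
  · ext z
    constructor
    · rintro ⟨x, rfl⟩ j
      have h1 : ‖(r : ℂ) * ee (x j)‖ = r := by
        rw [norm_mul, norm_ee, mul_one, Complex.norm_real, Real.norm_of_nonneg hr.le]
      have h2 : Complex.normSq ((r : ℂ) * ee (x j)) = r ^ 2 := by
        rw [Complex.normSq_eq_norm_sq, h1]
      rw [Complex.normSq_apply, hsq] at h2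
      rw [← h2]
      ring
    · intro hz
      have h1 : ∀ j, ‖z j‖ = r := by
        intro j
        have h2 : ‖z j‖ ^ 2 = r ^ 2 := by
          rw [← Complex.normSq_eq_norm_sq, Complex.normSq_apply, hsq, ← hz j]
          ring
        exact (sq_eq_sq₀ (norm_nonneg _) hr.le).1 h2
      refine ⟨fun j => (z j).arg / (2 * Real.pi), ?_⟩
      funext j
      beta_reduce
      unfold ee
      conv_rhs => rw [← Complex.norm_mul_exp_arg_mul_I (z j), h1 j]
      congr 2
      have hpi : (Real.pi : ℂ) ≠ 0 := by exact_mod_cast Real.pi_ne_zero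
      push_cast
      field_simp

end Pool.Agent.W630.LT
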