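import Pool.Agent.W630.LT.Hom

/-!
# Algebraic rules for `W`
-/

open scoped ContDiff Matrix Topology
open Set MeasureTheory

namespace Pool.Agent.W630.LT

section gen

variable {ι κ : Type} [Fintype ι] [DecidableEq ι] [Fintype κ] [DecidableEq κ]

theorem Lp.const {C : Matrix ι ι ℂ} (hC : C.det ≠ 0) : Lp (fun _ : R3 => C) :=
  ⟨fun _ _ => contDiff_const, fun _ _ => rfl, fun _ => hC⟩

theorem Sm.mul {μ : Type} {g : R3 → Matrix ι κ ℂ} {h : R3 → Matrix κ μ ℂ} (hg : Sm g)
    (hh : Sm h) : Sm (fun s => g s * h s) := by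
  intro i j
  simp only [Matrix.mul_apply]
  exact ContDiff.sum fun k _ => (hg i k).mul (hh k j)

theorem Lp.mul {g h : R3 → Matrix ι ι ℂ} (hg : Lp g) (hh : Lp h) : Lp (fun s => g s * h s) :=
  ⟨hg.smooth.mul hh.smooth, fun k s => by simp only [hg.per k s, hh.per k s],
    fun s => by rw [Matrix.det_mul]; exact mul_ne_zero (hg.inv s) (hh.inv s)⟩

theorem Sm.blocks {a : R3 → Matrix ι ι ℂ} {b : R3 → Matrix ι κ ℂ} {c : R3 → Matrix κ ι ℂ}
    {d : R3 → Matrix κ κ ℂ} (ha : Sm a) (hb : Sm b) (hc : Sm c) (hd : Sm d) :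
    Sm (fun s => Matrix.fromBlocks (a s) (b s) (c s) (d s)) := by
  rintro (i | i) (j | j)
  · exact ha i j
  · exact hb i j
  · exact hc i j
  · exact hd i j

theorem sm_zero : Sm (fun _ : R3 => (0 : Matrix ι κ ℂ)) := fun _ _ => contDiff_const

theorem Lp.blocks {a : R3 → Matrix ι ι ℂ} {b : R3 → Matrix ι κ ℂ} {d : R3 → Matrix κ κ ℂ}
    (ha : Lp a) (hd : Lp d) (hb : Sm b) (hbp : Per b) :
    Lp (fun s => Matrix.fromBlocks (a s) (b s) 0 (d s)) := by
  refine ⟨Sm.blocks ha.smooth hb sm_zero hd.smooth, fun k s => ?_, fun s => ?_⟩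
  · simp only [ha.per k s, hd.per k s, hbp k s]
  · rw [Matrix.det_fromBlocks_zero₂₁]
    exact mul_ne_zero (ha.inv s) (hd.inv s)

theorem continuous_dM {g : R3 → Matrix ι ι ℂ} (hg : Sm g) (k : Fin 3) : Continuous (dM g k) := by
  refine continuous_matrix fun i j => ?_
  have := (hg i j).continuous_fderiv (by simp)
  exact this.clm_apply continuous_const

theorem continuous_g {g : R3 → Matrix ι ι ℂ} (hg : Sm g) : Continuous g :=
  continuous_matrix fun i j => (hg i j).continuous

theorem continuous_inv {g : R3 → Matrix ι ι ℂ} (hg : Lp g) : Continuous (fun s => (g s)⁻¹) := by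
  have h : (fun s => (g s)⁻¹) = fun s => (g s).det⁻¹ • (g s).adjugate := by
    funext s
    rw [Matrix.inv_def, Ring.inverse_eq_inv']
  rw [h]
  have h1 : Continuous (fun s => (g s).det) := (continuous_g hg.smooth).matrix_det
  exact (h1.inv₀ hg.inv).smul (continuous_g hg.smooth).matrix_adjugate

theorem continuous_w {g : R3 → Matrix ι ι ℂ} (hg : Lp g) : Continuous (w g) := by
  have h : ∀ k, Continuous (al g k) := fun k =>
    (continuous_inv hg).matrix_mul (continuous_dM hg.smooth k)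
  exact ((h 0).matrix_mul (((h 1).matrix_mul (h 2)).sub ((h 2).matrix_mul (h 1)))).matrix_trace

theorem integrableOn_w {g : R3 → Matrix ι ι ℂ} (hg : Lp g) :
    IntegrableOn (w g) (Icc (0 : R3) 1) :=
  (continuous_w hg).continuousOn.integrableOn_compact isCompact_Icc

theorem dM_const (C : Matrix ι ι ℂ) (k : Fin 3) (s : R3) : dM (fun _ => C) k s = 0 := by
  ext i j
  simp [dM]

theorem W_const (C : Matrix ι ι ℂ) : W (fun _ => C) = 0 := by
  unfold W
  have : ∀ s, w (fun _ : R3 => C) s = 0 := by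
    intro s
    simp [w, al, dM_const]
  simp [this]

/-- left multiplication by a constant does not change `al` -/
theorem al_const_mul {g : R3 → Matrix ι ι ℂ} (hg : Sm g) {C : Matrix ι ι ℂ} (hC : C.det ≠ 0)
    (k : Fin 3) (s : R3) : al (fun s => C * g s) k s = al g k s := by
  have h1 : dM (fun s => C * g s) k s = C * dM g k s := by
    ext i j
    simp only [dM, Matrix.of_apply, Matrix.mul_apply]
    have hd : ∀ l, HasFDerivAt (fun s' => g s' l j) (fderiv ℝ (fun s' => g s' l j) s) s :=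
      fun l => ((hg l j).differentiable (by simp)).differentiableAt.hasFDerivAt
    have h2 := HasFDerivAt.fun_sum (u := Finset.univ) fun l (_ : l ∈ Finset.univ) =>
      (hd l).const_mul (C i l)
    rw [h2.fderiv]
    simp
  unfold al
  rw [h1, Matrix.mul_inv_rev, Matrix.mul_assoc, ← Matrix.mul_assoc C⁻¹ C,
    Matrix.nonsing_inv_mul C (isUnit_iff_ne_zero.2 hC), Matrix.one_mul]

theorem W_const_mul {g : R3 → Matrix ι ι ℂ} (hg : Sm g) {C : Matrix ι ι ℂ} (hC : C.det ≠ 0) :
    W (fun s => C * g s) = W g := by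
  unfold W
  congr 1
  funext s
  simp only [w, al_const_mul hg hC]

end gen

theorem diag : S_DIAG := by
  intro ι _ _ g
  unfold W
  have h0 : ∀ (k : Fin 3) (s : R3), ∃ v : ι → ℂ,
      al (fun s => Matrix.diagonal (g s)) k s = Matrix.diagonal v := by
    intro k s
    have h1 : dM (fun s => Matrix.diagonal (g s)) k s =
        Matrix.diagonal fun i => fderiv ℝ (fun s' => g s' i) s (Pi.single k 1) := by
      ext i j
      rcases eq_or_ne i j with rfl | hij
      · simp [dM]
      · simp [dM, Matrix.diagonal_apply_ne _ hij]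
    unfold al
    rw [h1, Matrix.inv_diagonal, Matrix.diagonal_mul_diagonal]
    exact ⟨_, rfl⟩
  have : ∀ s, w (fun s : R3 => Matrix.diagonal (g s)) s = 0 := by
    intro s
    obtain ⟨v1, h1⟩ := h0 1 s
    obtain ⟨v2, h2⟩ := h0 2 s
    unfold w
    rw [h1, h2, Matrix.diagonal_mul_diagonal, Matrix.diagonal_mul_diagonal]
    have : (fun i => v1 i * v2 i) = fun i => v2 i * v1 i := by
      funext i; ring
    rw [this, sub_self, Matrix.mul_zero, Matrix.trace_zero]
  simp [this]

theorem idx : S_IDX := by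
  intro ι κ _ _ _ _ e g
  unfold W
  congr 1
  funext s
  have h1 : ∀ k, al (fun s => (g s).submatrix e e) k s = (al g k s).submatrix e e := by
    intro k
    unfold al
    rw [Matrix.inv_submatrix_equiv, ← Matrix.submatrix_mul_equiv (g s)⁻¹ (dM g k s) e e e]
    rfl
  unfold w
  rw [h1, h1, h1, Matrix.submatrix_mul_equiv, Matrix.submatrix_mul_equiv]
  change ((al g 0 s).submatrix e e *
    (al g 1 s * al g 2 s - al g 2 s * al g 1 s).submatrix e e).trace = _
  rw [Matrix.submatrix_mul_equiv]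
  simp only [Matrix.trace, Matrix.diag, Matrix.submatrix_apply]
  exact Equiv.sum_comp e (fun i => (al g 0 s * (al g 1 s * al g 2 s - al g 2 s * al g 1 s)) i i)

section blk

variable {ι κ : Type} [Fintype ι] [DecidableEq ι] [Fintype κ] [DecidableEq κ]

theorem al_blocks {a : R3 → Matrix ι ι ℂ} {d : R3 → Matrix κ κ ℂ} (ha : Lp a) (hd : Lp d)
    (k : Fin 3) (s : R3) : al (fun s => Matrix.fromBlocks (a s) 0 0 (d s)) k s =
      Matrix.fromBlocks (al a k s) 0 0 (al d k s) := by
  have h1 : dM (fun s => Matrix.fromBlocks (a s) 0 0 (d s)) k s =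
      Matrix.fromBlocks (dM a k s) 0 0 (dM d k s) := by
    ext i j
    rcases i with i | i <;> rcases j with j | j <;> simp [dM]
  have h2 : (Matrix.fromBlocks (a s) 0 0 (d s))⁻¹ = Matrix.fromBlocks (a s)⁻¹ 0 0 (d s)⁻¹ := by
    refine Matrix.inv_eq_right_inv ?_
    rw [Matrix.fromBlocks_multiply]
    simp only [Matrix.mul_zero, Matrix.zero_mul, add_zero, zero_add]
    rw [Matrix.mul_nonsing_inv _ (isUnit_iff_ne_zero.2 (ha.inv s)),
      Matrix.mul_nonsing_inv _ (isUnit_iff_ne_zero.2 (hd.inv s)), Matrix.fromBlocks_one]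
  unfold al
  rw [h1, h2, Matrix.fromBlocks_multiply]
  simp only [Matrix.mul_zero, Matrix.zero_mul, add_zero, zero_add]

theorem W_blockDiag {a : R3 → Matrix ι ι ℂ} {d : R3 → Matrix κ κ ℂ} (ha : Lp a) (hd : Lp d) :
    W (fun s => Matrix.fromBlocks (a s) 0 0 (d s)) = W a + W d := by
  unfold W
  rw [← integral_add (integrableOn_w ha) (integrableOn_w hd)]
  congr 1
  funext s
  unfold w
  rw [al_blocks ha hd, al_blocks ha hd, al_blocks ha hd]
  simp only [Matrix.fromBlocks_multiply, Matrix.mul_zero, Matrix.zero_mul, add_zero, zero_add,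
    sub_eq_add_neg, Matrix.fromBlocks_neg, Matrix.fromBlocks_add, neg_zero]
  simp [Matrix.trace, Fintype.sum_sum_type]

end blk

theorem blk : S_BLK := by
  intro ι κ _ _ _ _ a b d ha hd hb hbp
  have key := hom (ι ⊕ κ) (fun t s => Matrix.fromBlocks (a s) (((1 - t : ℝ) : ℂ) • b s) 0 (d s))
    (fun t _ => Lp.blocks ha hd (fun i j => contDiff_const.mul (hb i j))
      (fun k s => by simp only [hbp k s])) ?_
  · simp only [sub_zero, Complex.ofReal_one, one_smul, sub_self, Complex.ofReal_zero,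
      zero_smul] at key
    rw [key, W_blockDiag ha hd]
  · have hsnd : ∀ {f : R3 → ℂ}, ContDiff ℝ ∞ f →
        ContinuousOn (fun p : ℝ × R3 => f p.2) (Icc (0 : ℝ) 1 ×ˢ univ) := fun hf =>
      (hf.continuous.comp continuous_snd).continuousOn
    rintro (i | i) (j | j)
    · exact hsnd (ha.smooth i j)
    · refine ContinuousOn.mul ?_ (hsnd (hb i j))
      exact (Complex.continuous_ofReal.comp (by fun_prop)).continuousOn
    · exact continuousOn_const
    · exact hsnd (hd.smooth i j)

section mul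

variable {ι : Type} [Fintype ι] [DecidableEq ι]

/-- rotation in `ι ⊕ ι` -/
noncomputable def rot (x : ℝ) : Matrix (ι ⊕ ι) (ι ⊕ ι) ℂ :=
  Matrix.fromBlocks ((Real.cos x : ℂ) • 1) (-(Real.sin x : ℂ) • 1)
    ((Real.sin x : ℂ) • 1) ((Real.cos x : ℂ) • 1)

theorem rot_mul_neg (x : ℝ) : (rot x : Matrix (ι ⊕ ι) (ι ⊕ ι) ℂ) * rot (-x) = 1 := by
  have h : (Real.cos x : ℂ) * Real.cos x + Real.sin x * Real.sin x = 1 := by
    have := Real.cos_sq_add_sin_sq x
    rw [pow_two, pow_two] at this
    exact_mod_cast this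
  unfold rot
  rw [Matrix.fromBlocks_multiply, Real.cos_neg, Real.sin_neg, ← Matrix.fromBlocks_one]
  congr 1
  · simp only [smul_mul_assoc, one_mul, smul_smul, ← add_smul]
    rw [show (Real.cos x : ℂ) * Real.cos x + -(Real.sin x : ℂ) * ((-Real.sin x : ℝ) : ℂ) = 1 by
      push_cast at h ⊢; linear_combination h, one_smul]
  · simp only [smul_mul_assoc, one_mul, smul_smul, ← add_smul]
    rw [show (Real.cos x : ℂ) * -((-Real.sin x : ℝ) : ℂ) + -(Real.sin x : ℂ) * Real.cos x = 0 by
      push_cast; ring, zero_smul]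
  · simp only [smul_mul_assoc, one_mul, smul_smul, ← add_smul]
    rw [show (Real.sin x : ℂ) * Real.cos x + (Real.cos x : ℂ) * ((-Real.sin x : ℝ) : ℂ) = 0 by
      push_cast; ring, zero_smul]
  · simp only [smul_mul_assoc, one_mul, smul_smul, ← add_smul]
    rw [show (Real.sin x : ℂ) * -((-Real.sin x : ℝ) : ℂ) + (Real.cos x : ℂ) * Real.cos x = 1 by
      push_cast at h ⊢; linear_combination h, one_smul]

theorem rot_det (x : ℝ) : (rot x : Matrix (ι ⊕ ι) (ι ⊕ ι) ℂ).det ≠ 0 := by
  intro h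
  have := congrArg Matrix.det (rot_mul_neg (ι := ι) x)
  rw [Matrix.det_mul, h, zero_mul, Matrix.det_one] at this
  exact zero_ne_one this

theorem rot_half (h : Matrix ι ι ℂ) :
    rot (Real.pi / 2) * Matrix.fromBlocks h 0 0 1 * rot (-(Real.pi / 2)) =
      Matrix.fromBlocks 1 0 0 h := by
  unfold rot
  rw [Real.cos_neg, Real.sin_neg, Real.cos_pi_div_two, Real.sin_pi_div_two]
  simp [Matrix.fromBlocks_multiply]

theorem continuous_rot {X : Type*} [TopologicalSpace X] {f : X → ℝ} (hf : Continuous f) :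
    Continuous (fun x => (rot (f x) : Matrix (ι ⊕ ι) (ι ⊕ ι) ℂ)) := by
  have hc : Continuous (fun x => ((Real.cos (f x) : ℝ) : ℂ)) :=
    Complex.continuous_ofReal.comp (Real.continuous_cos.comp hf)
  have hs : Continuous (fun x => ((Real.sin (f x) : ℝ) : ℂ)) :=
    Complex.continuous_ofReal.comp (Real.continuous_sin.comp hf)
  refine continuous_matrix ?_
  rintro (i | i) (j | j)
  · exact hc.mul continuous_const
  · exact hs.neg.mul continuous_const
  · exact hs.mul continuous_const
  · exact hc.mul continuous_const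

end mul

theorem mul : S_MUL := by
  intro ι _ _ g h hg hh
  have h1 : Lp (fun _ : R3 => (1 : Matrix ι ι ℂ)) := Lp.const (by simp)
  have hG : Lp (fun s => Matrix.fromBlocks (g s) 0 0 (1 : Matrix ι ι ℂ)) :=
    Lp.blocks hg h1 sm_zero (fun _ _ => rfl)
  have hH : Lp (fun s => Matrix.fromBlocks (h s) 0 0 (1 : Matrix ι ι ℂ)) :=
    Lp.blocks hh h1 sm_zero (fun _ _ => rfl)
  have key := hom (ι ⊕ ι) (fun t s => Matrix.fromBlocks (g s) 0 0 (1 : Matrix ι ι ℂ) *
    (rot (t * (Real.pi / 2)) * Matrix.fromBlocks (h s) 0 0 (1 : Matrix ι ι ℂ) *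
      rot (-(t * (Real.pi / 2)))))
    (fun t _ => hG.mul (((Lp.const (rot_det _)).mul hH).mul (Lp.const (rot_det _)))) ?_
  · have e0 : ∀ s, Matrix.fromBlocks (g s) 0 0 (1 : Matrix ι ι ℂ) *
        (rot ((0 : ℝ) * (Real.pi / 2)) * Matrix.fromBlocks (h s) 0 0 (1 : Matrix ι ι ℂ) *
          rot (-((0 : ℝ) * (Real.pi / 2)))) =
        Matrix.fromBlocks (g s * h s) 0 0 (1 : Matrix ι ι ℂ) := by
      intro s
      have : (rot 0 : Matrix (ι ⊕ ι) (ι ⊕ ι) ℂ) = 1 := by
        unfold rot
        simp [Matrix.fromBlocks_one]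
      rw [zero_mul, neg_zero, this, Matrix.one_mul, Matrix.mul_one, Matrix.fromBlocks_multiply]
      simp
    have e1 : ∀ s, Matrix.fromBlocks (g s) 0 0 (1 : Matrix ι ι ℂ) *
        (rot ((1 : ℝ) * (Real.pi / 2)) * Matrix.fromBlocks (h s) 0 0 (1 : Matrix ι ι ℂ) *
          rot (-((1 : ℝ) * (Real.pi / 2)))) = Matrix.fromBlocks (g s) 0 0 (h s) := by
      intro s
      rw [one_mul, rot_half, Matrix.fromBlocks_multiply]
      simp
    simp only [e0, e1] at key
    rw [W_blockDiag (hg.mul hh) h1, W_blockDiag hg hh, W_const, add_zero] at key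
    exact key
  · intro i j
    have hc : Continuous (fun p : ℝ × R3 => Matrix.fromBlocks (g p.2) 0 0 (1 : Matrix ι ι ℂ) *
      (rot (p.1 * (Real.pi / 2)) * Matrix.fromBlocks (h p.2) 0 0 (1 : Matrix ι ι ℂ) *
        rot (-(p.1 * (Real.pi / 2))))) := by
      refine Continuous.matrix_mul ((continuous_g hG.smooth).comp continuous_snd) ?_
      refine Continuous.matrix_mul (Continuous.matrix_mul (continuous_rot (by fun_prop))
        ((continuous_g hH.smooth).comp continuous_snd)) (continuous_rot (by fun_prop))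
    exact (hc.matrix_elem i j).continuousOn

end Pool.Agent.W630.LT
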