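import Mathlib

/-!
# Lagrangian tori in `ℝ^{2n}` and Lagrangian isotopies: definitions

`ℝ^{2n}` with coordinates `(q_1,p_1,…,q_n,p_n)` is `ℂⁿ = (Fin n → ℂ)` with `z_j = q_j + i p_j`, and
the torus `Tⁿ = (S¹)ⁿ` is `ℝⁿ/ℤⁿ`: maps on `Tⁿ` are `ℤⁿ`-periodic maps on `ℝⁿ = (Fin n → ℝ)`.
-/

open scoped ContDiff
open Set

namespace Pool.Agent.W630.LT

/-- The standard symplectic form `ω = ∑ dp_j ∧ dq_j` on `ℝ^{2n} = ℂⁿ`, `z_j = q_j + i p_j`. -/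
def omega {ι : Type} [Fintype ι] (u v : ι → ℂ) : ℝ :=
  ∑ j, ((u j).im * (v j).re - (u j).re * (v j).im)

/-- `f : ℝⁿ → ℝ^{2n}` is (the `ℤⁿ`-periodic lift of) a smooth embedding of the torus
`Tⁿ = ℝⁿ/ℤⁿ` whose image is Lagrangian: `f` is smooth, `f x = f y` exactly when `x - y ∈ ℤⁿ`, the
differential of `f` is injective at every point, and `ω` vanishes on the tangent spaces of the
image. -/
structure LagEmb {ι : Type} [Fintype ι] (f : (ι → ℝ) → (ι → ℂ)) : Prop where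
  smooth : ContDiff ℝ ∞ f
  eq_iff : ∀ x y, f x = f y ↔ ∃ m : ι → ℤ, ∀ i, y i = x i + m i
  immersion : ∀ x, Function.Injective (fderiv ℝ f x)
  lagrangian : ∀ x u v, omega (fderiv ℝ f x u) (fderiv ℝ f x v) = 0

/-- A Lagrangian torus: the image of a smooth embedding of `Tⁿ` with Lagrangian image. -/
def IsLagrangianTorus {n : ℕ} (L : Set (Fin n → ℂ)) : Prop :=
  ∃ f : (Fin n → ℝ) → (Fin n → ℂ), LagEmb f ∧ range f = L

/-- The Clifford torus `p_1² + q_1² = … = p_n² + q_n² = 1/n`. -/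
def cliffordTorus (n : ℕ) : Set (Fin n → ℂ) :=
  {z | ∀ j, (z j).im ^ 2 + (z j).re ^ 2 = 1 / n}

/-- `L₀` and `L₁` are Lagrangian isotopic: there is a smooth family `f_t`, `t ∈ [0,1]`, of
embeddings of `Tⁿ` with Lagrangian images and `f_0(Tⁿ) = L₀`, `f_1(Tⁿ) = L₁`. -/
def LagrangianIsotopic {n : ℕ} (L₀ L₁ : Set (Fin n → ℂ)) : Prop :=
  ∃ f : ℝ → (Fin n → ℝ) → (Fin n → ℂ),
    ContDiffOn ℝ ∞ (fun p : ℝ × (Fin n → ℝ) => f p.1 p.2) (Icc 0 1 ×ˢ univ) ∧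
    (∀ t ∈ Icc (0 : ℝ) 1, LagEmb (f t)) ∧ range (f 0) = L₀ ∧ range (f 1) = L₁

end Pool.Agent.W630.LT
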