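import Pool.Agent.W447.LT.Stm
import Pool.Agent.Helper273.Machine

/-!
Every recursively enumerable set of numbers is the halting set of a deterministic register
machine: the loop program `flag := 1; loop flag (y := f(k,n); loop y (y := 0; k += 1; flag += 1))`.
-/

set_option autoImplicit false

namespace Pool.Agent.W630.LT.Det

open Function Pool.Agent.Helper273.Reg

/-- state with the registers `n, k, y, g` -/
def sg (n k y g : ℕ) : ℕ → ℕ := fun r =>
  if r = 0 then n else if r = 1 then k else if r = 2 then y else if r = 3 then g else 0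

theorem sg_up1 (n k y g x : ℕ) : update (sg n k y g) 1 x = sg n x y g := by
  funext r
  simp only [update_apply, sg]
  split_ifs <;> omega

theorem sg_up2 (n k y g x : ℕ) : update (sg n k y g) 2 x = sg n k x g := by
  funext r
  simp only [update_apply, sg]
  split_ifs <;> omega

theorem sg_up3 (n k y g x : ℕ) : update (sg n k y g) 3 x = sg n k y x := by
  funext r
  simp only [update_apply, sg]
  split_ifs <;> omega

/-- the body of the search loop -/
def body (c : Cmd) : Cmd := .seq c (.loop 2 (.seq (clear 2) (.seq (.inc 1) (.inc 3))))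

theorem exec_body_zero (c : Cmd) (n k : ℕ) (h : Exec c (sg n k 0 0) (sg n k 0 0)) :
    Exec (body c) (sg n k 0 0) (sg n k 0 0) :=
  Exec.seq h (Exec.loop_zero rfl)

theorem exec_body_succ (c : Cmd) (n k m : ℕ) (h : Exec c (sg n k 0 0) (sg n k (m + 1) 0)) :
    Exec (body c) (sg n k 0 0) (sg n (k + 1) 0 1) := by
  refine Exec.seq h (Exec.loop_succ (k := m) rfl ?_ (Exec.loop_zero rfl))
  rw [sg_up2]
  refine Exec.seq ((exec_clear _ _).congr rfl (sg_up2 _ _ _ _ _)) ?_
  refine Exec.seq ((Exec.inc _ _).congr rfl (sg_up1 _ _ _ _ _)) ?_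
  exact (Exec.inc _ _).congr rfl (sg_up3 _ _ _ _ _)

/-- the search program -/
def prog (c : Cmd) : Cmd := .seq (.inc 3) (.loop 3 (body c))

theorem len_prog (c : Cmd) : len (prog c) = len (body c) + 3 := by
  simp only [prog, len]; omega

theorem code_prog (c : Cmd) : code (prog c) 0 =
    [.inc 3 1] ++ (.dec 3 2 (len (body c) + 3) :: (code (body c) 2 ++ [.jmp 1])) := by
  simp only [prog, code, len]
  congr 3
  omega

section run

variable (c : Cmd)

theorem isAt : IsAt (code (prog c) 0) 0 (code (prog c) 0) := ⟨[], [], by simp, rfl⟩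

theorem step0 (n k : ℕ) : step (code (prog c) 0) (0, sg n k 0 0) = (1, sg n k 0 1) := by
  have h := isAt c
  rw [code_prog] at h ⊢
  have g0 := h.get
  simp only [step, g0]
  rw [sg_up3]
  rfl

theorem step1 (n k : ℕ) : step (code (prog c) 0) (1, sg n k 0 1) = (2, sg n k 0 0) := by
  have h := isAt c
  rw [code_prog] at h ⊢
  have g0 := h.right.get
  simp only [List.length_singleton, zero_add] at g0
  simp only [step, g0]
  have h3 : sg n k 0 1 3 = 1 := rfl
  rw [h3, if_neg one_ne_zero, sg_up3]

theorem step1' (n k : ℕ) : step (code (prog c) 0) (1, sg n k 0 0) =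
    (len (body c) + 3, sg n k 0 0) := by
  have h := isAt c
  rw [code_prog] at h ⊢
  have g0 := h.right.get
  simp only [List.length_singleton, zero_add] at g0
  simp only [step, g0]
  have h3 : sg n k 0 0 3 = 0 := rfl
  rw [h3, if_pos rfl]

theorem run_body (σ τ : ℕ → ℕ) (h : Exec (body c) σ τ) :
    ∃ m, (step (code (prog c) 0))^[m] (2, σ) = (1, τ) := by
  have h0 := isAt c
  rw [code_prog] at h0 ⊢
  have h1 := h0.right
  simp only [List.length_singleton, zero_add] at h1
  have h2 : IsAt _ (1 + 1) (code (body c) 2 ++ [.jmp 1]) := IsAt.right (l := [_]) h1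
  obtain ⟨m, hm⟩ := sim h _ 2 h2.left
  refine ⟨1 + m, ?_⟩
  rw [iterate_add_apply, hm, iterate_one]
  have g1 := h2.right
  rw [length_code] at g1
  have g2 := g1.get
  simp only [step]
  have e : 1 + 1 + len (body c) = 2 + len (body c) := rfl
  rw [e] at g2
  rw [g2]

/-- one successful round -/
theorem round_zero (n k : ℕ) (h : Exec c (sg n k 0 0) (sg n k 0 0)) :
    ∃ m, (step (code (prog c) 0))^[m] (1, sg n k 0 1) = (len (body c) + 3, sg n k 0 0) := by
  obtain ⟨m, hm⟩ := run_body c _ _ (exec_body_zero c n k h)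
  refine ⟨1 + (m + 1), ?_⟩
  rw [iterate_add_apply, iterate_add_apply, iterate_one, step1, hm, step1']

/-- one unsuccessful round -/
theorem round_succ (n k y : ℕ) (h : Exec c (sg n k 0 0) (sg n k (y + 1) 0)) :
    ∃ m, (step (code (prog c) 0))^[m + 1] (1, sg n k 0 1) = (1, sg n (k + 1) 0 1) := by
  obtain ⟨m, hm⟩ := run_body c _ _ (exec_body_succ c n k y h)
  refine ⟨m, ?_⟩
  rw [iterate_add_apply, iterate_one, step1, hm]

variable (F : ℕ → ℕ → ℕ) (hF : ∀ n k, Exec c (sg n k 0 0) (sg n k (F k n) 0))

include hF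

theorem reach (n k : ℕ) (h : ∀ i < k, F i n ≠ 0) :
    ∃ j, k ≤ j ∧ (step (code (prog c) 0))^[j] (0, sg n 0 0 0) = (1, sg n k 0 1) := by
  induction k with
  | zero => exact ⟨1, Nat.zero_le _, by rw [iterate_one, step0]⟩
  | succ k ih =>
    obtain ⟨j, hj, e⟩ := ih (fun i hi => h i (by omega))
    have hk := hF n k
    obtain ⟨y, hy⟩ := Nat.exists_eq_succ_of_ne_zero (h k (by omega))
    rw [hy] at hk
    obtain ⟨m, hm⟩ := round_succ c n k y hk
    refine ⟨m + 1 + j, by omega, ?_⟩
    rw [iterate_add_apply, e, hm]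

theorem fixL (σ : ℕ → ℕ) : step (code (prog c) 0) (len (body c) + 3, σ) =
    (len (body c) + 3, σ) := by
  have : (code (prog c) 0)[len (body c) + 3]? = none := by
    rw [List.getElem?_eq_none_iff, length_code, len_prog]
  simp only [step, this]

theorem halts_iff (n : ℕ) : (∃ k, F k n = 0) ↔
    ∃ j, ((step (code (prog c) 0))^[j] (0, sg n 0 0 0)).1 = len (body c) + 3 := by
  constructor
  · intro h
    classical
    obtain ⟨j, -, e⟩ := reach c F hF n (Nat.find h) (fun i hi => Nat.find_min h hi)
    have hk := hF n (Nat.find h)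
    rw [Nat.find_spec h] at hk
    obtain ⟨m, hm⟩ := round_zero c n _ hk
    refine ⟨m + j, ?_⟩
    rw [iterate_add_apply, e, hm]
  · rintro ⟨j, hj⟩
    by_contra hne
    push Not at hne
    obtain ⟨i, hi, e⟩ := reach c F hF n j (fun i _ => hne i)
    set y := (step (code (prog c) 0))^[j] (0, sg n 0 0 0) with hy
    have hfix : step (code (prog c) 0) y = y := by
      have := fixL c F hF y.2
      rw [← hj] at this
      exact this
    have e2 : (step (code (prog c) 0))^[(i - j) + j] (0, sg n 0 0 0) = y := by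
      rw [iterate_add_apply, ← hy]
      exact iterate_fixed hfix _
    have e3 : i - j + j = i := by omega
    rw [e3, e] at e2
    have := congrArg Prod.fst e2
    simp only at this
    omega

end run

open Pool.Agent.Helper273 in
/-- translation of an instruction -/
def tr {N : ℕ} {Q : Type} : Machine.MI N Q → Pool.Agent.W447.LT.MI N Q
  | .inc r q => .inc r q
  | .dec r q q' => .dec r q q'
  | .jmp q => .jmp q

open Pool.Agent.Helper273 in
theorem mstep_tr {N : ℕ} {Q : Type} (ins : Q → Machine.MI N Q) (x : Q × (Fin N → ℕ)) :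
    Pool.Agent.W447.LT.mstep (fun q => tr (ins q)) x = Machine.mstep ins x := by
  obtain ⟨q, σ⟩ := x
  show (match tr (ins q) with
    | .inc r q => (q, update σ r (σ r + 1))
    | .dec r q q' => if σ r = 0 then (q', σ) else (q, update σ r (σ r - 1))
    | .jmp q => (q, σ)) = (match ins q with
    | .inc r q => (q, update σ r (σ r + 1))
    | .dec r q q' => if σ r = 0 then (q', σ) else (q, update σ r (σ r - 1))
    | .jmp q => (q, σ))
  cases ins q <;> rfl

theorem det : Pool.Agent.W447.LT.DET := by
  intro S hS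
  obtain ⟨f, hf, hfS⟩ := Pool.Agent.Helper273.Machine.exists_primrec S hS
  obtain ⟨c, hc⟩ := comp_of_primrec hf ![1, 0] 2 4 (by intro i; fin_cases i <;> simp) (by omega)
    (by intro i; fin_cases i <;> simp)
  have hF : ∀ n k, Exec c (sg n k 0 0)
      (sg n k ((fun k n => f (k ::ᵥ n ::ᵥ List.Vector.nil)) k n) 0) := by
    intro n k
    have h1 := hc (sg n k 0 0) (fun r hr => by
      unfold sg; rw [if_neg (by omega), if_neg (by omega), if_neg (by omega), if_neg (by omega)])
      rfl
    have e1 : (List.Vector.ofFn fun i : Fin 2 => sg n k 0 0 (![1, 0] i))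
        = k ::ᵥ n ::ᵥ List.Vector.nil := rfl
    rw [e1, sg_up2] at h1
    exact h1
  set P := code (prog c) 0 with hPdef
  set L := len (body c) + 3 with hL
  have hlen : P.length = L := by rw [hPdef, length_code, len_prog]
  obtain ⟨K0, hK0⟩ := code_ok (prog c)
  have hP : ∀ i ∈ P, Ok (K0 + 2) L i := fun i hi =>
    (hK0 0 i hi).mono (by omega) (by rw [len_prog]; omega)
  refine ⟨K0 + 2, L, fun q => tr (Pool.Agent.Helper273.Machine.convP K0 L P q),
    Fin.last (K0 + 2), ?_, fun n => ?_⟩
  · have : P[((Fin.last L : Fin (L + 1)) : ℕ)]? = none := by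
      rw [List.getElem?_eq_none_iff, hlen]
      simp
    simp only [Pool.Agent.Helper273.Machine.convP, this]
    rfl
  have hst : ∀ r, K0 + 2 ≤ r → sg n 0 0 0 r = 0 := by
    intro r hr
    unfold sg
    rw [if_neg (by omega)]
    split_ifs <;> rfl
  have hres : Pool.Agent.Helper273.Machine.res (K0 + 3) (sg n 0 0 0) =
      Pool.Agent.W447.LT.st0 (N := K0 + 2 + 1) 0 n := by
    funext r
    simp only [Pool.Agent.Helper273.Machine.res, Pool.Agent.W447.LT.st0, sg, Pi.single_apply]
    by_cases h : r = 0
    · subst h; simp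
    · have h' : (r : ℕ) ≠ 0 := fun h' => h (Fin.ext h')
      rw [if_neg h', if_neg h]
      split_ifs <;> rfl
  have hms : Pool.Agent.W447.LT.mstep
      (fun q => tr (Pool.Agent.Helper273.Machine.convP K0 L P q)) =
      Pool.Agent.Helper273.Machine.mstep (Pool.Agent.Helper273.Machine.convP K0 L P) := by
    funext x
    exact mstep_tr _ x
  rw [hfS, hms]
  rw [show (∃ k, f (k ::ᵥ n ::ᵥ List.Vector.nil) = 0) ↔ _ from
    halts_iff c (fun k n => f (k ::ᵥ n ::ᵥ List.Vector.nil)) hF n]
  refine exists_congr fun j => ?_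
  obtain ⟨h1, h2, -⟩ := Pool.Agent.Helper273.Machine.conv_iter hlen hP (sg n 0 0 0) hst j
  have hzero : (Fin.ofNat (L + 1) 0 : Fin (L + 1)) = 0 := rfl
  rw [hzero, hres] at h1
  rw [h1]
  simp only
  rw [Fin.ext_iff, Pool.Agent.Helper273.Machine.ofNat_val L _ (by omega)]
  rfl

end Pool.Agent.W630.LT.Det
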