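import Pool.Agent.W630.LT.Defs

/-!
# Lagrangian immersions: the primitive, and invertibility of the complexified differential
-/

open scoped ContDiff Matrix ComplexConjugate
open Set

namespace Pool.Agent.W630.LT

variable {ι : Type} [Fintype ι]

/-- `½ Im ∑ conj(u_j) v_j`: the primitive `½ ∑ (q dp - p dq)` at the point `u` on the vector `v` -/
noncomputable def lam (u v : ι → ℂ) : ℝ := (1 / 2) * ∑ j, (conj (u j) * v j).im

theorem lam_add_right (u v w : ι → ℂ) : lam u (v + w) = lam u v + lam u w := by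
  simp [lam, mul_add, Finset.sum_add_distrib]

theorem lam_smul_right (u v : ι → ℂ) (r : ℝ) : lam u (r • v) = r * lam u v := by
  unfold lam
  rw [Finset.mul_sum, Finset.mul_sum, Finset.mul_sum]
  refine Finset.sum_congr rfl fun j _ => ?_
  simp [Complex.mul_im]
  ring

theorem lam_sum_right {κ : Type*} (s : Finset κ) (u : ι → ℂ) (v : κ → ι → ℂ) :
    lam u (∑ k ∈ s, v k) = ∑ k ∈ s, lam u (v k) := by
  classical
  induction s using Finset.induction_on with
  | empty => simp [lam]
  | insert a s ha ih => rw [Finset.sum_insert ha, Finset.sum_insert ha, lam_add_right, ih]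

theorem lam_sub (u v : ι → ℂ) : lam u v - lam v u = -omega u v := by
  unfold lam omega
  rw [Finset.mul_sum, Finset.mul_sum, ← Finset.sum_sub_distrib, ← Finset.sum_neg_distrib]
  refine Finset.sum_congr rfl fun j _ => ?_
  simp [Complex.mul_im]
  ring

variable {E : Type*} [NormedAddCommGroup E] [NormedSpace ℝ E]

theorem hasFDerivAt_lam {F G : E → ι → ℂ} {F' G' : E →L[ℝ] (ι → ℂ)} {x : E}
    (hF : HasFDerivAt F F' x) (hG : HasFDerivAt G G' x) :
    ∃ L : E →L[ℝ] ℝ, HasFDerivAt (fun y => lam (F y) (G y)) L x ∧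
      ∀ w, L w = lam (F' w) (G x) + lam (F x) (G' w) := by
  have h1 : ∀ j, HasFDerivAt (fun y => F y j) ((ContinuousLinearMap.proj j).comp F') x :=
    fun j => (hasFDerivAt_pi'.1 hF) j
  have h2 : ∀ j, HasFDerivAt (fun y => G y j) ((ContinuousLinearMap.proj j).comp G') x :=
    fun j => (hasFDerivAt_pi'.1 hG) j
  have h3 : ∀ j, HasFDerivAt (fun y => conj (F y j))
      ((Complex.conjCLE : ℂ →L[ℝ] ℂ).comp ((ContinuousLinearMap.proj j).comp F')) x := fun j =>
    (Complex.conjCLE : ℂ →L[ℝ] ℂ).hasFDerivAt.comp x (h1 j)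
  have h4 := fun j => (Complex.imCLM.hasFDerivAt.comp x ((h3 j).mul (h2 j)))
  have h5 := (HasFDerivAt.fun_sum (u := Finset.univ) fun j (_ : j ∈ Finset.univ) => h4 j).const_mul
    (1 / 2 : ℝ)
  refine ⟨_, h5, fun w => ?_⟩
  simp only [lam]
  rw [← mul_add, ← Finset.sum_add_distrib]
  simp only [ContinuousLinearMap.smul_apply, ContinuousLinearMap.sum_apply, smul_eq_mul]
  congr 1
  refine Finset.sum_congr rfl fun j _ => ?_
  simp
  ring

/-- a map with constant `λ(F, DF v)` is isotropic -/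
theorem omega_eq_zero_of_lam {F : E → ι → ℂ} (hF : ContDiff ℝ ∞ F)
    (h : ∀ v, ∃ c, ∀ x, lam (F x) (fderiv ℝ F x v) = c) (x u v : E) :
    omega (fderiv ℝ F x u) (fderiv ℝ F x v) = 0 := by
  have h1 : HasFDerivAt F (fderiv ℝ F x) x :=
    (hF.differentiable (by simp)).differentiableAt.hasFDerivAt
  have h4 : HasFDerivAt (fderiv ℝ F) (fderiv ℝ (fderiv ℝ F) x) x :=
    ((hF.fderiv_right (m := ∞) (by simp)).differentiable (by simp)).differentiableAt.hasFDerivAt
  have h5 : ∀ v, HasFDerivAt (fun y => fderiv ℝ F y v)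
      ((ContinuousLinearMap.apply ℝ (ι → ℂ) v).comp (fderiv ℝ (fderiv ℝ F) x)) x := fun v =>
    (ContinuousLinearMap.apply ℝ (ι → ℂ) v).hasFDerivAt.comp x h4
  have key : ∀ u v, lam (fderiv ℝ F x u) (fderiv ℝ F x v) +
      lam (F x) (fderiv ℝ (fderiv ℝ F) x u v) = 0 := by
    intro u v
    obtain ⟨L, hL, hL'⟩ := hasFDerivAt_lam h1 (h5 v)
    obtain ⟨c, hc⟩ := h v
    have h6 : (fun y => lam (F y) (fderiv ℝ F y v)) = fun _ => c := funext hc
    rw [h6] at hL
    have h7 : L = 0 := hL.unique (hasFDerivAt_const c x)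
    have h8 := hL' u
    rw [h7] at h8
    simpa using h8.symm
  have hsymm : fderiv ℝ (fderiv ℝ F) x u v = fderiv ℝ (fderiv ℝ F) x v u :=
    ((hF.contDiffAt (x := x)).isSymmSndFDerivAt
      (by rw [minSmoothness_of_isRCLikeNormedField]; exact WithTop.coe_le_coe.2 (le_top : (2 : ℕ∞) ≤ ⊤))).eq u v
  have k1 := key u v
  have k2 := key v u
  rw [hsymm] at k1
  have k3 := lam_sub (fderiv ℝ F x u) (fderiv ℝ F x v)
  linarith

/-- real linear maps `ℝ^ι → ℂ^ι` as complex matrices -/
noncomputable def mat [DecidableEq ι] (T : (ι → ℝ) →L[ℝ] (ι → ℂ)) : Matrix ι ι ℂ :=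
  Matrix.of fun i j => T (Pi.single j 1) i

theorem mat_mulVec_ofReal [DecidableEq ι] (T : (ι → ℝ) →L[ℝ] (ι → ℂ)) (v : ι → ℝ) :
    (mat T).mulVec (fun j => (v j : ℂ)) = T v := by
  have h : v = ∑ j, v j • (Pi.single j (1 : ℝ) : ι → ℝ) := by
    ext i
    simp [Finset.sum_apply, Pi.single_apply]
  ext i
  conv_rhs => rw [h, map_sum]
  simp only [Matrix.mulVec, dotProduct, mat, Matrix.of_apply, Finset.sum_apply, map_smul,
    Pi.smul_apply, Complex.real_smul]
  exact Finset.sum_congr rfl fun j _ => mul_comm _ _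

/-- the complexified differential of a Lagrangian immersion is invertible -/
theorem mat_det_ne_zero [DecidableEq ι] (T : (ι → ℝ) →L[ℝ] (ι → ℂ)) (hT : Function.Injective T)
    (hL : ∀ u v, omega (T u) (T v) = 0) : (mat T).det ≠ 0 := by
  intro h0
  obtain ⟨v, hv, hv0⟩ := Matrix.exists_mulVec_eq_zero_iff.2 h0
  set a : ι → ℝ := fun j => (v j).re with ha
  set b : ι → ℝ := fun j => (v j).im with hb
  have hdec : v = (fun j => (a j : ℂ)) + Complex.I • fun j => (b j : ℂ) := by
    ext j
    simp only [Pi.add_apply, Pi.smul_apply, smul_eq_mul, ha, hb]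
    rw [mul_comm]
    exact (Complex.re_add_im (v j)).symm
  have h1 : T a + Complex.I • T b = 0 := by
    rw [← mat_mulVec_ofReal T a, ← mat_mulVec_ofReal T b, ← Matrix.mulVec_smul, ← Matrix.mulVec_add,
      ← hdec, hv0]
  have h2 : ∀ j, T a j = -(Complex.I * T b j) := by
    intro j
    have := congrFun h1 j
    simp only [Pi.add_apply, Pi.smul_apply, smul_eq_mul, Pi.zero_apply] at this
    exact eq_neg_of_add_eq_zero_left this
  have h3 : omega (T a) (T b) = -∑ j, Complex.normSq (T b j) := by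
    unfold omega
    rw [← Finset.sum_neg_distrib]
    refine Finset.sum_congr rfl fun j _ => ?_
    rw [h2 j, Complex.normSq_apply]
    simp
    ring
  rw [hL] at h3
  have h4 : ∀ j, Complex.normSq (T b j) = 0 := by
    have := (Finset.sum_eq_zero_iff_of_nonneg (fun j _ => Complex.normSq_nonneg (T b j))).1
      (by linarith : ∑ j, Complex.normSq (T b j) = 0)
    intro j
    exact this j (Finset.mem_univ j)
  have h5 : T b = 0 := by
    ext j
    exact Complex.normSq_eq_zero.1 (h4 j)
  have h6 : T a = 0 := by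
    ext j
    rw [h2 j, congrFun h5 j]
    simp
  have h7 : b = 0 := hT (by rw [h5, map_zero])
  have h8 : a = 0 := hT (by rw [h6, map_zero])
  apply hv
  rw [hdec, h7, h8]
  ext j
  simp

end Pool.Agent.W630.LT
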