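import Pool.Agent.W630.LT.EmbA

/-!
# The suspension construction

From a family `z : T^α × T^κ → ℂ^α` of isotropic tori one gets a Lagrangian torus
`(z, √(C - q_j/π) exp(2πi s_j))` in `ℂ^α × ℂ^κ`.
-/

open scoped ContDiff Matrix ComplexConjugate
open Set

namespace Pool.Agent.W630.LT

section

variable {ι : Type} [Fintype ι]
variable {E : Type*} [NormedAddCommGroup E] [NormedSpace ℝ E]

theorem contDiff_lam {F G : E → ι → ℂ} (hF : ContDiff ℝ ∞ F) (hG : ContDiff ℝ ∞ G) :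
    ContDiff ℝ ∞ (fun y => lam (F y) (G y)) := by
  unfold lam
  refine contDiff_const.mul (ContDiff.sum fun j _ => ?_)
  have h1 : ContDiff ℝ ∞ (fun y => F y j) := (contDiff_pi.1 hF) j
  have h2 : ContDiff ℝ ∞ (fun y => G y j) := (contDiff_pi.1 hG) j
  have h3 : ContDiff ℝ ∞ (fun y => conj (F y j)) :=
    (Complex.conjCLE : ℂ →L[ℝ] ℂ).contDiff.comp h1
  exact Complex.imCLM.contDiff.comp (h3.mul h2)

end

variable {α κ : Type} [Fintype α] [DecidableEq α] [Fintype κ] [DecidableEq κ]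

/-- the moment `q_j` -/
noncomputable def qq (z : (α ⊕ κ → ℝ) → (α → ℂ)) (j : κ) (x : α ⊕ κ → ℝ) : ℝ :=
  lam (z x) (fderiv ℝ z x (Pi.single (Sum.inr j) 1))

/-- `exp (2πi t)` -/
noncomputable def ee (t : ℝ) : ℂ := Complex.exp (2 * Real.pi * Complex.I * t)

/-- the radius -/
noncomputable def rr (z : (α ⊕ κ → ℝ) → (α → ℂ)) (C : ℝ) (j : κ) (x : α ⊕ κ → ℝ) : ℝ :=
  Real.sqrt (C - qq z j x / Real.pi)

/-- the suspension -/
noncomputable def FS (z : (α ⊕ κ → ℝ) → (α → ℂ)) (C : ℝ) (x : α ⊕ κ → ℝ) : α ⊕ κ → ℂ :=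
  Sum.elim (z x) (fun j => (rr z C j x : ℂ) * ee (x (Sum.inr j)))

/-- conditions on the family -/
structure Fam (z : (α ⊕ κ → ℝ) → (α → ℂ)) (C : ℝ) : Prop where
  smooth : ContDiff ℝ ∞ z
  lamc : ∀ l, ∃ c, ∀ x, lam (z x) (fderiv ℝ z x (Pi.single (Sum.inl l) 1)) = c
  pos : ∀ j x, 0 < C - qq z j x / Real.pi
  inj : ∀ x (a : α → ℝ), fderiv ℝ z x (Sum.elim a 0) = 0 → a = 0

theorem ee_conj_mul (t : ℝ) : conj (ee t) * ee t = 1 := by
  unfold ee
  rw [← Complex.exp_conj, ← Complex.exp_add]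
  have : conj (2 * Real.pi * Complex.I * t : ℂ) + 2 * Real.pi * Complex.I * t = 0 := by
    rw [map_mul, map_mul, map_mul, Complex.conj_ofReal, Complex.conj_ofReal, Complex.conj_I]
    have : conj (2 : ℂ) = 2 := Complex.conj_ofReal 2
    rw [this]
    ring
  rw [this, Complex.exp_zero]

theorem ee_ne (t : ℝ) : ee t ≠ 0 := Complex.exp_ne_zero _

theorem ee_add_int (t : ℝ) (m : ℤ) : ee (t + m) = ee t := by
  unfold ee
  rw [Complex.exp_eq_exp_iff_exists_int]
  refine ⟨m, ?_⟩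
  push_cast
  ring

theorem ee_eq_iff (t u : ℝ) : ee t = ee u ↔ ∃ m : ℤ, u = t + m := by
  constructor
  · intro h
    unfold ee at h
    rw [Complex.exp_eq_exp_iff_exists_int] at h
    obtain ⟨m, hm⟩ := h
    refine ⟨-m, ?_⟩
    have h2 : (2 * Real.pi * Complex.I : ℂ) ≠ 0 := by
      simp [Real.pi_ne_zero]
    have h3 : (t : ℂ) = u + m := by
      apply mul_left_cancel₀ h2
      rw [hm]; ring
    have h4 : t = u + m := by exact_mod_cast h3
    rw [h4]; push_cast; ring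
  · rintro ⟨m, rfl⟩
    rw [ee_add_int]

theorem hasDerivAt_ee (t : ℝ) : HasDerivAt ee (2 * Real.pi * Complex.I * ee t) t := by
  unfold ee
  have h1 : HasDerivAt (fun t : ℝ => (t : ℂ)) 1 t := Complex.ofRealCLM.hasDerivAt
  have h2 := (h1.const_mul (2 * Real.pi * Complex.I : ℂ)).cexp
  convert h2 using 1
  ring

theorem contDiff_ee : ContDiff ℝ ∞ ee := by
  unfold ee
  have h1 : ContDiff ℝ ∞ (fun t : ℝ => (2 * Real.pi * Complex.I * t : ℂ)) :=
    contDiff_const.mul Complex.ofRealCLM.contDiff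
  exact h1.cexp

theorem contDiff_qq {z : (α ⊕ κ → ℝ) → (α → ℂ)} (hz : ContDiff ℝ ∞ z) (j : κ) :
    ContDiff ℝ ∞ (qq z j) :=
  contDiff_lam hz ((hz.fderiv_right (m := ∞) (by simp)).clm_apply contDiff_const)

theorem contDiff_rr {z : (α ⊕ κ → ℝ) → (α → ℂ)} {C : ℝ} (h : Fam z C) (j : κ) :
    ContDiff ℝ ∞ (rr z C j) := by
  unfold rr
  exact (contDiff_const.sub ((contDiff_qq h.smooth j).div_const _)).sqrt
    (fun x => (h.pos j x).ne')

theorem rr_pos {z : (α ⊕ κ → ℝ) → (α → ℂ)} {C : ℝ} (h : Fam z C) (j : κ) (x) :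
    0 < rr z C j x := Real.sqrt_pos.2 (h.pos j x)

theorem rr_sq {z : (α ⊕ κ → ℝ) → (α → ℂ)} {C : ℝ} (h : Fam z C) (j : κ) (x) :
    rr z C j x ^ 2 = C - qq z j x / Real.pi := Real.sq_sqrt (h.pos j x).le

theorem contDiff_FS {z : (α ⊕ κ → ℝ) → (α → ℂ)} {C : ℝ} (h : Fam z C) :
    ContDiff ℝ ∞ (FS z C) := by
  rw [contDiff_pi]
  rintro (l | j)
  · exact (contDiff_pi.1 h.smooth) l
  · refine (Complex.ofRealCLM.contDiff.comp (contDiff_rr h j)).mul ?_
    exact contDiff_ee.comp (contDiff_apply ℝ ℝ (Sum.inr j))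

theorem fderiv_FS_inl {z : (α ⊕ κ → ℝ) → (α → ℂ)} {C : ℝ} (h : Fam z C) (x v : α ⊕ κ → ℝ)
    (l : α) : fderiv ℝ (FS z C) x v (Sum.inl l) = fderiv ℝ z x v l := by
  have h1 : HasFDerivAt (FS z C) (fderiv ℝ (FS z C) x) x :=
    ((contDiff_FS h).differentiable (by simp)).differentiableAt.hasFDerivAt
  have h2 := (hasFDerivAt_pi'.1 h1) (Sum.inl l)
  have h3 : HasFDerivAt z (fderiv ℝ z x) x :=
    (h.smooth.differentiable (by simp)).differentiableAt.hasFDerivAt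
  have h4 := (hasFDerivAt_pi'.1 h3) l
  have h5 := h2.unique h4
  exact congrArg (fun T : (α ⊕ κ → ℝ) →L[ℝ] ℂ => T v) h5

theorem fderiv_FS_inr {z : (α ⊕ κ → ℝ) → (α → ℂ)} {C : ℝ} (h : Fam z C) (x v : α ⊕ κ → ℝ)
    (j : κ) : fderiv ℝ (FS z C) x v (Sum.inr j) =
      ((fderiv ℝ (rr z C j) x v : ℝ) : ℂ) * ee (x (Sum.inr j)) +
        rr z C j x * (2 * Real.pi * Complex.I * v (Sum.inr j) * ee (x (Sum.inr j))) := by
  have h1 : HasFDerivAt (FS z C) (fderiv ℝ (FS z C) x) x :=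
    ((contDiff_FS h).differentiable (by simp)).differentiableAt.hasFDerivAt
  have h2 := (hasFDerivAt_pi'.1 h1) (Sum.inr j)
  have h3 : HasFDerivAt (rr z C j) (fderiv ℝ (rr z C j) x) x :=
    ((contDiff_rr h j).differentiable (by simp)).differentiableAt.hasFDerivAt
  have h4 : HasFDerivAt (fun y => ((rr z C j y : ℝ) : ℂ)) _ x :=
    Complex.ofRealCLM.hasFDerivAt.comp x h3
  have h5 : HasFDerivAt (fun y : α ⊕ κ → ℝ => y (Sum.inr j))
      (ContinuousLinearMap.proj (R := ℝ) (φ := fun _ : α ⊕ κ => ℝ) (Sum.inr j)) x :=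
    (ContinuousLinearMap.proj (R := ℝ) (φ := fun _ : α ⊕ κ => ℝ) (Sum.inr j)).hasFDerivAt
  have h6 := (hasDerivAt_ee (x (Sum.inr j))).hasFDerivAt.comp x h5
  have h7 := h4.mul h6
  have h8 : HasFDerivAt (fun y => FS z C y (Sum.inr j)) _ x := h7
  have h9 := h2.unique h8
  have h10 := congrArg (fun T : (α ⊕ κ → ℝ) →L[ℝ] ℂ => T v) h9
  have h11 : ((ContinuousLinearMap.proj (R := ℝ) (φ := fun _ : α ⊕ κ => ℂ) (Sum.inr j)).comp
    (fderiv ℝ (FS z C) x)) v = fderiv ℝ (FS z C) x v (Sum.inr j) := rfl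
  rw [← h11, h10]
  simp
  ring

theorem lam_FS {z : (α ⊕ κ → ℝ) → (α → ℂ)} {C : ℝ} (h : Fam z C) (v : α ⊕ κ → ℝ) :
    ∃ c, ∀ x, lam (FS z C x) (fderiv ℝ (FS z C) x v) = c := by
  choose c hc using h.lamc
  refine ⟨∑ l, v (Sum.inl l) * c l + Real.pi * C * ∑ j, v (Sum.inr j), fun x => ?_⟩
  have hv : v = ∑ l, v (Sum.inl l) • (Pi.single (Sum.inl l) (1 : ℝ) : α ⊕ κ → ℝ) +
      ∑ j, v (Sum.inr j) • (Pi.single (Sum.inr j) (1 : ℝ) : α ⊕ κ → ℝ) := by
    ext i
    rcases i with l | j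
    · simp [Finset.sum_apply, Pi.single_apply]
    · simp [Finset.sum_apply, Pi.single_apply]
  have h1 : lam (z x) (fderiv ℝ z x v) = ∑ l, v (Sum.inl l) * c l +
      ∑ j, v (Sum.inr j) * qq z j x := by
    conv_lhs => rw [hv]
    rw [map_add, map_sum, map_sum, lam_add_right, lam_sum_right, lam_sum_right]
    congr 1
    · refine Finset.sum_congr rfl fun l _ => ?_
      rw [map_smul, lam_smul_right, hc]
    · refine Finset.sum_congr rfl fun j _ => ?_
      rw [map_smul, lam_smul_right]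
      rfl
  have h2 : lam (FS z C x) (fderiv ℝ (FS z C) x v) = lam (z x) (fderiv ℝ z x v) +
      ∑ j, Real.pi * rr z C j x ^ 2 * v (Sum.inr j) := by
    unfold lam
    rw [Fintype.sum_sum_type, mul_add]
    congr 1
    · congr 1
      refine Finset.sum_congr rfl fun l _ => ?_
      rw [fderiv_FS_inl h]
      rfl
    · rw [Finset.mul_sum]
      refine Finset.sum_congr rfl fun j _ => ?_
      rw [fderiv_FS_inr h]
      have e1 : FS z C x (Sum.inr j) = (rr z C j x : ℂ) * ee (x (Sum.inr j)) := rfl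
      rw [e1, map_mul, Complex.conj_ofReal]
      have e2 : (rr z C j x : ℂ) * conj (ee (x (Sum.inr j))) *
          (((fderiv ℝ (rr z C j) x v : ℝ) : ℂ) * ee (x (Sum.inr j)) +
            rr z C j x * (2 * Real.pi * Complex.I * v (Sum.inr j) * ee (x (Sum.inr j)))) =
          ((rr z C j x * fderiv ℝ (rr z C j) x v : ℝ) : ℂ) +
            ((rr z C j x ^ 2 * (2 * Real.pi) * v (Sum.inr j) : ℝ) : ℂ) * Complex.I := by
        push_cast
        linear_combination ((rr z C j x : ℂ) * ((fderiv ℝ (rr z C j) x v : ℝ) : ℂ) +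
          (rr z C j x : ℂ) ^ 2 * (2 * Real.pi * Complex.I * v (Sum.inr j))) *
            ee_conj_mul (x (Sum.inr j))
      rw [e2]
      simp only [Complex.add_im, Complex.ofReal_im, Complex.im_ofReal_mul,
        Complex.I_im, zero_add, mul_one]
      ring
  rw [h2, h1]
  have h3 : ∀ j, Real.pi * rr z C j x ^ 2 * v (Sum.inr j) =
      Real.pi * C * v (Sum.inr j) - v (Sum.inr j) * qq z j x := by
    intro j
    rw [rr_sq h]
    field_simp
  rw [Finset.sum_congr rfl (fun j _ => h3 j), Finset.sum_sub_distrib, ← Finset.mul_sum]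
  ring

theorem omega_FS {z : (α ⊕ κ → ℝ) → (α → ℂ)} {C : ℝ} (h : Fam z C) (x u v : α ⊕ κ → ℝ) :
    omega (fderiv ℝ (FS z C) x u) (fderiv ℝ (FS z C) x v) = 0 :=
  omega_eq_zero_of_lam (contDiff_FS h) (lam_FS h) x u v

theorem immersion_FS {z : (α ⊕ κ → ℝ) → (α → ℂ)} {C : ℝ} (h : Fam z C) (x : α ⊕ κ → ℝ) :
    Function.Injective (fderiv ℝ (FS z C) x) := by
  rw [injective_iff_map_eq_zero]
  intro v hv
  have h1 : ∀ j, v (Sum.inr j) = 0 := by
    intro j
    have h2 := fderiv_FS_inr h x v j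
    rw [hv] at h2
    have h3 : ((fderiv ℝ (rr z C j) x v : ℝ) : ℂ) +
        ((rr z C j x * (2 * Real.pi) * v (Sum.inr j) : ℝ) : ℂ) * Complex.I = 0 := by
      apply mul_right_cancel₀ (ee_ne (x (Sum.inr j)))
      rw [zero_mul]
      have h4 : (0 : α ⊕ κ → ℂ) (Sum.inr j) = 0 := rfl
      rw [h4] at h2
      push_cast
      linear_combination -h2
    have h4 := congrArg Complex.im h3
    simp only [Complex.add_im, Complex.ofReal_im, Complex.im_ofReal_mul, Complex.I_im, zero_add,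
      mul_one, Complex.zero_im] at h4
    have h5 : rr z C j x * (2 * Real.pi) ≠ 0 :=
      mul_ne_zero (rr_pos h j x).ne' (by positivity)
    exact (mul_eq_zero.1 h4).resolve_left h5
  have h2 : v = Sum.elim (fun l => v (Sum.inl l)) 0 := by
    ext i
    rcases i with l | j
    · rfl
    · exact h1 j
  have h3 : fderiv ℝ z x (Sum.elim (fun l => v (Sum.inl l)) 0) = 0 := by
    ext l
    rw [← fderiv_FS_inl h, ← h2, hv]
    rfl
  have h4 := h.inj x _ h3
  rw [h2]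
  ext i
  rcases i with l | j
  · exact congrFun h4 l
  · rfl

theorem mat_FS_det {z : (α ⊕ κ → ℝ) → (α → ℂ)} {C : ℝ} (h : Fam z C) (x : α ⊕ κ → ℝ) :
    (mat (fderiv ℝ (FS z C) x)).det ≠ 0 :=
  mat_det_ne_zero _ (immersion_FS h x) (omega_FS h x)

end Pool.Agent.W630.LT
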