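import Pool.Agent.W630.LT.HomB

/-!
# Homotopy invariance of `W`: continuous homotopies of smooth loops (`S_HOM`)
-/

open scoped ContDiff Matrix Topology
open Set MeasureTheory

namespace Pool.Agent.W630.LT

theorem per_single_int {V : Type} {g : R3 → V} (hg : Per g) (k : Fin 3) (n : ℤ) (s : R3) :
    g (s + Pi.single k (n : ℝ)) = g s := by
  induction n using Int.induction_on generalizing s with
  | zero => simp
  | succ n ih =>
    have : (s + Pi.single k (((n : ℤ) + 1 : ℤ) : ℝ) : R3) =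
        (s + Pi.single k ((n : ℤ) : ℝ)) + Pi.single k 1 := by
      rw [add_assoc, ← Pi.single_add]; push_cast; rfl
    rw [this, hg, ih]
  | pred n ih =>
    have : (s + Pi.single k ((-(n : ℤ) - 1 : ℤ) : ℝ) : R3) + Pi.single k 1 =
        s + Pi.single k ((-(n : ℤ) : ℤ) : ℝ) := by
      rw [add_assoc, ← Pi.single_add]; congr 2; push_cast; ring
    rw [← hg k, this, ih]

theorem per_int {V : Type} {g : R3 → V} (hg : Per g) (m : Fin 3 → ℤ) (s : R3) :
    g (s + fun i => (m i : ℝ)) = g s := by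
  have : (s + fun i => (m i : ℝ) : R3) =
      s + Pi.single 0 ((m 0 : ℤ) : ℝ) + Pi.single 1 ((m 1 : ℤ) : ℝ) +
        Pi.single 2 ((m 2 : ℤ) : ℝ) := by
    ext i
    fin_cases i <;> simp
  rw [this, per_single_int hg, per_single_int hg, per_single_int hg]

/-- the representative in the unit cube -/
noncomputable def frac (s : R3) : R3 := fun i => Int.fract (s i)

theorem frac_mem (s : R3) : frac s ∈ Icc (0 : R3) 1 :=
  ⟨fun _ => Int.fract_nonneg _, fun _ => (Int.fract_lt_one _).le⟩

theorem per_frac {V : Type} {g : R3 → V} (hg : Per g) (s : R3) : g (frac s) = g s := by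
  have : s = frac s + fun i => ((⌊s i⌋ : ℤ) : ℝ) := by
    ext i
    exact (Int.fract_add_floor (s i)).symm
  conv_rhs => rw [this]
  rw [per_int hg]

theorem hom : S_HOM := by
  intro ι _ _ D hL hc
  let φ : Icc (0 : ℝ) 1 → ℂ := fun t => W (D t)
  have hloc : IsLocallyConstant φ := by
    rw [IsLocallyConstant.iff_exists_open]
    intro t0
    have hent : ∀ i j, Continuous (fun p : (Icc (0 : ℝ) 1) × R3 => D p.1 p.2 i j) := by
      intro i j
      have := (hc i j).comp_continuous (f := fun p : (Icc (0 : ℝ) 1) × R3 => ((p.1 : ℝ), p.2))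
        (by fun_prop) (fun p => ⟨p.1.2, mem_univ _⟩)
      exact this
    let F : (Icc (0 : ℝ) 1) × (ℝ × R3) → ℂ := fun p =>
      (D t0 p.2.2 + ((p.2.1 : ℝ) : ℂ) • (D p.1 p.2.2 - D t0 p.2.2)).det
    have hF : Continuous F := by
      refine Continuous.matrix_det ?_
      refine continuous_matrix fun i j => ?_
      have h1 : Continuous (fun p : (Icc (0 : ℝ) 1) × (ℝ × R3) => D t0 p.2.2 i j) :=
        (hent i j).comp (f := fun p : (Icc (0 : ℝ) 1) × (ℝ × R3) => (t0, p.2.2)) (by fun_prop)
      have h2 : Continuous (fun p : (Icc (0 : ℝ) 1) × (ℝ × R3) => D p.1 p.2.2 i j) :=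
        (hent i j).comp (f := fun p : (Icc (0 : ℝ) 1) × (ℝ × R3) => (p.1, p.2.2)) (by fun_prop)
      have h3 : Continuous (fun p : (Icc (0 : ℝ) 1) × (ℝ × R3) => ((p.2.1 : ℝ) : ℂ)) :=
        Complex.continuous_ofReal.comp (by fun_prop)
      exact h1.add (h3.mul (h2.sub h1))
    have hopen : IsOpen {p | F p ≠ 0} := isOpen_ne_fun hF continuous_const
    obtain ⟨u, v, hu, hv, h1, h2, h3⟩ := generalized_tube_lemma (s := {t0})
      (t := Icc (0 : ℝ) 1 ×ˢ Icc (0 : R3) 1) isCompact_singleton
      (isCompact_Icc.prod isCompact_Icc) hopen (by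
        rintro ⟨t, r, s⟩ ⟨ht, -⟩
        simp only [mem_singleton_iff] at ht
        subst ht
        simp only [F, mem_ofPred_eq, sub_self, smul_zero, add_zero]
        exact (hL t t.2).inv s)
    refine ⟨u, hu, h1 rfl, fun t ht => ?_⟩
    refine (W_segment (hL t0 t0.2) (hL t t.2) ?_).symm
    intro r hr s
    have h4 := h3 (Set.mk_mem_prod ht (h2 (Set.mk_mem_prod hr (frac_mem s))))
    simp only [F, mem_ofPred_eq] at h4
    rw [per_frac (hL t0 t0.2).per, per_frac (hL t t.2).per] at h4
    exact h4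
  have := hloc.apply_eq_of_preconnectedSpace (⟨0, left_mem_Icc.2 zero_le_one⟩ : Icc (0 : ℝ) 1)
    ⟨1, right_mem_Icc.2 zero_le_one⟩
  exact this

end Pool.Agent.W630.LT
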