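import Pool.Agent.W630.LT.EmbB
import Pool.Agent.W630.LT.Hom

/-!
# The family `A(s) ξ(θ)` and the Lagrangian torus
-/

open scoped ContDiff Matrix ComplexConjugate
open Set

namespace Pool.Agent.W630.LT

variable {α κ : Type} [Fintype α] [DecidableEq α] [Fintype κ] [DecidableEq κ]

/-- projection to three coordinates -/
def pj (α : Type) {κ : Type} (c : Fin 3 → κ) (x : α ⊕ κ → ℝ) : R3 := fun i => x (Sum.inr (c i))

/-- the family -/
noncomputable def zz (B : R3 → Matrix α α ℂ) (c : Fin 3 → κ) (x : α ⊕ κ → ℝ) : α → ℂ :=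
  (B (pj α c x)).mulVec fun m => ee (x (Sum.inl m))

theorem star_dot_eq {M : Matrix α α ℂ} {ρ : ℝ} (hM : Mᴴ * M = (ρ : ℂ) • 1) (u v : α → ℂ) :
    star (M.mulVec u) ⬝ᵥ M.mulVec v = ρ * (star u ⬝ᵥ v) := by
  rw [Matrix.star_mulVec, ← Matrix.dotProduct_mulVec, Matrix.mulVec_mulVec, hM,
    Matrix.smul_mulVec, Matrix.one_mulVec, dotProduct_smul, smul_eq_mul]

theorem lam_eq_dot (u v : α → ℂ) : lam u v = (1 / 2) * (star u ⬝ᵥ v).im := by
  unfold lam dotProduct
  rw [Complex.im_sum]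
  rfl

theorem lam_unitary {M : Matrix α α ℂ} {ρ : ℝ} (hM : Mᴴ * M = (ρ : ℂ) • 1) (u v : α → ℂ) :
    lam (M.mulVec u) (M.mulVec v) = ρ * lam u v := by
  rw [lam_eq_dot, lam_eq_dot, star_dot_eq hM, Complex.im_ofReal_mul]
  ring

/-- hypotheses on the matrix family -/
structure Uni (B : R3 → Matrix α α ℂ) (ρ : ℝ) : Prop where
  smooth : Sm B
  per : Per B
  pos : 0 < ρ
  uni : ∀ s, (B s)ᴴ * B s = (ρ : ℂ) • 1

theorem Uni.mulVec_inj {B : R3 → Matrix α α ℂ} {ρ : ℝ} (h : Uni B ρ) (s : R3) {u v : α → ℂ}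
    (he : (B s).mulVec u = (B s).mulVec v) : u = v := by
  have h1 := congrArg ((B s)ᴴ).mulVec he
  rw [Matrix.mulVec_mulVec, Matrix.mulVec_mulVec, h.uni, Matrix.smul_mulVec, Matrix.smul_mulVec,
    Matrix.one_mulVec, Matrix.one_mulVec] at h1
  have h2 : (ρ : ℂ) ≠ 0 := by exact_mod_cast h.pos.ne'
  ext i
  have h3 := congrFun h1 i
  simp only [Pi.smul_apply, smul_eq_mul] at h3
  exact mul_left_cancel₀ h2 h3

theorem contDiff_pj (c : Fin 3 → κ) : ContDiff ℝ ∞ (pj α c) := by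
  rw [contDiff_pi]
  intro i
  exact contDiff_apply ℝ ℝ (Sum.inr (c i))

theorem hasFDerivAt_pj (c : Fin 3 → κ) (x : α ⊕ κ → ℝ) :
    ∃ L : (α ⊕ κ → ℝ) →L[ℝ] R3, HasFDerivAt (pj α c) L x ∧ ∀ v, L v = pj α c v := by
  refine ⟨ContinuousLinearMap.pi fun i =>
    ContinuousLinearMap.proj (R := ℝ) (φ := fun _ : α ⊕ κ => ℝ) (Sum.inr (c i)), ?_, fun v => rfl⟩
  rw [hasFDerivAt_pi]
  intro i
  exact (ContinuousLinearMap.proj (R := ℝ) (φ := fun _ : α ⊕ κ => ℝ) (Sum.inr (c i))).hasFDerivAt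

theorem contDiff_zz {B : R3 → Matrix α α ℂ} (hB : Sm B) (c : Fin 3 → κ) :
    ContDiff ℝ ∞ (zz B c) := by
  rw [contDiff_pi]
  intro l
  unfold zz
  simp only [Matrix.mulVec, dotProduct]
  refine ContDiff.sum fun m _ => ?_
  exact ((hB l m).comp (contDiff_pj c)).mul (contDiff_ee.comp (contDiff_apply ℝ ℝ (Sum.inl m)))

theorem fderiv_zz {B : R3 → Matrix α α ℂ} (hB : Sm B) (c : Fin 3 → κ) (x v : α ⊕ κ → ℝ) :
    fderiv ℝ (zz B c) x v =
      (Matrix.of fun l m => fderiv ℝ (fun s => B s l m) (pj α c x) (pj α c v)).mulVec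
        (fun m => ee (x (Sum.inl m))) +
      (B (pj α c x)).mulVec fun m =>
        2 * Real.pi * Complex.I * v (Sum.inl m) * ee (x (Sum.inl m)) := by
  obtain ⟨L, hL, hLv⟩ := hasFDerivAt_pj (α := α) c x
  have h1 : HasFDerivAt (zz B c) (fderiv ℝ (zz B c) x) x :=
    ((contDiff_zz hB c).differentiable (by simp)).differentiableAt.hasFDerivAt
  ext l
  have h2 := (hasFDerivAt_pi'.1 h1) l
  have h3 : ∀ m, HasFDerivAt (fun y => B (pj α c y) l m)
      ((fderiv ℝ (fun s => B s l m) (pj α c x)).comp L) x := by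
    intro m
    have h4 : HasFDerivAt (fun s => B s l m) (fderiv ℝ (fun s => B s l m) (pj α c x)) (pj α c x) :=
      ((hB l m).differentiable (by simp)).differentiableAt.hasFDerivAt
    exact h4.comp x hL
  have h5 : ∀ m, HasFDerivAt (fun y : α ⊕ κ → ℝ => y (Sum.inl m))
      (ContinuousLinearMap.proj (R := ℝ) (φ := fun _ : α ⊕ κ => ℝ) (Sum.inl m)) x := fun m =>
    (ContinuousLinearMap.proj (R := ℝ) (φ := fun _ : α ⊕ κ => ℝ) (Sum.inl m)).hasFDerivAt
  have h6 := fun m => (hasDerivAt_ee (x (Sum.inl m))).hasFDerivAt.comp x (h5 m)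
  have h7 := HasFDerivAt.fun_sum (u := Finset.univ) fun m (_ : m ∈ Finset.univ) =>
    (h3 m).mul (h6 m)
  have h8 : HasFDerivAt (fun y => zz B c y l) _ x := h7
  have h9 := congrArg (fun T : (α ⊕ κ → ℝ) →L[ℝ] ℂ => T v) (h2.unique h8)
  have h11 : ((ContinuousLinearMap.proj (R := ℝ) (φ := fun _ : α => ℂ) l).comp
    (fderiv ℝ (zz B c) x)) v = fderiv ℝ (zz B c) x v l := rfl
  rw [← h11, h9]
  simp only [Pi.add_apply, Matrix.mulVec, dotProduct, Matrix.of_apply]
  rw [← Finset.sum_add_distrib, sum_apply]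
  refine Finset.sum_congr rfl fun m _ => ?_
  simp [hLv]
  ring

theorem zz_per {B : R3 → Matrix α α ℂ} (hB : Per B) (c : Fin 3 → κ) (x : α ⊕ κ → ℝ)
    (m : α ⊕ κ → ℤ) : zz B c (fun i => x i + m i) = zz B c x := by
  unfold zz
  have h1 : pj α c (fun i => x i + m i) = pj α c x + fun i => ((m (Sum.inr (c i)) : ℤ) : ℝ) := by
    ext i
    simp [pj]
  rw [h1, per_int hB (fun i => m (Sum.inr (c i)))]
  simp only [ee_add_int]

theorem fderiv_zz_per {B : R3 → Matrix α α ℂ} (hB : Per B) (c : Fin 3 → κ) (x : α ⊕ κ → ℝ)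
    (m : α ⊕ κ → ℤ) : fderiv ℝ (zz B c) (fun i => x i + m i) = fderiv ℝ (zz B c) x := by
  have h1 : (fun y => zz B c (y + fun i => (m i : ℝ))) = zz B c := by
    funext y
    exact zz_per hB c y m
  have h2 := fderiv_comp_add_right (𝕜 := ℝ) (f := zz B c) (x := x) (fun i => (m i : ℝ))
  rw [h1] at h2
  exact h2.symm

theorem qq_per {B : R3 → Matrix α α ℂ} (hB : Per B) (c : Fin 3 → κ) (j : κ) (x : α ⊕ κ → ℝ)
    (m : α ⊕ κ → ℤ) : qq (zz B c) j (fun i => x i + m i) = qq (zz B c) j x := by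
  unfold qq
  rw [zz_per hB, fderiv_zz_per hB]

theorem bounded_of_periodic {ι : Type} [Fintype ι] {f : (ι → ℝ) → ℝ} (hf : Continuous f)
    (hp : ∀ (x : ι → ℝ) (m : ι → ℤ), f (fun i => x i + m i) = f x) : ∃ C, ∀ x, f x < C := by
  obtain ⟨M, hM⟩ := (isCompact_Icc (a := (0 : ι → ℝ)) (b := 1)).bddAbove_image hf.continuousOn
  refine ⟨M + 1, fun x => ?_⟩
  have h1 : f x = f (fun i => Int.fract (x i)) := by
    rw [← hp (fun i => Int.fract (x i)) (fun i => ⌊x i⌋)]
    congr 1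
    funext i
    exact (Int.fract_add_floor (x i)).symm
  have h2 : f (fun i => Int.fract (x i)) ≤ M := by
    apply hM
    refine ⟨_, ⟨fun i => Int.fract_nonneg _, fun i => (Int.fract_lt_one _).le⟩, rfl⟩
  linarith

/-- a constant which is large enough -/
theorem exists_C {B : R3 → Matrix α α ℂ} (hB : Sm B) (hp : Per B) (c : Fin 3 → κ) :
    ∃ C : ℝ, 0 < C ∧ ∀ j x, 0 < C - qq (zz B c) j x / Real.pi := by
  have h1 : Continuous (fun x => ∑ j, |qq (zz B c) j x / Real.pi|) :=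
    continuous_finsetSum _ fun j _ =>
      (((contDiff_qq (contDiff_zz hB c) j).continuous).div_const _).abs
  obtain ⟨C, hC⟩ := bounded_of_periodic h1 (fun x m => by
    refine Finset.sum_congr rfl fun j _ => ?_
    rw [qq_per hp])
  refine ⟨C, ?_, fun j x => ?_⟩
  · exact lt_of_le_of_lt (Finset.sum_nonneg fun j _ => abs_nonneg _) (hC 0)
  · have h2 : |qq (zz B c) j x / Real.pi| ≤ ∑ j, |qq (zz B c) j x / Real.pi| :=
      Finset.single_le_sum (f := fun j => |qq (zz B c) j x / Real.pi|)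
        (fun j _ => abs_nonneg _) (Finset.mem_univ j)
    have h3 := hC x
    have h4 := le_abs_self (qq (zz B c) j x / Real.pi)
    linarith

theorem fam_zz {B : R3 → Matrix α α ℂ} {ρ : ℝ} (h : Uni B ρ) (c : Fin 3 → κ) {C : ℝ}
    (hC : ∀ j x, 0 < C - qq (zz B c) j x / Real.pi) : Fam (zz B c) C := by
  refine ⟨contDiff_zz h.smooth c, fun l => ⟨ρ * Real.pi, fun x => ?_⟩, hC, fun x a ha => ?_⟩
  · rw [fderiv_zz h.smooth]
    have h1 : pj α c (Pi.single (Sum.inl l) 1) = 0 := by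
      ext i
      simp [pj]
    rw [h1]
    have h2 : (Matrix.of fun l m => fderiv ℝ (fun s => B s l m) (pj α c x) (0 : R3)) = 0 := by
      ext i j
      simp
    rw [h2, Matrix.zero_mulVec, zero_add]
    unfold zz
    rw [lam_unitary (h.uni _)]
    congr 1
    unfold lam
    rw [Finset.sum_eq_single l]
    · have h3 : conj (ee (x (Sum.inl l))) * (2 * Real.pi * Complex.I *
          (((Pi.single (Sum.inl l) (1 : ℝ) : α ⊕ κ → ℝ) (Sum.inl l) : ℝ) : ℂ) *
            ee (x (Sum.inl l))) = ((2 * Real.pi : ℝ) : ℂ) * Complex.I := by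
        simp only [Pi.single_eq_same]
        push_cast
        linear_combination (2 * Real.pi * Complex.I) * ee_conj_mul (x (Sum.inl l))
      rw [h3]
      simp
    · intro b _ hb
      have : (Pi.single (Sum.inl l) (1 : ℝ) : α ⊕ κ → ℝ) (Sum.inl b) = 0 := by
        rw [Pi.single_apply, if_neg]
        simpa using hb
      beta_reduce
      rw [this]
      simp
    · intro hl
      exact absurd (Finset.mem_univ l) hl
  · rw [fderiv_zz h.smooth] at ha
    have h1 : pj α c (Sum.elim a 0) = 0 := by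
      ext i
      simp [pj]
    rw [h1] at ha
    have h2 : (Matrix.of fun l m => fderiv ℝ (fun s => B s l m) (pj α c x) (0 : R3)) = 0 := by
      ext i j
      simp
    rw [h2, Matrix.zero_mulVec, zero_add] at ha
    have h3 := h.mulVec_inj (pj α c x) (ha.trans (Matrix.mulVec_zero _).symm)
    ext m
    have h4 := congrFun h3 m
    simp only [Sum.elim_inl, Pi.zero_apply, mul_eq_zero] at h4
    rcases h4 with (h4 | h4) | h4
    · simp [Real.pi_ne_zero] at h4
    · exact_mod_cast h4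
    · exact absurd h4 (ee_ne _)

theorem norm_ee (t : ℝ) : ‖ee t‖ = 1 := by
  have h := ee_conj_mul t
  have h2 := congrArg norm h
  rw [norm_mul, RCLike.norm_conj, norm_one] at h2
  nlinarith [norm_nonneg (ee t)]

/-- the Lagrangian torus -/
theorem lagEmb_FS {B : R3 → Matrix α α ℂ} {ρ : ℝ} (h : Uni B ρ) (c : Fin 3 → κ) {C : ℝ}
    (hC : ∀ j x, 0 < C - qq (zz B c) j x / Real.pi) : LagEmb (FS (zz B c) C) := by
  have hF := fam_zz h c hC
  refine ⟨contDiff_FS hF, fun x y => ⟨fun hxy => ?_, ?_⟩, immersion_FS hF, omega_FS hF⟩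
  · have h1 : ∀ j, ∃ m : ℤ, y (Sum.inr j) = x (Sum.inr j) + m := by
      intro j
      have h2 : (rr (zz B c) C j x : ℂ) * ee (x (Sum.inr j)) =
        (rr (zz B c) C j y : ℂ) * ee (y (Sum.inr j)) := congrFun hxy (Sum.inr j)
      have h3 : rr (zz B c) C j x = rr (zz B c) C j y := by
        have h4 := congrArg norm h2
        rw [norm_mul, norm_mul, norm_ee, norm_ee, mul_one, mul_one, Complex.norm_real,
          Complex.norm_real, Real.norm_of_nonneg (rr_pos hF j x).le,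
          Real.norm_of_nonneg (rr_pos hF j y).le] at h4
        exact h4
      rw [h3] at h2
      have h5 : ee (x (Sum.inr j)) = ee (y (Sum.inr j)) := by
        apply mul_left_cancel₀ _ h2
        exact_mod_cast (rr_pos hF j y).ne'
      exact (ee_eq_iff _ _).1 h5
    choose m hm using h1
    have h2 : B (pj α c y) = B (pj α c x) := by
      have : pj α c y = pj α c x + fun i => ((m (c i) : ℤ) : ℝ) := by
        ext i
        simp [pj, hm]
      rw [this, per_int h.per (fun i => m (c i))]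
    have h3 : zz B c x = zz B c y := by
      ext l
      exact congrFun hxy (Sum.inl l)
    unfold zz at h3
    rw [h2] at h3
    have h4 := h.mulVec_inj _ h3
    have h5 : ∀ l, ∃ m : ℤ, y (Sum.inl l) = x (Sum.inl l) + m := fun l =>
      (ee_eq_iff _ _).1 (congrFun h4 l)
    choose k hk using h5
    refine ⟨Sum.elim k m, ?_⟩
    rintro (l | j)
    · exact hk l
    · exact hm j
  · rintro ⟨m, hm⟩
    have : y = fun i => x i + m i := funext hm
    rw [this]
    ext i
    rcases i with l | j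
    · exact (congrFun (zz_per h.per c x m) l).symm
    · change (rr (zz B c) C j x : ℂ) * ee (x (Sum.inr j)) = _
      change _ = (rr (zz B c) C j (fun i => x i + m i) : ℂ) * ee (x (Sum.inr j) + m (Sum.inr j))
      rw [ee_add_int]
      unfold rr
      rw [qq_per h.per]

end Pool.Agent.W630.LT
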