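import Pool.Agent.W630.LT.Alg

/-!
# Evenness of `W` on real loops: assembly
-/

open scoped ContDiff Matrix ComplexConjugate
open Set

namespace Pool.Agent.W630.LT

theorem LpR.blocks {ι κ : Type} [Fintype ι] [DecidableEq ι] [Fintype κ] [DecidableEq κ]
    {a : R3 → Matrix ι ι ℝ} (ha : LpR a) :
    LpR (fun s => Matrix.fromBlocks (a s) 0 0 (1 : Matrix κ κ ℝ)) := by
  refine ⟨?_, fun k s => ?_, fun s => ?_⟩
  · rintro (i | i) (j | j)
    · exact ha.smooth i j
    · exact contDiff_const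
    · exact contDiff_const
    · exact contDiff_const
  · simp only [ha.per k s]
  · rw [Matrix.det_fromBlocks_zero₂₁, Matrix.det_one, mul_one]
    exact ha.inv s

theorem LpR.submatrix {ι κ : Type} [Fintype ι] [DecidableEq ι] [Fintype κ] [DecidableEq κ]
    {a : R3 → Matrix ι ι ℝ} (ha : LpR a) (e : κ ≃ ι) : LpR (fun s => (a s).submatrix e e) := by
  refine ⟨fun i j => ha.smooth (e i) (e j), fun k s => ?_, fun s => ?_⟩
  · simp only [ha.per k s]
  · rw [Matrix.det_submatrix_equiv_self]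
    exact ha.inv s

theorem LpR.toC {ι : Type} [Fintype ι] [DecidableEq ι] {a : R3 → Matrix ι ι ℝ} (ha : LpR a) :
    Lp (toC a) := by
  refine ⟨fun i j => Complex.ofRealCLM.contDiff.comp (ha.smooth i j), fun k s => ?_, fun s => ?_⟩
  · unfold LT.toC
    rw [ha.per k s]
  · unfold LT.toC
    have : ((a s).map Complex.ofReal).det = (((a s).det : ℝ) : ℂ) :=
      (RingHom.map_det Complex.ofRealHom (a s)).symm
    rw [this]
    exact_mod_cast ha.inv s

/-- padding with the identity -/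
theorem pad {n m : ℕ} (R : R3 → Matrix (Fin n) (Fin n) ℝ) (hR : LpR R) :
    ∃ R' : R3 → Matrix (Fin (n + m)) (Fin (n + m)) ℝ, LpR R' ∧ W (toC R') = W (toC R) := by
  have h1 : LpR (fun s => Matrix.fromBlocks (R s) 0 0 (1 : Matrix (Fin m) (Fin m) ℝ)) := hR.blocks
  refine ⟨_, h1.submatrix finSumFinEquiv.symm, ?_⟩
  have h2 : toC (fun s => (Matrix.fromBlocks (R s) 0 0
      (1 : Matrix (Fin m) (Fin m) ℝ)).submatrix finSumFinEquiv.symm finSumFinEquiv.symm) =
      fun s => (Matrix.fromBlocks (toC R s) 0 0 (1 : Matrix (Fin m) (Fin m) ℂ)).submatrix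
        finSumFinEquiv.symm finSumFinEquiv.symm := by
    funext s
    unfold toC
    rw [← Matrix.submatrix_map, Matrix.fromBlocks_map]
    congr 2
    all_goals
      ext i j
      rcases eq_or_ne i j with rfl | h
      · simp
      · simp [Matrix.one_apply_ne h]
  rw [h2, idx]
  have h3 := blk (Fin n) (Fin m) (toC R) (fun _ => 0) (fun _ => 1) hR.toC (Lp.const (by simp))
    sm_zero (fun _ _ => rfl)
  rw [h3, W_const, add_zero]

theorem even (hI : S_INT) (hC : S_COL) (hQ : S_QUAT) (hG : S_GS) (hA : S_AD) : S_EVEN := by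
  obtain ⟨c, hc, hu, hk⟩ := hI
  refine ⟨c, hc, hu, ?_⟩
  have h4 : ∀ R : R3 → Matrix (Fin 4) (Fin 4) ℝ, LpR R → ∃ k : ℤ, W (toC R) = 2 * k * c := by
    intro R hR
    obtain ⟨u, R', hu', hR', hW⟩ := hQ R hR
    obtain ⟨O, hO, hO1, hO2, hW2⟩ := hG R' hR'
    obtain ⟨p, hp, hW3⟩ := hA O hO hO1 hO2
    obtain ⟨k1, hk1⟩ := hk u hu'
    obtain ⟨k2, hk2⟩ := hk p hp
    refine ⟨k1 + 2 * k2, ?_⟩
    rw [hW, hW2, hW3, hk1, hk2]
    push_cast
    ring
  have h5 : ∀ m : ℕ, ∀ R : R3 → Matrix (Fin (4 + m)) (Fin (4 + m)) ℝ, LpR R →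
      ∃ k : ℤ, W (toC R) = 2 * k * c := by
    intro m
    induction m with
    | zero => exact h4
    | succ m ih =>
      intro R hR
      obtain ⟨R', hR', hW⟩ := hC (4 + m) R (by omega) hR
      obtain ⟨k, hk⟩ := ih R' hR'
      exact ⟨k, by rw [hW, hk]⟩
  intro n R hR
  obtain ⟨R', hR', hW⟩ := pad (m := 4) R hR
  have h6 : n + 4 = 4 + n := add_comm _ _
  rw [← hW]
  clear hW hR
  revert R'
  rw [h6]
  intro R' hR'
  exact h5 n R' hR'

end Pool.Agent.W630.LT
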