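import Pool.Agent.W630.LT.MainD
import Pool.Agent.W366.LT.Col
import Pool.Agent.W366.LT.Quat
import Pool.Agent.W366.LT.Ad
import Pool.Agent.W308.LTGS
import Pool.Agent.W400.LT.Int
import Pool.Agent.W400.LT.CntE

/-!
# Assembly of the evenness statement
-/

namespace Pool.Agent.W630.LT

theorem s_even : S_EVEN :=
  even (W400.LT.int hom (W400.LT.cnt hom)) W366.LT.col W366.LT.quat W308.LTGS.gs W366.LT.ad

end Pool.Agent.W630.LT
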