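import Pool.Agent.W630.LT.Stubs

/-!
# Homotopy invariance of `W`, part A: Banach algebras
-/

open scoped ContDiff Matrix Topology
open Set MeasureTheory

namespace Pool.Agent.W630.LT

section alg

variable {A : Type*} [Ring A]

theorem alg_identity (τ : A →+ ℂ) (hτ : ∀ a b, τ (a * b) = τ (b * a))
    (Y0 Y1 Y2 Y3 S01 S02 S03 S12 S13 S23 : A) :
    τ ((-(Y0 * Y1) + S01) * (Y2 * Y3 - Y3 * Y2) + Y1 * (((-(Y0 * Y2) + S02) * Y3 -
        Y3 * (-(Y0 * Y2) + S02)) + (Y2 * (-(Y0 * Y3) + S03) - (-(Y0 * Y3) + S03) * Y2))) -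
    τ ((-(Y1 * Y0) + S01) * (Y2 * Y3 - Y3 * Y2) + Y0 * (((-(Y1 * Y2) + S12) * Y3 -
        Y3 * (-(Y1 * Y2) + S12)) + (Y2 * (-(Y1 * Y3) + S13) - (-(Y1 * Y3) + S13) * Y2))) +
    τ ((-(Y2 * Y0) + S02) * (Y1 * Y3 - Y3 * Y1) + Y0 * (((-(Y2 * Y1) + S12) * Y3 -
        Y3 * (-(Y2 * Y1) + S12)) + (Y1 * (-(Y2 * Y3) + S23) - (-(Y2 * Y3) + S23) * Y1))) -
    τ ((-(Y3 * Y0) + S03) * (Y1 * Y2 - Y2 * Y1) + Y0 * (((-(Y3 * Y1) + S13) * Y2 -
        Y2 * (-(Y3 * Y1) + S13)) + (Y1 * (-(Y3 * Y2) + S23) - (-(Y3 * Y2) + S23) * Y1))) = 0 := by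
  have r41 : ∀ a b c d : A, τ (a * (b * (c * d))) = τ (b * (c * (d * a))) := by
    intro a b c d; rw [hτ]; simp only [mul_assoc]
  have r42 : ∀ a b c d : A, τ (a * (b * (c * d))) = τ (c * (d * (a * b))) := by
    intro a b c d; rw [r41, r41]
  have r31 : ∀ a b c : A, τ (a * (b * c)) = τ (b * (c * a)) := by
    intro a b c; rw [hτ]; simp only [mul_assoc]
  have r32 : ∀ a b c : A, τ (a * (b * c)) = τ (c * (a * b)) := by
    intro a b c; rw [r31, r31]
  simp only [mul_sub, mul_add, add_mul, map_sub, map_add, neg_mul, mul_neg, map_neg,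
    mul_assoc]
  linear_combination (1) * r31 Y1 S02 Y3 + (-1) * r31 Y1 S03 Y2 + (1) * r32 Y1 Y2 S03 + (-1) * r42 Y1 Y2 Y0 Y3 + (-1) * r32 Y1 Y3 S02 + (1) * r42 Y1 Y3 Y0 Y2 + (-1) * r41 Y2 Y0 Y1 Y3 + (1) * r41 Y2 Y0 Y3 Y1 + (1) * r41 Y3 Y0 Y1 Y2 + (-1) * r41 Y3 Y0 Y2 Y1

end alg

section banach

variable {A : Type*} [NormedRing A] [NormedAlgebra ℝ A] [CompleteSpace A]
variable {E : Type*} [NormedAddCommGroup E] [NormedSpace ℝ E]

/-- `g⁻¹ ∂_v g` -/
noncomputable def YY (G : E → A) (v : E) (x : E) : A := Ring.inverse (G x) * fderiv ℝ G x v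

/-- `g⁻¹ ∂_w ∂_v g` -/
noncomputable def SS (G : E → A) (w v : E) (x : E) : A :=
  Ring.inverse (G x) * fderiv ℝ (fderiv ℝ G) x w v

omit [CompleteSpace A] in
theorem SS_symm (G : E → A) (hG : ContDiff ℝ ∞ G) (w v : E) (x : E) : SS G w v x = SS G v w x := by
  have h := (hG.contDiffAt (x := x)).isSymmSndFDerivAt
    (by rw [minSmoothness_of_isRCLikeNormedField]; exact WithTop.coe_le_coe.2 (le_top : (2 : ℕ∞) ≤ ⊤))
  unfold SS
  rw [h.eq w v]

theorem hasFDerivAt_YY (G : E → A) (hG : ContDiff ℝ ∞ G) (v : E) (x : E) (hx : IsUnit (G x)) :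
    ∃ L : E →L[ℝ] A, HasFDerivAt (YY G v) L x ∧
      ∀ w, L w = -(YY G w x * YY G v x) + SS G w v x := by
  obtain ⟨u, hu⟩ := hx
  have h1 : HasFDerivAt G (fderiv ℝ G x) x :=
    (hG.differentiable (by simp)).differentiableAt.hasFDerivAt
  have h2 : HasFDerivAt (fun y => Ring.inverse (G y))
      ((-ContinuousLinearMap.mulLeftRight ℝ A (↑u⁻¹) (↑u⁻¹)).comp (fderiv ℝ G x)) x := by
    have h3 := hasFDerivAt_ringInverse (𝕜 := ℝ) u
    rw [hu] at h3
    exact h3.comp x h1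
  have h4 : HasFDerivAt (fderiv ℝ G) (fderiv ℝ (fderiv ℝ G) x) x :=
    ((hG.fderiv_right (m := ∞) (by simp)).differentiable (by simp)).differentiableAt.hasFDerivAt
  have h5 : HasFDerivAt (fun y => fderiv ℝ G y v)
      ((ContinuousLinearMap.apply ℝ A v).comp (fderiv ℝ (fderiv ℝ G) x)) x :=
    (ContinuousLinearMap.apply ℝ A v).hasFDerivAt.comp x h4
  have h6 := h2.mul' h5
  refine ⟨_, h6, fun w => ?_⟩
  have hinv : Ring.inverse (G x) = ↑u⁻¹ := by rw [← hu, Ring.inverse_unit]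
  simp only [YY, SS, hinv, add_apply, smul_apply,
    ContinuousLinearMap.comp_apply, neg_apply,
    ContinuousLinearMap.mulLeftRight_apply, ContinuousLinearMap.apply_apply, smul_eq_mul,
    MulOpposite.smul_eq_mul_unop, MulOpposite.unop_op]
  noncomm_ring

/-- the component of the `3`-form -/
noncomputable def FF (τ : A →L[ℝ] ℂ) (G : E → A) (a b c : E) (x : E) : ℂ :=
  τ (YY G a x * (YY G b x * YY G c x - YY G c x * YY G b x))

theorem hasFDerivAt_FF (τ : A →L[ℝ] ℂ) (G : E → A) (hG : ContDiff ℝ ∞ G) (a b c : E) (x : E)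
    (hx : IsUnit (G x)) :
    HasFDerivAt (FF τ G a b c) (fderiv ℝ (FF τ G a b c) x) x ∧
      ∀ w, fderiv ℝ (FF τ G a b c) x w =
        τ ((-(YY G w x * YY G a x) + SS G w a x) * (YY G b x * YY G c x - YY G c x * YY G b x) +
          YY G a x * (((-(YY G w x * YY G b x) + SS G w b x) * YY G c x -
            YY G c x * (-(YY G w x * YY G b x) + SS G w b x)) +
            (YY G b x * (-(YY G w x * YY G c x) + SS G w c x) -
              (-(YY G w x * YY G c x) + SS G w c x) * YY G b x))) := by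
  obtain ⟨La, ha, ha'⟩ := hasFDerivAt_YY G hG a x hx
  obtain ⟨Lb, hb, hb'⟩ := hasFDerivAt_YY G hG b x hx
  obtain ⟨Lc, hc, hc'⟩ := hasFDerivAt_YY G hG c x hx
  have h1 := (ha.mul' ((hb.mul' hc).sub (hc.mul' hb)))
  have h2 := τ.hasFDerivAt.comp x h1
  have h3 : HasFDerivAt (FF τ G a b c) _ x := h2
  refine ⟨h3.differentiableAt.hasFDerivAt, fun w => ?_⟩
  rw [h3.fderiv]
  simp only [ContinuousLinearMap.comp_apply, add_apply,
    sub_apply, smul_apply, ha', hb', hc', smul_eq_mul,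
    MulOpposite.smul_eq_mul_unop, MulOpposite.unop_op, Pi.mul_apply, Pi.sub_apply]
  congr 1
  noncomm_ring

theorem closed_identity (τ : A →L[ℝ] ℂ) (hτ : ∀ a b, τ (a * b) = τ (b * a)) (G : E → A)
    (hG : ContDiff ℝ ∞ G) (e0 e1 e2 e3 : E) (x : E) (hx : IsUnit (G x)) :
    fderiv ℝ (FF τ G e1 e2 e3) x e0 - fderiv ℝ (FF τ G e0 e2 e3) x e1 +
      fderiv ℝ (FF τ G e0 e1 e3) x e2 - fderiv ℝ (FF τ G e0 e1 e2) x e3 = 0 := by
  rw [(hasFDerivAt_FF τ G hG e1 e2 e3 x hx).2, (hasFDerivAt_FF τ G hG e0 e2 e3 x hx).2,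
    (hasFDerivAt_FF τ G hG e0 e1 e3 x hx).2, (hasFDerivAt_FF τ G hG e0 e1 e2 x hx).2,
    SS_symm G hG e1 e0, SS_symm G hG e2 e0, SS_symm G hG e3 e0, SS_symm G hG e2 e1,
    SS_symm G hG e3 e1, SS_symm G hG e3 e2]
  exact alg_identity (τ : A →+ ℂ) hτ _ _ _ _ _ _ _ _ _ _

/-- the divergence theorem for the closed `3`-form along a smooth homotopy -/
theorem hom_smooth (τ : A →L[ℝ] ℂ) (hτ : ∀ a b, τ (a * b) = τ (b * a))
    (G : (Fin 4 → ℝ) → A) (hG : ContDiff ℝ ∞ G) (hU : ∀ x ∈ Icc (0 : Fin 4 → ℝ) 1, IsUnit (G x))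
    (hper : ∀ (k : Fin 3) (x : Fin 4 → ℝ), G (x + Pi.single k.succ 1) = G x) :
    ∫ s in Icc (0 : R3) 1, FF τ G (Pi.single 1 1) (Pi.single 2 1) (Pi.single 3 1)
      (Fin.cons 0 s) =
    ∫ s in Icc (0 : R3) 1, FF τ G (Pi.single 1 1) (Pi.single 2 1) (Pi.single 3 1)
      (Fin.cons 1 s) := by
  set e : Fin 4 → (Fin 4 → ℝ) := fun i => Pi.single i 1 with he
  let f : Fin 4 → (Fin 4 → ℝ) → ℂ := fun i => match i with
    | 0 => FF τ G (e 1) (e 2) (e 3)
    | 1 => fun x => -FF τ G (e 0) (e 2) (e 3) x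
    | 2 => FF τ G (e 0) (e 1) (e 3)
    | 3 => fun x => -FF τ G (e 0) (e 1) (e 2) x
  have hd : ∀ i, ∀ x ∈ Icc (0 : Fin 4 → ℝ) 1, HasFDerivAt (f i) (fderiv ℝ (f i) x) x := by
    intro i x hx
    fin_cases i
    · exact (hasFDerivAt_FF τ G hG _ _ _ x (hU x hx)).1
    · exact (hasFDerivAt_FF τ G hG _ _ _ x (hU x hx)).1.neg.differentiableAt.hasFDerivAt
    · exact (hasFDerivAt_FF τ G hG _ _ _ x (hU x hx)).1
    · exact (hasFDerivAt_FF τ G hG _ _ _ x (hU x hx)).1.neg.differentiableAt.hasFDerivAt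
  have hzero : ∀ x ∈ Icc (0 : Fin 4 → ℝ) 1, ∑ i, fderiv ℝ (f i) x (e i) = 0 := by
    intro x hx
    have h := closed_identity τ hτ G hG (e 0) (e 1) (e 2) (e 3) x (hU x hx)
    rw [Fin.sum_univ_four]
    have h1 : fderiv ℝ (f 1) x = -fderiv ℝ (FF τ G (e 0) (e 2) (e 3)) x := fderiv_fun_neg
    have h3 : fderiv ℝ (f 3) x = -fderiv ℝ (FF τ G (e 0) (e 1) (e 2)) x := fderiv_fun_neg
    rw [h1, h3]
    have h0 : fderiv ℝ (f 0) x = fderiv ℝ (FF τ G (e 1) (e 2) (e 3)) x := rfl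
    have h2 : fderiv ℝ (f 2) x = fderiv ℝ (FF τ G (e 0) (e 1) (e 3)) x := rfl
    rw [h0, h2, neg_apply, neg_apply]
    linear_combination h
  have key := integral_divergence_of_hasFDerivAt_off_countable' (0 : Fin 4 → ℝ) 1
    (fun i => zero_le_one) f (fun i x => fderiv ℝ (f i) x) ∅ Set.countable_empty
    (fun i x hx => (hd i x hx).continuousAt.continuousWithinAt)
    (fun x hx i => hd i x (by
      have := hx.1
      rw [Set.mem_univ_pi] at this
      exact ⟨fun j => (this j).1.le, fun j => (this j).2.le⟩))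
    (by
      refine (integrableOn_zero (s := Icc (0 : Fin 4 → ℝ) 1)).congr_fun ?_ measurableSet_Icc
      intro x hx
      exact (hzero x hx).symm)
  rw [setIntegral_congr_fun measurableSet_Icc (fun x hx => hzero x hx)] at key
  rw [Fin.sum_univ_succ] at key
  have hperF : ∀ (k : Fin 3) (x : Fin 4 → ℝ) (i : Fin 4), f i (x + Pi.single k.succ 1) = f i x := by
    intro k x i
    have hY : ∀ v, YY G v (x + Pi.single k.succ 1) = YY G v x := by
      intro v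
      unfold YY
      rw [hper k x]
      congr 2
      have : fderiv ℝ (fun y => G (y + Pi.single k.succ 1)) x = fderiv ℝ G (x + Pi.single k.succ 1) := by
        rw [fderiv_comp_add_right]
      rw [← this]
      congr 1
      funext y
      exact hper k y
    have hF : ∀ a b c, FF τ G a b c (x + Pi.single k.succ 1) = FF τ G a b c x := by
      intro a b c
      unfold FF
      rw [hY, hY, hY]
    fin_cases i
    · exact hF _ _ _
    · exact congrArg Neg.neg (hF _ _ _)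
    · exact hF _ _ _
    · exact congrArg Neg.neg (hF _ _ _)
  have hrest : ∀ k : Fin 3, ((∫ x in Icc ((0 : Fin 4 → ℝ) ∘ k.succ.succAbove)
      ((1 : Fin 4 → ℝ) ∘ k.succ.succAbove), f k.succ (k.succ.insertNth ((1 : Fin 4 → ℝ) k.succ) x)) -
      ∫ x in Icc ((0 : Fin 4 → ℝ) ∘ k.succ.succAbove) ((1 : Fin 4 → ℝ) ∘ k.succ.succAbove),
        f k.succ (k.succ.insertNth ((0 : Fin 4 → ℝ) k.succ) x)) = 0 := by
    intro k
    rw [sub_eq_zero]
    congr 1
    funext x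
    rw [← hperF k (k.succ.insertNth ((0 : Fin 4 → ℝ) k.succ) x)]
    congr 1
    ext j
    rcases eq_or_ne j k.succ with rfl | hj
    · simp
    · obtain ⟨j', rfl⟩ := Fin.exists_succAbove_eq hj
      simp [Fin.succAbove_ne]
  rw [Finset.sum_eq_zero (fun k _ => hrest k), add_zero] at key
  simp only [integral_zero] at key
  have key2 := (sub_eq_zero.1 key.symm)
  have e0 : ((0 : Fin 4 → ℝ) ∘ Fin.succAbove 0) = (0 : Fin 3 → ℝ) := rfl
  have e1 : ((1 : Fin 4 → ℝ) ∘ Fin.succAbove 0) = (1 : Fin 3 → ℝ) := rfl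
  rw [e0, e1] at key2
  simp only [Fin.insertNth_zero'] at key2
  exact key2.symm

theorem hasFDerivAt_cons (t : ℝ) (s : R3) :
    HasFDerivAt (fun s : R3 => (Fin.cons t s : Fin 4 → ℝ))
      (ContinuousLinearMap.pi fun i : Fin 4 => (Fin.cases (motive := fun _ => R3 →L[ℝ] ℝ) 0
        (fun k => ContinuousLinearMap.proj (R := ℝ) (φ := fun _ : Fin 3 => ℝ) k) i)) s := by
  rw [hasFDerivAt_pi]
  intro i
  refine Fin.cases ?_ (fun k => ?_) i
  · simpa using hasFDerivAt_const t s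
  · exact (ContinuousLinearMap.proj (R := ℝ) (φ := fun _ : Fin 3 => ℝ) k).hasFDerivAt (x := s)

omit [CompleteSpace A] in
theorem YY_cons (G : (Fin 4 → ℝ) → A) (hG : ContDiff ℝ ∞ G) (t : ℝ) (g : R3 → A)
    (hgG : ∀ s, G (Fin.cons t s) = g s) (k : Fin 3) (s : R3) :
    YY G (Pi.single k.succ 1) (Fin.cons t s) =
      Ring.inverse (g s) * fderiv ℝ g s (Pi.single k 1) := by
  have h1 : HasFDerivAt G (fderiv ℝ G (Fin.cons t s)) (Fin.cons t s) :=
    (hG.differentiable (by simp)).differentiableAt.hasFDerivAt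
  have h2 := h1.comp s (hasFDerivAt_cons t s)
  have h3 : (G ∘ fun s : R3 => (Fin.cons t s : Fin 4 → ℝ)) = g := by
    funext s'; exact hgG s'
  rw [h3] at h2
  have h4 : fderiv ℝ g s (Pi.single k 1) = fderiv ℝ G (Fin.cons t s) (Pi.single k.succ 1) := by
    rw [h2.fderiv, ContinuousLinearMap.comp_apply]
    congr 1
    ext i
    refine Fin.cases ?_ (fun l => ?_) i
    · simp [Pi.single_apply, (Fin.succ_ne_zero k).symm]
    · simp [Pi.single_apply]
  unfold YY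
  rw [← h4, hgG s]

end banach

end Pool.Agent.W630.LT
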