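import Pool.Agent.W630.LT.HomA

/-!
# Homotopy invariance of `W`, part B: matrices
-/

open scoped ContDiff Matrix Topology
open Set MeasureTheory

namespace Pool.Agent.W630.LT

attribute [local instance] Matrix.linftyOpNormedRing Matrix.linftyOpNormedAlgebra

section mat

variable {ι : Type} [Fintype ι] [DecidableEq ι]
variable {E : Type*} [NormedAddCommGroup E] [NormedSpace ℝ E]

/-- the entry as a continuous linear map -/
noncomputable def ent (i j : ι) : Matrix ι ι ℂ →L[ℝ] ℂ :=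
  LinearMap.toContinuousLinearMap
    { toFun := fun M => M i j, map_add' := fun _ _ => rfl, map_smul' := fun _ _ => rfl }

theorem ent_apply (i j : ι) (M : Matrix ι ι ℂ) : ent i j M = M i j := rfl

/-- the trace as a continuous linear map -/
noncomputable def trc : Matrix ι ι ℂ →L[ℝ] ℂ :=
  LinearMap.toContinuousLinearMap (Matrix.traceLinearMap ι ℝ ℂ)

theorem trc_apply (M : Matrix ι ι ℂ) : trc M = M.trace := rfl

theorem contDiff_of_entries {g : E → Matrix ι ι ℂ}
    (h : ∀ i j, ContDiff ℝ ∞ (fun x => g x i j)) : ContDiff ℝ ∞ g := by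
  have : g = fun x => ∑ i, ∑ j, (g x i j) • (Matrix.single i j (1 : ℂ)) := by
    funext x
    conv_lhs => rw [Matrix.matrix_eq_sum_single (g x)]
    refine Finset.sum_congr rfl fun i _ => Finset.sum_congr rfl fun j _ => ?_
    rw [Matrix.smul_single, smul_eq_mul, mul_one]
  rw [this]
  refine ContDiff.sum fun i _ => ContDiff.sum fun j _ => ?_
  exact (h i j).smul contDiff_const

theorem fderiv_entry {g : E → Matrix ι ι ℂ} (hg : ContDiff ℝ ∞ g) (x v : E) (i j : ι) :
    (fderiv ℝ g x v) i j = fderiv ℝ (fun y => g y i j) x v := by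
  have h1 : HasFDerivAt g (fderiv ℝ g x) x :=
    (hg.differentiable (by simp)).differentiableAt.hasFDerivAt
  have h2 := (ent i j).hasFDerivAt.comp x h1
  have h3 : HasFDerivAt (fun y => g y i j) ((ent i j).comp (fderiv ℝ g x)) x := h2
  rw [h3.fderiv]
  rfl

theorem fderiv_eq_dM {g : R3 → Matrix ι ι ℂ} (hg : Sm g) (k : Fin 3) (s : R3) :
    fderiv ℝ g s (Pi.single k 1) = dM g k s := by
  ext i j
  rw [fderiv_entry (contDiff_of_entries hg)]
  rfl

theorem W_eq_FF (G : (Fin 4 → ℝ) → Matrix ι ι ℂ) (hG : ContDiff ℝ ∞ G) (t : ℝ)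
    (g : R3 → Matrix ι ι ℂ) (hg : Sm g) (hgG : ∀ s, G (Fin.cons t s) = g s) :
    W g = ∫ s in Icc (0 : R3) 1, FF trc G (Pi.single 1 1) (Pi.single 2 1) (Pi.single 3 1)
      (Fin.cons t s) := by
  unfold W
  congr 1
  funext s
  have hYY : ∀ k : Fin 3, YY G (Pi.single k.succ 1) (Fin.cons t s) = al g k s := by
    intro k
    have h := YY_cons G hG t g hgG k s
    unfold al
    rw [Matrix.nonsing_inv_eq_ringInverse]
    exact h.trans (congrArg (fun z : Matrix ι ι ℂ => Ring.inverse (g s) * z) (fderiv_eq_dM hg k s))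
  have h1 := hYY 0
  have h2 := hYY 1
  have h3 := hYY 2
  simp only [Fin.succ_zero_eq_one, Fin.succ_one_eq_two] at h1 h2
  have e3 : (Fin.succ 2 : Fin 4) = 3 := rfl
  rw [e3] at h3
  unfold FF w
  rw [h1, h2, h3]
  rfl

theorem trc_comm (a b : Matrix ι ι ℂ) : trc (a * b) = trc (b * a) := by
  rw [trc_apply, trc_apply, Matrix.trace_mul_comm]

/-- segments of invertible matrices -/
theorem W_segment {g h : R3 → Matrix ι ι ℂ} (hg : Lp g) (hh : Lp h)
    (hd : ∀ t ∈ Icc (0 : ℝ) 1, ∀ s, (g s + (t : ℂ) • (h s - g s)).det ≠ 0) : W g = W h := by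
  let G : (Fin 4 → ℝ) → Matrix ι ι ℂ := fun x =>
    g (Fin.tail x) + ((x 0 : ℝ) : ℂ) • (h (Fin.tail x) - g (Fin.tail x))
  have htail : ContDiff ℝ ∞ (fun x : Fin 4 → ℝ => (Fin.tail x : R3)) := by
    rw [contDiff_pi]
    intro i
    exact contDiff_apply ℝ ℝ i.succ
  have hG : ContDiff ℝ ∞ G := by
    refine contDiff_of_entries fun i j => ?_
    have h1 : ContDiff ℝ ∞ (fun x : Fin 4 → ℝ => g (Fin.tail x) i j) := (hg.smooth i j).comp htail
    have h2 : ContDiff ℝ ∞ (fun x : Fin 4 → ℝ => h (Fin.tail x) i j) := (hh.smooth i j).comp htail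
    have h3 : ContDiff ℝ ∞ (fun x : Fin 4 → ℝ => ((x 0 : ℝ) : ℂ)) :=
      Complex.ofRealCLM.contDiff.comp (contDiff_apply ℝ ℝ 0)
    exact h1.add (h3.mul (h2.sub h1))
  have hU : ∀ x ∈ Icc (0 : Fin 4 → ℝ) 1, IsUnit (G x) := by
    intro x hx
    rw [Matrix.isUnit_iff_isUnit_det, isUnit_iff_ne_zero]
    exact hd (x 0) ⟨hx.1 0, hx.2 0⟩ _
  have hper : ∀ (k : Fin 3) (x : Fin 4 → ℝ), G (x + Pi.single k.succ 1) = G x := by
    intro k x
    have e1 : Fin.tail (x + Pi.single k.succ 1) = Fin.tail x + Pi.single k 1 := by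
      ext i
      simp [Fin.tail, Pi.single_apply]
    have e2 : (x + Pi.single k.succ 1 : Fin 4 → ℝ) 0 = x 0 := by
      simp [Pi.single_apply, (Fin.succ_ne_zero k).symm]
    simp only [G]
    rw [e1, e2, hg.per, hh.per]
  have key := hom_smooth trc trc_comm G hG hU hper
  rw [W_eq_FF G hG 0 g hg.smooth, W_eq_FF G hG 1 h hh.smooth, key]
  · intro s
    simp [G]
  · intro s
    simp [G]

end mat

end Pool.Agent.W630.LT
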