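import Pool.Agent.W630.LT.Alg
import Pool.Agent.W630.LT.EmbA
import Pool.Agent.W368.LT.Lift

/-!
# The invariant along a Lagrangian isotopy starting at the Clifford torus
-/

open scoped ContDiff Matrix ComplexConjugate
open Set

namespace Pool.Agent.W630.LT

variable {ι : Type} [Fintype ι] [DecidableEq ι]

omit [DecidableEq ι] in
theorem LagEmb.emb {f : (ι → ℝ) → (ι → ℂ)} (h : LagEmb f) : Emb f :=
  ⟨h.smooth, h.eq_iff, h.immersion⟩

omit [DecidableEq ι] in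
theorem LagEmb.per {f : (ι → ℝ) → (ι → ℂ)} (h : LagEmb f) (x : ι → ℝ) (m : ι → ℤ) :
    f (fun i => x i + m i) = f x := ((h.eq_iff x _).2 ⟨m, fun _ => rfl⟩).symm

omit [DecidableEq ι] in
theorem LagEmb.fderiv_per {f : (ι → ℝ) → (ι → ℂ)} (h : LagEmb f) (x : ι → ℝ) (m : ι → ℤ) :
    fderiv ℝ f (fun i => x i + m i) = fderiv ℝ f x := by
  have h1 : (fun y => f (y + fun i => (m i : ℝ))) = f := by
    funext y
    exact h.per y m
  have h2 := fderiv_comp_add_right (𝕜 := ℝ) (f := f) (x := x) (fun i => (m i : ℝ))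
  rw [h1] at h2
  exact h2.symm

omit [DecidableEq ι] in
theorem LagEmb.fderiv_congr {f : (ι → ℝ) → (ι → ℂ)} (h : LagEmb f) {x y : ι → ℝ}
    (hxy : ∃ m : ι → ℤ, ∀ i, y i = x i + m i) : fderiv ℝ f y = fderiv ℝ f x := by
  obtain ⟨m, hm⟩ := hxy
  have : y = fun i => x i + m i := funext hm
  rw [this, h.fderiv_per]

/-- the loop of the differential of a Lagrangian embedding along a map `ρ : T³ → Tⁿ` -/
theorem lp_mat {f : (ι → ℝ) → (ι → ℂ)} (h : LagEmb f) {ρ : R3 → ι → ℝ} (hρ : ContDiff ℝ ∞ ρ)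
    (hp : ∀ (k : Fin 3) (s : R3), ∃ m : ι → ℤ, ∀ i, ρ (s + Pi.single k 1) i = ρ s i + m i) :
    Lp (fun s => mat (fderiv ℝ f (ρ s))) := by
  refine ⟨fun i j => ?_, fun k s => ?_, fun s => ?_⟩
  · have h1 : ContDiff ℝ ∞ (fun x => fderiv ℝ f x (Pi.single j 1)) :=
      (h.smooth.fderiv_right (m := ∞) (by simp)).clm_apply contDiff_const
    exact ((contDiff_pi.1 h1) i).comp hρ
  · beta_reduce
    rw [h.fderiv_congr (hp k s)]
  · exact mat_det_ne_zero _ (h.immersion _) (h.lagrangian _)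

/-- slices of a smooth family on `[0,1] × ℝⁿ` -/
theorem continuousOn_family {f : ℝ → (ι → ℝ) → (ι → ℂ)}
    (hf : ContDiffOn ℝ ∞ (fun p : ℝ × (ι → ℝ) => f p.1 p.2) (Icc 0 1 ×ˢ univ)) (v : ι → ℝ) (i : ι) :
    ContinuousOn (fun p : ℝ × (ι → ℝ) => fderiv ℝ (f p.1) p.2 v i) (Icc 0 1 ×ˢ univ) := by
  have hU : UniqueDiffOn ℝ (Icc (0 : ℝ) 1 ×ˢ (univ : Set (ι → ℝ))) :=
    (uniqueDiffOn_Icc zero_lt_one).prod uniqueDiffOn_univ
  have h1 := hf.continuousOn_fderivWithin hU (by simp)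
  have h2 : ContinuousOn (fun p : ℝ × (ι → ℝ) =>
      fderivWithin ℝ (fun p : ℝ × (ι → ℝ) => f p.1 p.2) (Icc 0 1 ×ˢ univ) p (0, v) i)
      (Icc 0 1 ×ˢ univ) := by
    have h3 := h1.clm_apply (continuousOn_const (c := ((0 : ℝ), v)))
    exact (continuous_apply i).comp_continuousOn h3
  refine h2.congr ?_
  rintro ⟨t, x⟩ ⟨ht, -⟩
  have h4 : HasFDerivWithinAt (fun p : ℝ × (ι → ℝ) => f p.1 p.2)
      (fderivWithin ℝ (fun p : ℝ × (ι → ℝ) => f p.1 p.2) (Icc 0 1 ×ˢ univ) (t, x))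
      (Icc 0 1 ×ˢ univ) (t, x) :=
    ((hf.differentiableOn (by simp)) (t, x) ⟨ht, mem_univ _⟩).hasFDerivWithinAt
  have h5 : HasFDerivWithinAt (fun y : ι → ℝ => ((t, y) : ℝ × (ι → ℝ)))
      (ContinuousLinearMap.inr ℝ ℝ (ι → ℝ)) univ x :=
    (hasFDerivAt_prodMk_right t x).hasFDerivWithinAt
  have h6 := HasFDerivWithinAt.comp x h4 h5 (fun y _ => ⟨ht, mem_univ _⟩)
  have h7 := (hasFDerivWithinAt_univ.1 h6).fderiv
  change fderiv ℝ (f t) x v i = _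
  have h8 : fderiv ℝ (f t) x = _ := h7
  rw [h8]
  rfl

end Pool.Agent.W630.LT
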