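import Pool.Agent.W630.LT.MainA
import Pool.Agent.W630.LT.Even

/-!
# The invariant of a torus which is Lagrangian isotopic to the Clifford torus
-/

open scoped ContDiff Matrix ComplexConjugate
open Set

namespace Pool.Agent.W630.LT

variable {ι : Type} [Fintype ι] [DecidableEq ι]

/-- real Jacobian matrix -/
noncomputable def rmat (T : (ι → ℝ) →L[ℝ] (ι → ℝ)) : Matrix ι ι ℝ :=
  Matrix.of fun i j => T (Pi.single j 1) i

theorem mat_comp (T : (ι → ℝ) →L[ℝ] (ι → ℂ)) (P : (ι → ℝ) →L[ℝ] (ι → ℝ)) :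
    mat (T.comp P) = mat T * (rmat P).map Complex.ofReal := by
  ext i j
  have h := congrFun (mat_mulVec_ofReal T (P (Pi.single j 1))) i
  rw [Matrix.mul_apply]
  simp only [mat, rmat, Matrix.of_apply, Matrix.map_apply, ContinuousLinearMap.comp_apply]
  rw [← h]
  rfl

/-- real matrix loops with invertible complexification -/
theorem lpR_of_lp {R : R3 → Matrix ι ι ℝ} (hs : ∀ i j, ContDiff ℝ ∞ (fun s => R s i j))
    (hp : Per (toC R)) (hd : ∀ s, (toC R s).det ≠ 0) : LpR R := by
  refine ⟨hs, fun k s => ?_, fun s hs0 => hd s ?_⟩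
  · have h := hp k s
    ext i j
    have h2 : toC R (s + Pi.single k 1) i j = toC R s i j := by rw [h]
    simp only [toC, Matrix.map_apply] at h2
    exact_mod_cast h2
  · unfold toC
    have : ((R s).map Complex.ofReal).det = (((R s).det : ℝ) : ℂ) :=
      (RingHom.map_det Complex.ofRealHom (R s)).symm
    rw [this, hs0, Complex.ofReal_zero]

/-- the change of the parametrization -/
theorem W_repar {c : ℂ} (hev : ∀ R : R3 → Matrix ι ι ℝ, LpR R → ∃ k : ℤ, W (toC R) = 2 * k * c)
    {f F : (ι → ℝ) → (ι → ℂ)} (hf : LagEmb f) (hF : LagEmb F) {ψ : (ι → ℝ) → (ι → ℝ)}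
    (hψ : ContDiff ℝ ∞ ψ) (he : ∀ x, f (ψ x) = F x) {ρ : R3 → ι → ℝ} (hρ : ContDiff ℝ ∞ ρ)
    (hp : ∀ (k : Fin 3) (s : R3), ∃ m : ι → ℤ, ∀ i, ρ (s + Pi.single k 1) i = ρ s i + m i) :
    ∃ k : ℤ, W (fun s => mat (fderiv ℝ F (ρ s))) =
      W (fun s => mat (fderiv ℝ f (ψ (ρ s)))) + 2 * k * c := by
  have hp2 : ∀ (k : Fin 3) (s : R3), ∃ m : ι → ℤ, ∀ i,
      ψ (ρ (s + Pi.single k 1)) i = ψ (ρ s) i + m i := by
    intro k s
    rw [← hf.eq_iff, he, he, hF.eq_iff]
    exact hp k s
  have h1 := lp_mat hF hρ hp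
  have h2 := lp_mat hf (ρ := fun s => ψ (ρ s)) (hψ.comp hρ) hp2
  have h3 : ∀ x, fderiv ℝ F x = (fderiv ℝ f (ψ x)).comp (fderiv ℝ ψ x) := by
    intro x
    have h4 : HasFDerivAt ψ (fderiv ℝ ψ x) x :=
      (hψ.differentiable (by simp)).differentiableAt.hasFDerivAt
    have h5 : HasFDerivAt f (fderiv ℝ f (ψ x)) (ψ x) :=
      (hf.smooth.differentiable (by simp)).differentiableAt.hasFDerivAt
    have h6 := (h5.comp x h4).fderiv
    have h7 : f ∘ ψ = F := funext he
    rw [h7] at h6
    exact h6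
  have h4 : ∀ s, mat (fderiv ℝ F (ρ s)) =
      mat (fderiv ℝ f (ψ (ρ s))) * toC (fun s => rmat (fderiv ℝ ψ (ρ s))) s := by
    intro s
    rw [h3, mat_comp]
    rfl
  have h5 : LpR (fun s => rmat (fderiv ℝ ψ (ρ s))) := by
    refine lpR_of_lp (fun i j => ?_) (fun k s => ?_) (fun s h0 => ?_)
    · have h1 : ContDiff ℝ ∞ (fun x => fderiv ℝ ψ x (Pi.single j 1)) :=
        (hψ.fderiv_right (m := ∞) (by simp)).clm_apply contDiff_const
      exact ((contDiff_pi.1 h1) i).comp hρ
    · have e1 := h4 s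
      have e2 := h4 (s + Pi.single k 1)
      have e3 := h1.per k s
      have e4 := h2.per k s
      beta_reduce at e3 e4
      rw [e3, e4, e1] at e2
      have hu : IsUnit (mat (fderiv ℝ f (ψ (ρ s)))).det := isUnit_iff_ne_zero.2 (h2.inv s)
      have e5 := congrArg (fun M => (mat (fderiv ℝ f (ψ (ρ s))))⁻¹ * M) e2
      beta_reduce at e5
      rw [Matrix.nonsing_inv_mul_cancel_left _ _ hu, Matrix.nonsing_inv_mul_cancel_left _ _ hu] at e5
      exact e5.symm
    · apply h1.inv s
      beta_reduce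
      rw [h4 s, Matrix.det_mul, h0, mul_zero]
  obtain ⟨k, hk⟩ := hev _ h5
  refine ⟨k, ?_⟩
  have h6 : (fun s => mat (fderiv ℝ F (ρ s))) = fun s => mat (fderiv ℝ f (ψ (ρ s))) *
      toC (fun s => rmat (fderiv ℝ ψ (ρ s))) s := funext h4
  rw [h6, mul ι _ _ h2 h5.toC, hk]

/-- the invariant of a parametrization of the Clifford torus -/
theorem W_clifford {c : ℂ} (hev : ∀ R : R3 → Matrix ι ι ℝ, LpR R → ∃ k : ℤ, W (toC R) = 2 * k * c)
    {f : (ι → ℝ) → (ι → ℂ)} (hf : LagEmb f) {r : ℝ} (hr : 0 < r)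
    (hcl : ∀ x j, (f x j).im ^ 2 + (f x j).re ^ 2 = r) {ρ : R3 → ι → ℝ} (hρ : ContDiff ℝ ∞ ρ)
    (hp : ∀ (k : Fin 3) (s : R3), ∃ m : ι → ℤ, ∀ i, ρ (s + Pi.single k 1) i = ρ s i + m i) :
    ∃ k : ℤ, W (fun s => mat (fderiv ℝ f (ρ s))) = 2 * k * c := by
  have h1 := lp_mat hf hρ hp
  -- the coordinates
  have hc : ∀ x j, HasFDerivAt (fun y => f y j)
      ((ContinuousLinearMap.proj (R := ℝ) (φ := fun _ : ι => ℂ) j).comp (fderiv ℝ f x)) x := by
    intro x j
    have h2 : HasFDerivAt f (fderiv ℝ f x) x :=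
      (hf.smooth.differentiable (by simp)).differentiableAt.hasFDerivAt
    exact (hasFDerivAt_pi'.1 h2) j
  have hre : ∀ x v j, (f x j).re * (fderiv ℝ f x v j).re + (f x j).im * (fderiv ℝ f x v j).im = 0 := by
    intro x v j
    have h2 := Complex.reCLM.hasFDerivAt.comp x (hc x j)
    have h3 := Complex.imCLM.hasFDerivAt.comp x (hc x j)
    have h4 := (h3.mul h3).add (h2.mul h2)
    have h5 : (fun y => (f y j).im * (f y j).im + (f y j).re * (f y j).re) = fun _ => r := by
      funext y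
      rw [← pow_two, ← pow_two]
      exact hcl y j
    have h6 : HasFDerivAt (fun y => (f y j).im * (f y j).im + (f y j).re * (f y j).re) _ x := h4
    rw [h5] at h6
    have h7 := congrArg (fun T : (ι → ℝ) →L[ℝ] ℝ => T v) (h6.unique (hasFDerivAt_const r x))
    simp at h7
    linarith
  have hz : ∀ x v j, fderiv ℝ f x v j = Complex.I * f x j *
      ((((f x j).re * (fderiv ℝ f x v j).im - (f x j).im * (fderiv ℝ f x v j).re) / r : ℝ) : ℂ) := by
    intro x v j
    have e1 := hre x v j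
    have e2 := hcl x j
    have hr' : r ≠ 0 := hr.ne'
    apply Complex.ext
    · simp only [Complex.mul_re, Complex.mul_im, Complex.I_re, Complex.I_im, Complex.ofReal_re,
        Complex.ofReal_im, zero_mul, one_mul, zero_sub, mul_zero, sub_zero, add_zero, zero_add]
      field_simp
      rw [← e2]
      linear_combination (f x j).re * e1
    · simp only [Complex.mul_re, Complex.mul_im, Complex.I_re, Complex.I_im, Complex.ofReal_re,
        Complex.ofReal_im, zero_mul, one_mul, zero_sub, mul_zero, sub_zero, add_zero, zero_add]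
      field_simp
      rw [← e2]
      linear_combination (f x j).im * e1
  have hne : ∀ x j, f x j ≠ 0 := by
    intro x j h0
    have e2 := hcl x j
    rw [h0] at e2
    simp at e2
    linarith
  -- the real matrix
  have hdl : Lp (fun s => Matrix.diagonal fun j => Complex.I * f (ρ s) j) := by
    refine ⟨fun i j => ?_, fun k s => ?_, fun s => ?_⟩
    · by_cases hij : i = j
      · subst hij
        simp only [Matrix.diagonal_apply_eq]
        exact contDiff_const.mul (((contDiff_pi.1 hf.smooth) i).comp hρ)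
      · simp only [Matrix.diagonal_apply_ne _ hij]
        exact contDiff_const
    · beta_reduce
      rw [(hf.eq_iff _ _).2 (hp k s)]
    · rw [Matrix.det_diagonal]
      exact Finset.prod_ne_zero_iff.2 fun j _ => mul_ne_zero Complex.I_ne_zero (hne _ _)
  have h4 : ∀ s, mat (fderiv ℝ f (ρ s)) = (Matrix.diagonal fun j => Complex.I * f (ρ s) j) *
      toC (fun s => Matrix.of fun j b => ((f (ρ s) j).re * (fderiv ℝ f (ρ s) (Pi.single b 1) j).im -
        (f (ρ s) j).im * (fderiv ℝ f (ρ s) (Pi.single b 1) j).re) / r) s := by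
    intro s
    ext j b
    rw [Matrix.diagonal_mul]
    simp only [mat, toC, Matrix.of_apply, Matrix.map_apply]
    exact hz _ _ _
  have h5 : LpR (fun s => Matrix.of fun j b => ((f (ρ s) j).re *
      (fderiv ℝ f (ρ s) (Pi.single b 1) j).im -
        (f (ρ s) j).im * (fderiv ℝ f (ρ s) (Pi.single b 1) j).re) / r) := by
    refine lpR_of_lp (fun j b => ?_) (fun k s => ?_) (fun s h0 => ?_)
    · have k1 : ContDiff ℝ ∞ (fun x => fderiv ℝ f x (Pi.single b 1)) :=
        (hf.smooth.fderiv_right (m := ∞) (by simp)).clm_apply contDiff_const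
      have k2 : ContDiff ℝ ∞ (fun x => fderiv ℝ f x (Pi.single b 1) j) := (contDiff_pi.1 k1) j
      have k3 : ContDiff ℝ ∞ (fun x => f x j) := (contDiff_pi.1 hf.smooth) j
      have k4 : ContDiff ℝ ∞ (fun x => ((f x j).re * (fderiv ℝ f x (Pi.single b 1) j).im -
          (f x j).im * (fderiv ℝ f x (Pi.single b 1) j).re) / r) :=
        (((Complex.reCLM.contDiff.comp k3).mul (Complex.imCLM.contDiff.comp k2)).sub
          ((Complex.imCLM.contDiff.comp k3).mul (Complex.reCLM.contDiff.comp k2))).div_const _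
      exact k4.comp hρ
    · have e1 : f (ρ (s + Pi.single k 1)) = f (ρ s) := ((hf.eq_iff _ _).2 (hp k s)).symm
      have e2 : fderiv ℝ f (ρ (s + Pi.single k 1)) = fderiv ℝ f (ρ s) := hf.fderiv_congr (hp k s)
      unfold toC
      beta_reduce
      rw [e1, e2]
    · apply h1.inv s
      beta_reduce
      rw [h4 s, Matrix.det_mul, h0, mul_zero]
  obtain ⟨k, hk⟩ := hev _ h5
  refine ⟨k, ?_⟩
  rw [funext h4, mul ι _ _ hdl h5.toC, hk, diag, zero_add]

end Pool.Agent.W630.LT
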