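import Pool.Agent.W630.LT.MatA

/-!
# The invariant of the suspension torus, continued
-/

open scoped ContDiff Matrix ComplexConjugate
open Set

namespace Pool.Agent.W630.LT

variable {α κ : Type} [Fintype α] [DecidableEq α] [Fintype κ] [DecidableEq κ]

theorem Uni.lp {A : R3 → Matrix α α ℂ} {ρ : ℝ} (h : Uni A ρ) : Lp A := by
  refine ⟨h.smooth, h.per, fun s hs => ?_⟩
  have h1 := congrArg Matrix.det (h.uni s)
  rw [Matrix.det_mul, hs, mul_zero, Matrix.det_smul, Matrix.det_one, mul_one] at h1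
  exact pow_ne_zero _ (by exact_mod_cast h.pos.ne') h1.symm

theorem sm_DD {B : R3 → Matrix α α ℂ} {ρ : ℝ} (h : Uni B ρ) (c : Fin 3 → κ) {C : ℝ}
    (hC : ∀ j x, 0 < C - qq (zz B c) j x / Real.pi) : Sm (DD B c C) := by
  intro a b
  have h1 : ContDiff ℝ ∞ (fun x => fderiv ℝ (FS (zz B c) C) x (Pi.single b 1)) :=
    ((contDiff_FS (fam_zz h c hC)).fderiv_right (m := ∞) (by simp)).clm_apply contDiff_const
  exact ((contDiff_pi.1 h1) a).comp (contDiff_incl c)

theorem FS_per {B : R3 → Matrix α α ℂ} {ρ : ℝ} (h : Uni B ρ) (c : Fin 3 → κ) {C : ℝ}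
    (hC : ∀ j x, 0 < C - qq (zz B c) j x / Real.pi) (x : α ⊕ κ → ℝ) (m : α ⊕ κ → ℤ) :
    FS (zz B c) C (fun i => x i + m i) = FS (zz B c) C x :=
  (((lagEmb_FS h c hC).eq_iff x _).2 ⟨m, fun _ => rfl⟩).symm

theorem lp_DD {B : R3 → Matrix α α ℂ} {ρ : ℝ} (h : Uni B ρ) (c : Fin 3 → κ) {C : ℝ}
    (hC : ∀ j x, 0 < C - qq (zz B c) j x / Real.pi) : Lp (DD B c C) := by
  refine ⟨sm_DD h c hC, fun k s => ?_, fun s => mat_FS_det (fam_zz h c hC) _⟩
  unfold DD
  rw [incl_add]
  set m : α ⊕ κ → ℤ := Sum.elim (0 : α → ℤ) (fun j => if c k = j then 1 else 0)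
  have h1 : (fun y => FS (zz B c) C (y + fun i => (m i : ℝ))) = FS (zz B c) C := by
    funext y
    exact FS_per h c hC y m
  have h2 := fderiv_comp_add_right (𝕜 := ℝ) (f := FS (zz B c) C) (x := incl α c s)
    (fun i => (m i : ℝ))
  rw [h1] at h2
  rw [h2]
  rfl

theorem contDiff_ent_MM {A : R3 → Matrix α α ℂ} (hA : Sm A) (c : Fin 3 → κ) (C : ℝ) (a b : α ⊕ κ) :
    ContDiff ℝ ∞ (fun p : ℝ × R3 => MM A c C p.1 p.2 a b) := by
  have hi : ContDiff ℝ ∞ (fun p : ℝ × R3 => incl α c p.2) := (contDiff_incl c).comp contDiff_snd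
  rcases a with l | j
  · have h1 : ContDiff ℝ ∞ (fun x => fderiv ℝ (zz A c) x (Pi.single b 1)) :=
      ((contDiff_zz hA c).fderiv_right (m := ∞) (by simp)).clm_apply contDiff_const
    exact ((contDiff_pi.1 h1) l).comp hi
  · have hq := contDiff_qq (contDiff_zz hA c) j
    have h1 : ContDiff ℝ ∞ (fun x => fderiv ℝ (qq (zz A c) j) x (Pi.single b 1)) :=
      (hq.fderiv_right (m := ∞) (by simp)).clm_apply contDiff_const
    have h2 : ContDiff ℝ ∞ (fun p : ℝ × R3 =>
        (-(p.1 * fderiv ℝ (qq (zz A c) j) (incl α c p.2) (Pi.single b 1) / Real.pi) : ℝ)) :=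
      ((contDiff_fst.mul (h1.comp hi)).div_const _).neg
    have h3 : ContDiff ℝ ∞ (fun p : ℝ × R3 =>
        (C - p.1 * qq (zz A c) j (incl α c p.2) / Real.pi : ℝ)) :=
      contDiff_const.sub ((contDiff_fst.mul (hq.comp hi)).div_const _)
    have h4 : ContDiff ℝ ∞ (fun p : ℝ × R3 => (if b = Sum.inr j then
        4 * Real.pi * Complex.I * ((C - p.1 * qq (zz A c) j (incl α c p.2) / Real.pi : ℝ) : ℂ)
       else 0)) := by
      by_cases hb : b = Sum.inr j
      · simp only [hb, if_true]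
        exact contDiff_const.mul (Complex.ofRealCLM.contDiff.comp h3)
      · simp only [hb, if_false]
        exact contDiff_const
    exact (Complex.ofRealCLM.contDiff.comp h2).add h4

theorem MM_per {A : R3 → Matrix α α ℂ} (hA : Per A) (c : Fin 3 → κ) (C u : ℝ) :
    Per (MM A c C u) := by
  intro k s
  set m : α ⊕ κ → ℤ := Sum.elim (0 : α → ℤ) (fun j => if c k = j then 1 else 0) with hm
  have h1 : incl α c (s + Pi.single k 1) = fun i => incl α c s i + (m i : ℝ) := incl_add c k s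
  have h2 : ∀ j, fderiv ℝ (qq (zz A c) j) (fun i => incl α c s i + (m i : ℝ)) =
      fderiv ℝ (qq (zz A c) j) (incl α c s) := by
    intro j
    have h3 : (fun y => qq (zz A c) j (y + fun i => (m i : ℝ))) = qq (zz A c) j := by
      funext y
      exact qq_per hA c j y m
    have h4 := fderiv_comp_add_right (𝕜 := ℝ) (f := qq (zz A c) j) (x := incl α c s)
      (fun i => (m i : ℝ))
    rw [h3] at h4
    exact h4.symm
  unfold MM
  rw [h1, fderiv_zz_per hA]
  ext a b
  simp only [Matrix.of_apply]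
  rcases a with l | j
  · rfl
  · simp only [Sum.elim_inr]
    rw [h2, qq_per hA]

theorem MM_zero {A : R3 → Matrix α α ℂ} (hA : Sm A) {c : Fin 3 → κ} (hc : Function.Injective c)
    (C : ℝ) (s : R3) : MM A c C 0 s = Matrix.fromBlocks ((2 * Real.pi * Complex.I : ℂ) • A s)
      (Matrix.of fun l j => fderiv ℝ (zz A c) (incl α c s) (Pi.single (Sum.inr j) 1) l) 0
      (Matrix.diagonal fun _ => (4 * Real.pi * Complex.I * C : ℂ)) := by
  ext a b
  rcases a with l | j
  · rcases b with m | j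
    · simp only [MM, Matrix.of_apply, Sum.elim_inl, Matrix.fromBlocks_apply₁₁]
      rw [fderiv_zz hA]
      have h1 : pj α c (Pi.single (Sum.inl m) 1) = 0 := by
        ext i
        simp [pj]
      rw [h1, pj_incl hc]
      have h2 : (Matrix.of fun l m => fderiv ℝ (fun s => A s l m) s (0 : R3)) = 0 := by
        ext i j
        simp
      rw [h2, Matrix.zero_mulVec, zero_add]
      simp only [Matrix.mulVec, dotProduct]
      rw [Finset.sum_eq_single m]
      · have h3 : ee (incl α c s (Sum.inl m)) = 1 := by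
          simp [incl, ee]
        rw [h3, Pi.single_eq_same]
        simp
        ring
      · intro b _ hb
        have : (Pi.single (Sum.inl m) (1 : ℝ) : α ⊕ κ → ℝ) (Sum.inl b) = 0 := by
          rw [Pi.single_apply, if_neg]
          simpa using hb
        rw [this]
        simp
      · intro hl
        exact absurd (Finset.mem_univ m) hl
    · simp only [MM, Matrix.of_apply, Sum.elim_inl, Matrix.fromBlocks_apply₁₂]
  · rcases b with m | i
    · simp [MM]
    · simp only [MM, Matrix.of_apply, Sum.elim_inr, Matrix.fromBlocks_apply₂₂, zero_mul, zero_div,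
        neg_zero, Complex.ofReal_zero, sub_zero, zero_add]
      by_cases h : i = j
      · subst h
        simp
      · rw [if_neg (by simpa using h), Matrix.diagonal_apply_ne _ (fun e => h e.symm)]

theorem lp_MM {A : R3 → Matrix α α ℂ} (h : Uni A 1) {c : Fin 3 → κ} (hc : Function.Injective c)
    {C : ℝ} (hC0 : 0 < C) (hC : ∀ j x, 0 < C - qq (zz A c) j x / Real.pi) {u : ℝ}
    (hu : u ∈ Icc (0 : ℝ) 1) : Lp (MM A c C u) := by
  refine ⟨fun a b => ?_, MM_per h.per c C u, fun s => ?_⟩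
  · exact (contDiff_ent_MM h.smooth c C a b).comp (contDiff_const.prodMk contDiff_id)
  · rcases eq_or_lt_of_le hu.1 with h0 | h0
    · rw [← h0, MM_zero h.smooth hc, Matrix.det_fromBlocks_zero₂₁, Matrix.det_smul,
        Matrix.det_diagonal]
      refine mul_ne_zero (mul_ne_zero (pow_ne_zero _ (by simp [Real.pi_ne_zero])) (h.lp.inv s)) ?_
      refine Finset.prod_ne_zero_iff.2 fun i _ => ?_
      simp [Real.pi_ne_zero, hC0.ne']
    · have hσ : 0 < Real.sqrt u := Real.sqrt_pos.2 h0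
      have hσ1 : Real.sqrt u ≤ 1 := Real.sqrt_le_one.2 hu.2
      have h1 := MM_eq h c hC0 hC hσ hσ1 s
      rw [Real.sq_sqrt hu.1] at h1
      have hC' : ∀ j x, 0 < C - qq (zz (fun s => ((Real.sqrt u : ℝ) : ℂ) • A s) c) j x /
          Real.pi := by
        intro j x
        rw [qq_smul h.smooth]
        have h1 := hC j x
        have h2 : C - Real.sqrt u ^ 2 * qq (zz A c) j x / Real.pi =
            (1 - Real.sqrt u ^ 2) * C + Real.sqrt u ^ 2 * (C - qq (zz A c) j x / Real.pi) := by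
          ring
        rw [h2, Real.sq_sqrt hu.1]
        have h3 : 0 ≤ 1 - u := by linarith [hu.2]
        nlinarith [mul_nonneg h3 hC0.le, mul_pos h0 h1]
      have h2 := (lp_DD (h.smul hσ) c hC').inv s
      rw [h1, Matrix.det_mul] at h2
      exact right_ne_zero_of_mul h2

/-- the diagonal factor -/
noncomputable def dg (A : R3 → Matrix α α ℂ) (c : Fin 3 → κ) (C : ℝ) (s : R3) : α ⊕ κ → ℂ :=
  Sum.elim (fun _ => (1 : ℂ))
    (fun j => ee (incl α c s (Sum.inr j)) * (2 * (rr (zz A c) C j (incl α c s) : ℂ))⁻¹)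

theorem dg_smooth {A : R3 → Matrix α α ℂ} (h : Uni A 1) (c : Fin 3 → κ)
    {C : ℝ} (hC : ∀ j x, 0 < C - qq (zz A c) j x / Real.pi) (a : α ⊕ κ) :
    ContDiff ℝ ∞ (fun s => dg A c C s a) := by
  have hF := fam_zz h c hC
  rcases a with l | j
  · exact contDiff_const
  · have h3 : ContDiff ℝ ∞ (fun s => ee (incl α c s (Sum.inr j))) :=
      contDiff_ee.comp ((contDiff_pi.1 (contDiff_incl (α := α) c)) (Sum.inr j))
    have h4 : ContDiff ℝ ∞ (fun s => (2 * (rr (zz A c) C j (incl α c s) : ℂ))) :=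
      contDiff_const.mul (Complex.ofRealCLM.contDiff.comp
        ((contDiff_rr hF j).comp (contDiff_incl c)))
    have h5 : ContDiff ℝ ∞ (fun s => (2 * (rr (zz A c) C j (incl α c s) : ℂ))⁻¹) := by
      refine h4.inv fun s => ?_
      have := rr_pos hF j (incl α c s)
      exact mul_ne_zero two_ne_zero (by exact_mod_cast this.ne')
    exact h3.mul h5

theorem dg_ne {A : R3 → Matrix α α ℂ} (h : Uni A 1) (c : Fin 3 → κ)
    {C : ℝ} (hC : ∀ j x, 0 < C - qq (zz A c) j x / Real.pi) (s : R3) (a : α ⊕ κ) :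
    dg A c C s a ≠ 0 := by
  have hF := fam_zz h c hC
  rcases a with l | j
  · exact one_ne_zero
  · have := rr_pos hF j (incl α c s)
    exact mul_ne_zero (ee_ne _)
      (inv_ne_zero (mul_ne_zero two_ne_zero (by exact_mod_cast this.ne')))

theorem rr_per {A : R3 → Matrix α α ℂ} (h : Uni A 1) (c : Fin 3 → κ) (C : ℝ) (j : κ)
    (x : α ⊕ κ → ℝ) (m : α ⊕ κ → ℤ) :
    rr (zz A c) C j (fun i => x i + m i) = rr (zz A c) C j x := by
  unfold rr
  rw [qq_per h.per]

theorem dg_per {A : R3 → Matrix α α ℂ} (h : Uni A 1) (c : Fin 3 → κ) (C : ℝ) :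
    Per (dg A c C) := by
  intro k s
  obtain ⟨m, hm⟩ : ∃ m : α ⊕ κ → ℤ, incl α c (s + Pi.single k 1) =
      fun i => incl α c s i + (m i : ℝ) := ⟨_, incl_add c k s⟩
  have h2 : ∀ j, rr (zz A c) C j (incl α c (s + Pi.single k 1)) =
      rr (zz A c) C j (incl α c s) := by
    intro j
    rw [hm, rr_per h]
  have h3 : ∀ j, ee (incl α c (s + Pi.single k 1) (Sum.inr j)) =
      ee (incl α c s (Sum.inr j)) := by
    intro j
    rw [hm]
    exact ee_add_int _ _
  unfold dg
  congr 1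
  funext j
  rw [h2, h3]

theorem lp_dg {A : R3 → Matrix α α ℂ} (h : Uni A 1) (c : Fin 3 → κ)
    {C : ℝ} (hC : ∀ j x, 0 < C - qq (zz A c) j x / Real.pi) :
    Lp (fun s => Matrix.diagonal (dg A c C s)) := by
  refine ⟨fun a b => ?_, fun k s => ?_, fun s => ?_⟩
  · by_cases hab : a = b
    · subst hab
      simp only [Matrix.diagonal_apply_eq]
      exact dg_smooth h c hC a
    · simp only [Matrix.diagonal_apply_ne _ hab]
      exact contDiff_const
  · rw [dg_per h c C k s]
  · rw [Matrix.det_diagonal]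
    exact Finset.prod_ne_zero_iff.2 fun a _ => dg_ne h c hC s a

theorem DD_eq {A : R3 → Matrix α α ℂ} (h : Uni A 1) (c : Fin 3 → κ) {C : ℝ} (hC0 : 0 < C)
    (hC : ∀ j x, 0 < C - qq (zz A c) j x / Real.pi) :
    DD A c C = fun s => Matrix.diagonal (dg A c C s) * MM A c C 1 s := by
  have e1 : (fun s => ((1 : ℝ) : ℂ) • A s) = A := by
    funext s; rw [Complex.ofReal_one, one_smul]
  funext s
  have := MM_eq h c hC0 hC one_pos le_rfl s
  rw [e1, one_pow, Complex.ofReal_one] at this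
  rw [this]
  unfold dg
  simp only [div_eq_mul_inv]

theorem W_DD1 {A : R3 → Matrix α α ℂ} (h : Uni A 1) {c : Fin 3 → κ} (hc : Function.Injective c)
    {C : ℝ} (hC0 : 0 < C) (hC : ∀ j x, 0 < C - qq (zz A c) j x / Real.pi) :
    W (DD A c C) = W (MM A c C 1) := by
  rw [DD_eq h c hC0 hC]
  have h1 := mul (α ⊕ κ) (fun s => Matrix.diagonal (dg A c C s)) (MM A c C 1) (lp_dg h c hC)
    (lp_MM h hc hC0 hC (right_mem_Icc.2 zero_le_one))
  have h2 := diag (α ⊕ κ) (dg A c C)
  rw [h1, h2, zero_add]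

theorem W_MM {A : R3 → Matrix α α ℂ} (h : Uni A 1) {c : Fin 3 → κ} (hc : Function.Injective c)
    {C : ℝ} (hC0 : 0 < C) (hC : ∀ j x, 0 < C - qq (zz A c) j x / Real.pi) :
    W (MM A c C 0) = W (MM A c C 1) :=
  hom (α ⊕ κ) (fun u => MM A c C u) (fun _ hu => lp_MM h hc hC0 hC hu) fun a b =>
    (contDiff_ent_MM h.smooth c C a b).continuous.continuousOn

theorem W_smul {A : R3 → Matrix α α ℂ} (h : Lp A) {r : ℂ} (hr : r ≠ 0) :
    Lp (fun s => r • A s) ∧ W (fun s => r • A s) = W A := by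
  have e2 : (fun s => r • A s) = fun s => (r • (1 : Matrix α α ℂ)) * A s := by
    funext s
    rw [Matrix.smul_mul, Matrix.one_mul]
  have hdet : (r • (1 : Matrix α α ℂ)).det ≠ 0 := by
    rw [Matrix.det_smul, Matrix.det_one, mul_one]
    exact pow_ne_zero _ hr
  rw [e2]
  exact ⟨(Lp.const hdet).mul h, W_const_mul h.smooth hdet⟩

theorem W_MM0 {A : R3 → Matrix α α ℂ} (h : Uni A 1) {c : Fin 3 → κ} (hc : Function.Injective c)
    {C : ℝ} (hC0 : 0 < C) : W (MM A c C 0) = W A := by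
  have e : MM A c C 0 = fun s => Matrix.fromBlocks ((2 * Real.pi * Complex.I : ℂ) • A s)
    (Matrix.of fun l j => fderiv ℝ (zz A c) (incl α c s) (Pi.single (Sum.inr j) 1) l) 0
    (Matrix.diagonal fun _ => (4 * Real.pi * Complex.I * C : ℂ)) :=
    funext (MM_zero h.smooth hc C)
  have hI : (2 * Real.pi * Complex.I : ℂ) ≠ 0 := by simp [Real.pi_ne_zero]
  obtain ⟨h1, h2⟩ := W_smul h.lp hI
  have h3 : Lp (fun _ : R3 => (Matrix.diagonal fun _ => (4 * Real.pi * Complex.I * C : ℂ) :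
      Matrix κ κ ℂ)) := by
    refine Lp.const ?_
    rw [Matrix.det_diagonal]
    refine Finset.prod_ne_zero_iff.2 fun i _ => ?_
    simp [Real.pi_ne_zero, hC0.ne']
  have h4 : Sm (fun s => (Matrix.of fun l j => fderiv ℝ (zz A c) (incl α c s)
      (Pi.single (Sum.inr j) 1) l : Matrix α κ ℂ)) := by
    intro l j
    have h1 : ContDiff ℝ ∞ (fun x => fderiv ℝ (zz A c) x (Pi.single (Sum.inr j) 1)) :=
      ((contDiff_zz h.smooth c).fderiv_right (m := ∞) (by simp)).clm_apply contDiff_const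
    exact ((contDiff_pi.1 h1) l).comp (contDiff_incl c)
  have h5 : Per (fun s => (Matrix.of fun l j => fderiv ℝ (zz A c) (incl α c s)
      (Pi.single (Sum.inr j) 1) l : Matrix α κ ℂ)) := by
    intro k s
    beta_reduce
    rw [incl_add, fderiv_zz_per h.per]
  have h6 := blk α κ _ _ _ h1 h3 h4 h5
  rw [e, h6, W_const, add_zero, h2]

theorem W_DD {A : R3 → Matrix α α ℂ} (h : Uni A 1) {c : Fin 3 → κ} (hc : Function.Injective c)
    {C : ℝ} (hC0 : 0 < C) (hC : ∀ j x, 0 < C - qq (zz A c) j x / Real.pi) :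
    W (DD A c C) = W A := by
  rw [W_DD1 h hc hC0 hC, ← W_MM h hc hC0 hC, W_MM0 h hc hC0]

end Pool.Agent.W630.LT
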