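import Pool.Agent.W630.LT.MainB
import Pool.Agent.W630.LT.MatB

/-!
# Tori which are Lagrangian isotopic to the Clifford torus have even invariant; transport of index
types; the matrix family of degree one
-/

open scoped ContDiff Matrix ComplexConjugate
open Set

namespace Pool.Agent.W630.LT

section iso

variable {ι : Type} [Fintype ι] [DecidableEq ι]

/-- if a Lagrangian isotopy joins a torus on which all `|z_j|²` are constant to the image of `F`,
then the invariant of `F` is even -/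
theorem even_of_isotopic {c : ℂ}
    (hev : ∀ R : R3 → Matrix ι ι ℝ, LpR R → ∃ k : ℤ, W (toC R) = 2 * k * c)
    {f : ℝ → (ι → ℝ) → (ι → ℂ)}
    (hf : ContDiffOn ℝ ∞ (fun p : ℝ × (ι → ℝ) => f p.1 p.2) (Icc 0 1 ×ˢ univ))
    (hL : ∀ t ∈ Icc (0 : ℝ) 1, LagEmb (f t)) {r : ℝ} (hr : 0 < r)
    (hcl : ∀ x j, (f 0 x j).im ^ 2 + (f 0 x j).re ^ 2 = r)
    {F : (ι → ℝ) → (ι → ℂ)} (hF : LagEmb F) (hrange : range (f 1) = range F)
    {ρ : R3 → ι → ℝ} (hρ : ContDiff ℝ ∞ ρ)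
    (hp : ∀ (k : Fin 3) (s : R3), ∃ m : ι → ℤ, ∀ i, ρ (s + Pi.single k 1) i = ρ s i + m i) :
    ∃ k : ℤ, W (fun s => mat (fderiv ℝ F (ρ s))) = 2 * k * c := by
  have h0 : (0 : ℝ) ∈ Icc (0 : ℝ) 1 := left_mem_Icc.2 zero_le_one
  have h1 : (1 : ℝ) ∈ Icc (0 : ℝ) 1 := right_mem_Icc.2 zero_le_one
  obtain ⟨ψ, hψ, he⟩ := W368.LT.lift ι (ι → ℂ) (f 1) F (hL 1 h1).emb hF.emb hrange
  obtain ⟨k1, hk1⟩ := W_repar hev (hL 1 h1) hF hψ he hρ hp
  have hp2 : ∀ (k : Fin 3) (s : R3), ∃ m : ι → ℤ, ∀ i,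
      ψ (ρ (s + Pi.single k 1)) i = ψ (ρ s) i + m i := by
    intro k s
    rw [← (hL 1 h1).eq_iff, he, he, hF.eq_iff]
    exact hp k s
  have hρ2 : ContDiff ℝ ∞ (fun s => ψ (ρ s)) := hψ.comp hρ
  obtain ⟨k0, hk0⟩ := W_clifford hev (hL 0 h0) hr hcl hρ2 hp2
  have h2 := hom ι (fun t s => mat (fderiv ℝ (f t) (ψ (ρ s))))
    (fun t ht => lp_mat (hL t ht) hρ2 hp2) (fun i j => by
      have h3 := continuousOn_family hf (Pi.single j 1) i
      have h4 : Continuous (fun p : ℝ × R3 => ((p.1, ψ (ρ p.2)) : ℝ × (ι → ℝ))) :=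
        continuous_fst.prodMk (hρ2.continuous.comp continuous_snd)
      exact h3.comp h4.continuousOn (fun p hp => ⟨hp.1, mem_univ _⟩))
  refine ⟨k0 + k1, ?_⟩
  rw [hk1, ← h2, hk0]
  push_cast
  ring

end iso

section transport

variable {ι ι' : Type} [Fintype ι] [DecidableEq ι] [Fintype ι'] [DecidableEq ι']

/-- change of the index type -/
def tr (e : ι ≃ ι') (f : (ι → ℝ) → (ι → ℂ)) (x : ι' → ℝ) : ι' → ℂ :=
  fun i => f (fun j => x (e j)) (e.symm i)

theorem fderiv_tr (e : ι ≃ ι') {f : (ι → ℝ) → (ι → ℂ)} (hf : ContDiff ℝ ∞ f) (x v : ι' → ℝ)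
    (i : ι') : fderiv ℝ (tr e f) x v i =
      fderiv ℝ f (fun j => x (e j)) (fun j => v (e j)) (e.symm i) := by
  let T : (ι' → ℝ) →L[ℝ] (ι → ℝ) := ContinuousLinearMap.pi fun j =>
    ContinuousLinearMap.proj (R := ℝ) (φ := fun _ : ι' => ℝ) (e j)
  let S : (ι → ℂ) →L[ℝ] (ι' → ℂ) := ContinuousLinearMap.pi fun i =>
    ContinuousLinearMap.proj (R := ℝ) (φ := fun _ : ι => ℂ) (e.symm i)
  have h1 : HasFDerivAt f (fderiv ℝ f (T x)) (T x) :=
    (hf.differentiable (by simp)).differentiableAt.hasFDerivAt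
  have h2 := S.hasFDerivAt.comp x (h1.comp x T.hasFDerivAt)
  have h3 : (S : (ι → ℂ) → (ι' → ℂ)) ∘ f ∘ T = tr e f := rfl
  have h4 : HasFDerivAt (tr e f) _ x := h2
  rw [h4.fderiv]
  rfl

theorem contDiff_tr (e : ι ≃ ι') {f : (ι → ℝ) → (ι → ℂ)} (hf : ContDiff ℝ ∞ f) :
    ContDiff ℝ ∞ (tr e f) := by
  rw [contDiff_pi]
  intro i
  have h1 : ContDiff ℝ ∞ (fun x : ι' → ℝ => fun j => x (e j)) := by
    rw [contDiff_pi]
    intro j
    exact contDiff_apply ℝ ℝ (e j)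
  exact ((contDiff_pi.1 hf) (e.symm i)).comp h1

theorem LagEmb.tr (e : ι ≃ ι') {f : (ι → ℝ) → (ι → ℂ)} (hf : LagEmb f) : LagEmb (tr e f) := by
  refine ⟨contDiff_tr e hf.smooth, fun x y => ⟨fun h => ?_, ?_⟩, fun x u v h => ?_,
    fun x u v => ?_⟩
  · have h1 : f (fun j => x (e j)) = f (fun j => y (e j)) := by
      ext j
      have := congrFun h (e j)
      simpa [LT.tr] using this
    obtain ⟨m, hm⟩ := (hf.eq_iff _ _).1 h1
    refine ⟨fun i => m (e.symm i), fun i => ?_⟩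
    have := hm (e.symm i)
    simpa using this
  · rintro ⟨m, hm⟩
    have h1 : f (fun j => x (e j)) = f (fun j => y (e j)) :=
      (hf.eq_iff _ _).2 ⟨fun j => m (e j), fun j => hm (e j)⟩
    unfold LT.tr
    rw [h1]
  · have h1 : fderiv ℝ f (fun j => x (e j)) (fun j => u (e j)) =
        fderiv ℝ f (fun j => x (e j)) (fun j => v (e j)) := by
      ext j
      have := congrFun h (e j)
      rw [fderiv_tr e hf.smooth, fderiv_tr e hf.smooth] at this
      simpa using this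
    have h2 := hf.immersion _ h1
    ext i
    have := congrFun h2 (e.symm i)
    simpa using this
  · have h1 := hf.lagrangian (fun j => x (e j)) (fun j => u (e j)) (fun j => v (e j))
    rw [← h1]
    unfold omega
    rw [← e.sum_comp]
    refine Finset.sum_congr rfl fun j _ => ?_
    rw [fderiv_tr e hf.smooth, fderiv_tr e hf.smooth, e.symm_apply_apply]

theorem mat_tr (e : ι ≃ ι') {f : (ι → ℝ) → (ι → ℂ)} (hf : ContDiff ℝ ∞ f) (x : ι' → ℝ) :
    mat (fderiv ℝ (tr e f) x) =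
      (mat (fderiv ℝ f (fun j => x (e j)))).submatrix e.symm e.symm := by
  ext i j
  simp only [mat, Matrix.of_apply, Matrix.submatrix_apply]
  have h0 : (fun a => (Pi.single j (1 : ℝ) : ι' → ℝ) (e a)) =
      (Pi.single (e.symm j) (1 : ℝ) : ι → ℝ) := by
    ext a
    simp only [Pi.single_apply]
    by_cases h : e a = j
    · rw [if_pos h, if_pos (by rw [← h, e.symm_apply_apply])]
    · rw [if_neg h, if_neg (fun h' => h (by rw [h', e.apply_symm_apply]))]
  rw [fderiv_tr e hf, h0]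

end transport

/-- the squared length -/
noncomputable def nsq (a : Fin 4 → ℝ) : ℝ := a 0 ^ 2 + a 1 ^ 2 + a 2 ^ 2 + a 3 ^ 2

theorem nsq_pos {a : Fin 4 → ℝ} (h : a ≠ 0) : 0 < nsq a := by
  have h1 : 0 ≤ nsq a := by unfold nsq; positivity
  rcases h1.lt_or_eq with h2 | h2
  · exact h2
  · exfalso
    apply h
    unfold nsq at h2
    ext i
    fin_cases i
    · change a 0 = 0
      nlinarith [sq_nonneg (a 0), sq_nonneg (a 1), sq_nonneg (a 2), sq_nonneg (a 3)]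
    · change a 1 = 0
      nlinarith [sq_nonneg (a 0), sq_nonneg (a 1), sq_nonneg (a 2), sq_nonneg (a 3)]
    · change a 2 = 0
      nlinarith [sq_nonneg (a 0), sq_nonneg (a 1), sq_nonneg (a 2), sq_nonneg (a 3)]
    · change a 3 = 0
      nlinarith [sq_nonneg (a 0), sq_nonneg (a 1), sq_nonneg (a 2), sq_nonneg (a 3)]

theorem Q_star_mul (a : Fin 4 → ℝ) : (Q a)ᴴ * Q a = (nsq a : ℂ) • 1 := by
  have hI : (Complex.I : ℂ) * Complex.I = -1 := Complex.I_mul_I
  ext i j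
  fin_cases i <;> fin_cases j
  · simp [Q, Matrix.mul_apply, Fin.sum_univ_two, Matrix.conjTranspose_apply, nsq]
    linear_combination (-(a 1 : ℂ) ^ 2 - (a 3 : ℂ) ^ 2) * hI
  · simp [Q, Matrix.mul_apply, Fin.sum_univ_two, Matrix.conjTranspose_apply, nsq]
    linear_combination (0 : ℂ) * hI
  · simp [Q, Matrix.mul_apply, Fin.sum_univ_two, Matrix.conjTranspose_apply, nsq]
    linear_combination (0 : ℂ) * hI
  · simp [Q, Matrix.mul_apply, Fin.sum_univ_two, Matrix.conjTranspose_apply, nsq]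
    linear_combination (-(a 1 : ℂ) ^ 2 - (a 3 : ℂ) ^ 2) * hI

theorem Q_det (a : Fin 4 → ℝ) : (Q a).det = (nsq a : ℂ) := by
  rw [Matrix.det_fin_two]
  have hI : (Complex.I : ℂ) * Complex.I = -1 := Complex.I_mul_I
  simp [Q, nsq]
  linear_combination (-(a 1 : ℂ) ^ 2 - (a 3 : ℂ) ^ 2) * hI

theorem lp_QQ {u : R3 → Fin 4 → ℝ} (hu : Vp u) : Lp (QQ u) := by
  have h1 : ∀ i, ContDiff ℝ ∞ (fun s => ((u s i : ℝ) : ℂ)) := fun i =>
    Complex.ofRealCLM.contDiff.comp ((contDiff_pi.1 hu.smooth) i)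
  refine ⟨fun i j => ?_, fun k s => ?_, fun s => ?_⟩
  · fin_cases i <;> fin_cases j
    · exact (h1 0).add ((h1 1).mul contDiff_const)
    · exact (h1 2).add ((h1 3).mul contDiff_const)
    · exact (h1 2).neg.add ((h1 3).mul contDiff_const)
    · exact (h1 0).sub ((h1 1).mul contDiff_const)
  · unfold QQ
    rw [hu.per k s]
  · unfold QQ
    rw [Q_det]
    exact_mod_cast (nsq_pos (hu.ne s)).ne'

/-- a unitary family with the same invariant -/
theorem exists_uni {u : R3 → Fin 4 → ℝ} (hu : Vp u) :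
    ∃ A : R3 → Matrix (Fin 2) (Fin 2) ℂ, Uni A 1 ∧ W A = W (QQ u) := by
  have hn : ContDiff ℝ ∞ (fun s => nsq (u s)) := by
    unfold nsq
    exact ((((((contDiff_pi.1 hu.smooth) 0).pow 2).add (((contDiff_pi.1 hu.smooth) 1).pow 2)).add
      (((contDiff_pi.1 hu.smooth) 2).pow 2))).add (((contDiff_pi.1 hu.smooth) 3).pow 2)
  have hs : ContDiff ℝ ∞ (fun s => (Real.sqrt (nsq (u s)))⁻¹) :=
    (hn.sqrt fun s => (nsq_pos (hu.ne s)).ne').inv fun s =>
      (Real.sqrt_pos.2 (nsq_pos (hu.ne s))).ne'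
  have hsc : ContDiff ℝ ∞ (fun s => (((Real.sqrt (nsq (u s)))⁻¹ : ℝ) : ℂ)) :=
    Complex.ofRealCLM.contDiff.comp hs
  have hQ := lp_QQ hu
  have hsq : ∀ s, ((Real.sqrt (nsq (u s)))⁻¹) ^ 2 * nsq (u s) = 1 := by
    intro s
    rw [inv_pow, Real.sq_sqrt (nsq_pos (hu.ne s)).le]
    exact inv_mul_cancel₀ (nsq_pos (hu.ne s)).ne'
  refine ⟨fun s => (((Real.sqrt (nsq (u s)))⁻¹ : ℝ) : ℂ) • QQ u s, ⟨fun i j => ?_, fun k s => ?_,
    zero_lt_one, fun s => ?_⟩, ?_⟩
  · exact hsc.mul (hQ.smooth i j)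
  · rw [hQ.per k s, hu.per k s]
  · unfold QQ
    rw [Matrix.conjTranspose_smul, Matrix.smul_mul, Matrix.mul_smul, Q_star_mul, smul_smul,
      smul_smul]
    congr 1
    have h := hsq s
    have h2 : ((((Real.sqrt (nsq (u s)))⁻¹) ^ 2 * nsq (u s) : ℝ) : ℂ) = ((1 : ℝ) : ℂ) := by rw [h]
    rw [← h2, RCLike.star_def, Complex.conj_ofReal]
    push_cast
    ring
  · have h1 : (fun s => (((Real.sqrt (nsq (u s)))⁻¹ : ℝ) : ℂ) • QQ u s) = fun s =>
        Matrix.diagonal (fun _ : Fin 2 => (((Real.sqrt (nsq (u s)))⁻¹ : ℝ) : ℂ)) * QQ u s := by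
      funext s
      rw [Matrix.smul_eq_diagonal_mul]
    have h2 : Lp (fun s => Matrix.diagonal
        (fun _ : Fin 2 => (((Real.sqrt (nsq (u s)))⁻¹ : ℝ) : ℂ))) := by
      refine ⟨fun i j => ?_, fun k s => ?_, fun s => ?_⟩
      · by_cases hij : i = j
        · subst hij
          simp only [Matrix.diagonal_apply_eq]
          exact hsc
        · simp only [Matrix.diagonal_apply_ne _ hij]
          exact contDiff_const
      · rw [hu.per k s]
      · rw [Matrix.det_diagonal]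
        refine Finset.prod_ne_zero_iff.2 fun j _ => ?_
        have := (Real.sqrt_pos.2 (nsq_pos (hu.ne s))).ne'
        exact_mod_cast inv_ne_zero this
    rw [h1, mul (Fin 2) _ _ h2 hQ, diag, zero_add]

end Pool.Agent.W630.LT
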