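import Pool.Agent.W630.LT.MainC

/-!
# The exotic Lagrangian tori in `ℝ^{2n}`, `n ≥ 5`
-/

open scoped ContDiff Matrix ComplexConjugate
open Set

namespace Pool.Agent.W630.LT

/-- for `n ≥ 5` there is a Lagrangian torus in `ℝ^{2n}` which is not joined by a Lagrangian isotopy
to a torus on which all the `|z_j|²` are equal to a constant -/
theorem exists_torus (hE : S_EVEN) (n : ℕ) (hn : 5 ≤ n) :
    ∃ F : (Fin n → ℝ) → (Fin n → ℂ), LagEmb F ∧
      ∀ f : ℝ → (Fin n → ℝ) → (Fin n → ℂ),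
        ContDiffOn ℝ ∞ (fun p : ℝ × (Fin n → ℝ) => f p.1 p.2) (Icc 0 1 ×ˢ univ) →
        (∀ t ∈ Icc (0 : ℝ) 1, LagEmb (f t)) → range (f 1) = range F →
        ∀ r : ℝ, 0 < r → ¬ (∀ x j, (f 0 x j).im ^ 2 + (f 0 x j).re ^ 2 = r) := by
  obtain ⟨c, hc0, ⟨u, hu, huc⟩, hev⟩ := hE
  obtain ⟨A, hA, hAW⟩ := exists_uni hu
  have h3 : 3 ≤ n - 2 := by omega
  set c3 : Fin 3 → Fin (n - 2) := Fin.castLE h3 with hc3
  have hinj : Function.Injective c3 := Fin.castLE_injective h3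
  obtain ⟨C, hC0, hC⟩ := exists_C hA.smooth hA.per c3
  have hL := lagEmb_FS hA c3 hC
  have hW := W_DD hA hinj hC0 hC
  let e : Fin 2 ⊕ Fin (n - 2) ≃ Fin n := finSumFinEquiv.trans (finCongr (by omega))
  refine ⟨tr e (FS (zz A c3) C), hL.tr e, ?_⟩
  intro f hf hfL hrange r hr hcl
  let ρ : R3 → Fin n → ℝ := fun s i => incl (Fin 2) c3 s (e.symm i)
  have hρ : ContDiff ℝ ∞ ρ := by
    rw [contDiff_pi]
    intro i
    exact (contDiff_pi.1 (contDiff_incl (α := Fin 2) c3)) (e.symm i)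
  have hp : ∀ (k : Fin 3) (s : R3), ∃ m : Fin n → ℤ, ∀ i, ρ (s + Pi.single k 1) i = ρ s i + m i := by
    intro k s
    refine ⟨fun i => Sum.elim (0 : Fin 2 → ℤ) (fun j => if c3 k = j then 1 else 0) (e.symm i),
      fun i => ?_⟩
    exact congrFun (incl_add (α := Fin 2) c3 k s) (e.symm i)
  obtain ⟨k, hk⟩ := even_of_isotopic (fun R hR => hev n R hR) hf hfL hr hcl (hL.tr e) hrange hρ hp
  have h1 : (fun s => mat (fderiv ℝ (tr e (FS (zz A c3) C)) (ρ s))) =
      fun s => (DD A c3 C s).submatrix e.symm e.symm := by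
    funext s
    rw [mat_tr e hL.smooth]
    have h2 : (fun j => ρ s (e j)) = incl (Fin 2) c3 s := by
      funext j
      change incl (Fin 2) c3 s (e.symm (e j)) = _
      rw [e.symm_apply_apply]
    rw [h2]
    rfl
  rw [h1, idx, hW, hAW, huc] at hk
  have h2 : (1 : ℂ) = 2 * k := by
    apply mul_right_cancel₀ hc0
    rw [one_mul]
    exact hk
  have h3 : (1 : ℤ) = 2 * k := by exact_mod_cast h2
  omega

theorem not_isotopic (hE : S_EVEN) (n : ℕ) (hn : 5 ≤ n) :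
    ∃ L : Set (Fin n → ℂ), IsLagrangianTorus L ∧ ¬ LagrangianIsotopic (cliffordTorus n) L := by
  obtain ⟨F, hF, h⟩ := exists_torus hE n hn
  refine ⟨range F, ⟨F, hF, rfl⟩, ?_⟩
  rintro ⟨f, hf, hfL, h0, h1⟩
  refine h f hf hfL h1 (1 / n) (by positivity) fun x j => ?_
  have h2 : f 0 x ∈ cliffordTorus n := by
    rw [← h0]
    exact mem_range_self x
  exact h2 j

end Pool.Agent.W630.LT
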