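import Pool.Agent.W630.LT.EmbC
import Pool.Agent.W630.LT.Alg

/-!
# The invariant of the suspension torus
-/

open scoped ContDiff Matrix ComplexConjugate
open Set

namespace Pool.Agent.W630.LT

variable {α κ : Type} [Fintype α] [DecidableEq α] [Fintype κ] [DecidableEq κ]

/-- the inclusion of `ℝ³` into `ℝ^α × ℝ^κ` -/
def incl (α : Type) {κ : Type} [DecidableEq κ] (c : Fin 3 → κ) (s : R3) : α ⊕ κ → ℝ :=
  Sum.elim 0 (fun j => ∑ i, if c i = j then s i else 0)

omit [Fintype α] [DecidableEq α] [Fintype κ] in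
theorem pj_incl {c : Fin 3 → κ} (hc : Function.Injective c) (s : R3) : pj α c (incl α c s) = s := by
  ext i
  simp only [pj, incl, Sum.elim_inr]
  rw [Finset.sum_eq_single i]
  · simp
  · intro b _ hb
    rw [if_neg (fun h => hb (hc h))]
  · intro h; exact absurd (Finset.mem_univ i) h

theorem contDiff_incl (c : Fin 3 → κ) : ContDiff ℝ ∞ (incl α c) := by
  rw [contDiff_pi]
  rintro (l | j)
  · exact contDiff_const
  · have h : ∀ i, ContDiff ℝ ∞ (fun s : R3 => if c i = j then s i else 0) := by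
      intro i
      by_cases h : c i = j
      · simp only [h, if_true]
        exact contDiff_apply ℝ ℝ i
      · simp only [h, if_false]
        exact contDiff_const
    have h' := ContDiff.sum (s := Finset.univ) fun i _ => h i
    exact h'

omit [Fintype α] [DecidableEq α] [Fintype κ] in
theorem incl_add (c : Fin 3 → κ) (k : Fin 3) (s : R3) : incl α c (s + Pi.single k 1) =
    fun i => incl α c s i + ((Sum.elim (0 : α → ℤ) (fun j => if c k = j then 1 else 0) i : ℤ) : ℝ) := by
  ext i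
  rcases i with l | j
  · simp [incl]
  · simp only [incl, Sum.elim_inr, Pi.add_apply]
    have : ∀ i, (if c i = j then s i + (Pi.single k (1 : ℝ) : R3) i else 0) =
        (if c i = j then s i else 0) + (if i = k then (if c k = j then 1 else 0) else 0) := by
      intro i
      by_cases hi : i = k
      · subst hi
        by_cases h : c i = j <;> simp [h]
      · simp [Pi.single_apply, hi]
    rw [Finset.sum_congr rfl (fun i _ => this i), Finset.sum_add_distrib]
    simp

/-- the matrix of the differential along `ℝ³` -/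
noncomputable def DD (B : R3 → Matrix α α ℂ) (c : Fin 3 → κ) (C : ℝ) (s : R3) :
    Matrix (α ⊕ κ) (α ⊕ κ) ℂ := mat (fderiv ℝ (FS (zz B c) C) (incl α c s))

/-- the interpolating matrices -/
noncomputable def MM (A : R3 → Matrix α α ℂ) (c : Fin 3 → κ) (C u : ℝ) (s : R3) :
    Matrix (α ⊕ κ) (α ⊕ κ) ℂ := Matrix.of fun a b =>
  Sum.elim (fun l => fderiv ℝ (zz A c) (incl α c s) (Pi.single b 1) l)
    (fun j => ((-(u * fderiv ℝ (qq (zz A c) j) (incl α c s) (Pi.single b 1) / Real.pi) : ℝ) : ℂ) +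
      (if b = Sum.inr j then
        4 * Real.pi * Complex.I * ((C - u * qq (zz A c) j (incl α c s) / Real.pi : ℝ) : ℂ)
       else 0)) a

theorem fderiv_rr {B : R3 → Matrix α α ℂ} {ρ : ℝ} (h : Uni B ρ) (c : Fin 3 → κ) {C : ℝ}
    (hC : ∀ j x, 0 < C - qq (zz B c) j x / Real.pi) (j : κ) (x v : α ⊕ κ → ℝ) :
    2 * rr (zz B c) C j x * fderiv ℝ (rr (zz B c) C j) x v =
      -(fderiv ℝ (qq (zz B c) j) x v / Real.pi) := by
  have hF := fam_zz h c hC
  have h1 : HasFDerivAt (rr (zz B c) C j) (fderiv ℝ (rr (zz B c) C j) x) x :=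
    ((contDiff_rr hF j).differentiable (by simp)).differentiableAt.hasFDerivAt
  have h2 : HasFDerivAt (qq (zz B c) j) (fderiv ℝ (qq (zz B c) j) x) x :=
    ((contDiff_qq hF.smooth j).differentiable (by simp)).differentiableAt.hasFDerivAt
  have h3 := h1.mul h1
  have h4 : HasFDerivAt (fun y => C - qq (zz B c) j y * Real.pi⁻¹) _ x :=
    (h2.mul_const Real.pi⁻¹).const_sub C
  have h5 : (fun y => rr (zz B c) C j y * rr (zz B c) C j y) =
      fun y => C - qq (zz B c) j y * Real.pi⁻¹ := by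
    funext y
    rw [← pow_two, rr_sq hF, div_eq_mul_inv]
  have h6 : HasFDerivAt (fun y => rr (zz B c) C j y * rr (zz B c) C j y) _ x := h3
  rw [h5] at h6
  have h7 := congrArg (fun T : (α ⊕ κ → ℝ) →L[ℝ] ℝ => T v) (h6.unique h4)
  simp at h7
  rw [div_eq_mul_inv]
  linarith

theorem zz_smul (A : R3 → Matrix α α ℂ) (c : Fin 3 → κ) (σ : ℝ) :
    zz (fun s => (σ : ℂ) • A s) c = fun x => σ • zz A c x := by
  funext x
  unfold zz
  rw [Matrix.smul_mulVec]
  ext l
  simp

theorem fderiv_zz_smul {A : R3 → Matrix α α ℂ} (hA : Sm A) (c : Fin 3 → κ) (σ : ℝ) (x) :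
    fderiv ℝ (zz (fun s => (σ : ℂ) • A s) c) x = σ • fderiv ℝ (zz A c) x := by
  rw [zz_smul]
  have h1 : HasFDerivAt (zz A c) (fderiv ℝ (zz A c) x) x :=
    ((contDiff_zz hA c).differentiable (by simp)).differentiableAt.hasFDerivAt
  exact (h1.const_smul σ).fderiv

theorem lam_smul_left {ι : Type} [Fintype ι] (u v : ι → ℂ) (r : ℝ) :
    lam (r • u) v = r * lam u v := by
  unfold lam
  rw [Finset.mul_sum, Finset.mul_sum, Finset.mul_sum]
  refine Finset.sum_congr rfl fun j _ => ?_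
  simp [Complex.mul_im]
  ring

theorem qq_smul {A : R3 → Matrix α α ℂ} (hA : Sm A) (c : Fin 3 → κ) (σ : ℝ) (j : κ) :
    qq (zz (fun s => (σ : ℂ) • A s) c) j = fun x => σ ^ 2 * qq (zz A c) j x := by
  funext x
  unfold qq
  rw [fderiv_zz_smul hA, zz_smul, smul_apply, lam_smul_left, lam_smul_right]
  ring

theorem fderiv_qq_smul {A : R3 → Matrix α α ℂ} (hA : Sm A) (c : Fin 3 → κ) (σ : ℝ) (j : κ) (x v) :
    fderiv ℝ (qq (zz (fun s => (σ : ℂ) • A s) c) j) x v = σ ^ 2 * fderiv ℝ (qq (zz A c) j) x v := by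
  rw [qq_smul hA]
  have h1 : HasFDerivAt (qq (zz A c) j) (fderiv ℝ (qq (zz A c) j) x) x :=
    ((contDiff_qq (contDiff_zz hA c) j).differentiable (by simp)).differentiableAt.hasFDerivAt
  rw [(h1.const_mul (σ ^ 2)).fderiv]
  rfl

theorem Uni.smul {A : R3 → Matrix α α ℂ} (h : Uni A 1) {σ : ℝ} (hσ : 0 < σ) :
    Uni (fun s => (σ : ℂ) • A s) (σ ^ 2) := by
  refine ⟨fun i j => contDiff_const.mul (h.smooth i j), fun k s => ?_, by positivity, fun s => ?_⟩
  · simp only [h.per k s]
  · rw [Matrix.conjTranspose_smul, Matrix.smul_mul, Matrix.mul_smul, h.uni, smul_smul, smul_smul]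
    congr 1
    simp [pow_two]

/-- the scaled differential -/
theorem MM_eq {A : R3 → Matrix α α ℂ} (h : Uni A 1) (c : Fin 3 → κ) {C : ℝ} (hC0 : 0 < C)
    (hC : ∀ j x, 0 < C - qq (zz A c) j x / Real.pi) {σ : ℝ} (hσ : 0 < σ) (hσ1 : σ ≤ 1) (s : R3) :
    DD (fun s => (σ : ℂ) • A s) c C s = Matrix.diagonal (Sum.elim (fun _ => (σ : ℂ))
      (fun j => ee (incl α c s (Sum.inr j)) /
        (2 * rr (zz (fun s => (σ : ℂ) • A s) c) C j (incl α c s)))) * MM A c C (σ ^ 2) s := by
  have hC' : ∀ j x, 0 < C - qq (zz (fun s => (σ : ℂ) • A s) c) j x / Real.pi := by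
    intro j x
    rw [qq_smul h.smooth]
    have h1 := hC j x
    have h2 : C - σ ^ 2 * qq (zz A c) j x / Real.pi =
        (1 - σ ^ 2) * C + σ ^ 2 * (C - qq (zz A c) j x / Real.pi) := by ring
    rw [h2]
    have h3 : 0 ≤ 1 - σ ^ 2 := by nlinarith
    have h4 : 0 < σ ^ 2 := by positivity
    nlinarith [mul_nonneg h3 hC0.le, mul_pos h4 h1]
  have hU := h.smul hσ
  have hF := fam_zz hU c hC'
  ext a b
  rw [Matrix.diagonal_mul]
  unfold DD mat
  rw [Matrix.of_apply]
  rcases a with l | j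
  · rw [fderiv_FS_inl hF, fderiv_zz_smul h.smooth]
    simp [MM]
  · rw [fderiv_FS_inr hF]
    have h1 := fderiv_rr hU c hC' j (incl α c s) (Pi.single b 1)
    have h2 := rr_sq hF j (incl α c s)
    have h3 := rr_pos hF j (incl α c s)
    set r := rr (zz (fun s => (σ : ℂ) • A s) c) C j (incl α c s) with hr
    set r' := fderiv ℝ (rr (zz (fun s => (σ : ℂ) • A s) c) C j) (incl α c s) (Pi.single b 1) with hr'
    rw [fderiv_qq_smul h.smooth] at h1
    rw [qq_smul h.smooth] at h2
    have hr0 : (r : ℂ) ≠ 0 := by exact_mod_cast h3.ne'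
    have h1c : 2 * (r : ℂ) * r' = ((-(σ ^ 2 * fderiv ℝ (qq (zz A c) j) (incl α c s)
        (Pi.single b 1) / Real.pi) : ℝ) : ℂ) := by
      exact_mod_cast h1
    have h2c : (r : ℂ) ^ 2 = ((C - σ ^ 2 * qq (zz A c) j (incl α c s) / Real.pi : ℝ) : ℂ) := by
      exact_mod_cast h2
    simp only [MM, Matrix.of_apply, Sum.elim_inr]
    rw [← h1c, ← hr]
    by_cases hb : b = Sum.inr j
    · subst hb
      simp only [Pi.single_eq_same, if_true]
      rw [← h2c]
      field_simp
      push_cast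
      ring
    · have h4 : (Pi.single b (1 : ℝ) : α ⊕ κ → ℝ) (Sum.inr j) = 0 := by
        rw [Pi.single_apply, if_neg (fun h => hb h.symm)]
      rw [h4, if_neg hb]
      field_simp
      push_cast
      ring

end Pool.Agent.W630.LT
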