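import Mathlib

/-!
# Lagrangian tori in `ℝ^{2n}` that are not Lagrangian isotopic to the Clifford torus (MP_a67bd8_gt)

Definitions and statements (Props) of the independent parts.  `W g` is the integral over `T³` of
`tr(α₀[α₁,α₂])`, `αₖ = g⁻¹∂ₖg`, for a smooth map `g : T³ = ℝ³/ℤ³ → GL(ι,ℂ)`.
-/

open scoped ContDiff Matrix
open Set

namespace Pool.Agent.W630.LT

/-- `ℝ³`, whose quotient by `ℤ³` is the torus `T³`. -/
abbrev R3 : Type := Fin 3 → ℝ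

section defs

variable {ι κ : Type}

/-- `ℤ³`-periodic -/
def Per {V : Type} (g : R3 → V) : Prop := ∀ (k : Fin 3) (s : R3), g (s + Pi.single k 1) = g s

/-- entrywise smooth -/
def Sm (g : R3 → Matrix ι κ ℂ) : Prop := ∀ i j, ContDiff ℝ ∞ (fun s => g s i j)

variable [Fintype ι] [DecidableEq ι]

/-- smooth map `T³ → GL(ι,ℂ)` -/
structure Lp (g : R3 → Matrix ι ι ℂ) : Prop where
  smooth : Sm g
  per : Per g
  inv : ∀ s, (g s).det ≠ 0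

/-- entrywise partial derivative in the `k`-th variable -/
noncomputable def dM (g : R3 → Matrix ι ι ℂ) (k : Fin 3) (s : R3) : Matrix ι ι ℂ :=
  Matrix.of fun i j => fderiv ℝ (fun s' => g s' i j) s (Pi.single k 1)

/-- `αₖ = g⁻¹ ∂ₖ g` -/
noncomputable def al (g : R3 → Matrix ι ι ℂ) (k : Fin 3) (s : R3) : Matrix ι ι ℂ :=
  (g s)⁻¹ * dM g k s

/-- the integrand `tr(α₀[α₁,α₂])` -/
noncomputable def w (g : R3 → Matrix ι ι ℂ) (s : R3) : ℂ :=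
  (al g 0 s * (al g 1 s * al g 2 s - al g 2 s * al g 1 s)).trace

/-- the integral over `T³` -/
noncomputable def W (g : R3 → Matrix ι ι ℂ) : ℂ := ∫ s in Icc (0 : R3) 1, w g s

/-- smooth map `T³ → GL(ι,ℝ)` -/
structure LpR (g : R3 → Matrix ι ι ℝ) : Prop where
  smooth : ∀ i j, ContDiff ℝ ∞ (fun s => g s i j)
  per : Per g
  inv : ∀ s, (g s).det ≠ 0

/-- a real matrix loop as a complex one -/
noncomputable def toC (g : R3 → Matrix ι ι ℝ) : R3 → Matrix ι ι ℂ := fun s => (g s).map Complex.ofReal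

end defs

/-- smooth map `T³ → ℝ⁴ \ {0}` -/
structure Vp (u : R3 → Fin 4 → ℝ) : Prop where
  smooth : ContDiff ℝ ∞ u
  per : Per u
  ne : ∀ s, u s ≠ 0

/-- the quaternion `a₀ + a₁ i + a₂ j + a₃ k` as a complex `2 × 2` matrix -/
noncomputable def Q (a : Fin 4 → ℝ) : Matrix (Fin 2) (Fin 2) ℂ :=
  !![(a 0 : ℂ) + a 1 * Complex.I, (a 2 : ℂ) + a 3 * Complex.I;
     -(a 2 : ℂ) + a 3 * Complex.I, (a 0 : ℂ) - a 1 * Complex.I]

/-- `s ↦ Q (u s)` -/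
noncomputable def QQ (u : R3 → Fin 4 → ℝ) : R3 → Matrix (Fin 2) (Fin 2) ℂ := fun s => Q (u s)

/-! ## Statements -/

/-- homotopy invariance of `W` (continuous homotopies of smooth loops) -/
def S_HOM : Prop := ∀ (ι : Type) [Fintype ι] [DecidableEq ι] (D : ℝ → R3 → Matrix ι ι ℂ),
  (∀ t ∈ Icc (0 : ℝ) 1, Lp (D t)) →
  (∀ i j, ContinuousOn (fun p : ℝ × R3 => D p.1 p.2 i j) (Icc (0 : ℝ) 1 ×ˢ univ)) →
  W (D 0) = W (D 1)

/-- product rule -/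
def S_MUL : Prop := ∀ (ι : Type) [Fintype ι] [DecidableEq ι] (g h : R3 → Matrix ι ι ℂ),
  Lp g → Lp h → W (fun s => g s * h s) = W g + W h

/-- block triangular matrices -/
def S_BLK : Prop := ∀ (ι κ : Type) [Fintype ι] [DecidableEq ι] [Fintype κ] [DecidableEq κ]
  (a : R3 → Matrix ι ι ℂ) (b : R3 → Matrix ι κ ℂ) (d : R3 → Matrix κ κ ℂ),
  Lp a → Lp d → Sm b → Per b →
  W (fun s => Matrix.fromBlocks (a s) (b s) 0 (d s)) = W a + W d

/-- change of the index type -/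
def S_IDX : Prop := ∀ (ι κ : Type) [Fintype ι] [DecidableEq ι] [Fintype κ] [DecidableEq κ]
  (e : κ ≃ ι) (g : R3 → Matrix ι ι ℂ), W (fun s => (g s).submatrix e e) = W g

/-- constants, diagonal matrices -/
def S_DIAG : Prop := ∀ (ι : Type) [Fintype ι] [DecidableEq ι] (g : R3 → ι → ℂ),
  W (fun s => Matrix.diagonal (g s)) = 0

/-- reduction of real loops of size `N + 1 ≥ 5` to size `N` -/
def S_COL : Prop := ∀ (N : ℕ) (R : R3 → Matrix (Fin (N + 1)) (Fin (N + 1)) ℝ), 4 ≤ N → LpR R →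
  ∃ R' : R3 → Matrix (Fin N) (Fin N) ℝ, LpR R' ∧ W (toC R) = W (toC R')

/-- real loops of size four -/
def S_QUAT : Prop := ∀ R : R3 → Matrix (Fin 4) (Fin 4) ℝ, LpR R →
  ∃ (u : R3 → Fin 4 → ℝ) (R' : R3 → Matrix (Fin 3) (Fin 3) ℝ), Vp u ∧ LpR R' ∧
    W (toC R) = 2 * W (QQ u) + W (toC R')

/-- from `GL(3,ℝ)` to `SO(3)` -/
def S_GS : Prop := ∀ R : R3 → Matrix (Fin 3) (Fin 3) ℝ, LpR R →
  ∃ O : R3 → Matrix (Fin 3) (Fin 3) ℝ, LpR O ∧ (∀ s, (O s)ᵀ * O s = 1) ∧ (∀ s, (O s).det = 1) ∧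
    W (toC R) = W (toC O)

/-- from `SO(3)` to unit quaternions: after a twist an `SO(3)` valued loop lifts -/
def S_AD : Prop := ∀ O : R3 → Matrix (Fin 3) (Fin 3) ℝ, LpR O → (∀ s, (O s)ᵀ * O s = 1) →
  (∀ s, (O s).det = 1) → ∃ p : R3 → Fin 4 → ℝ, Vp p ∧ W (toC O) = 4 * W (QQ p)

/-- the Jacobian matrix of `u' = (u₁,u₂,u₃)` -/
noncomputable def Jac (u : R3 → Fin 4 → ℝ) (s : R3) : Matrix (Fin 3) (Fin 3) ℝ :=
  Matrix.of fun j k => fderiv ℝ u s (Pi.single k 1) j.succ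

/-- counting formula: `W (QQ u)` is a universal nonzero constant times the signed number of points
of `T³` where `u` is a positive multiple of `e₀`, if these points are nondegenerate -/
def S_CNT : Prop := ∃ c : ℂ, c ≠ 0 ∧ ∀ u : R3 → Fin 4 → ℝ, Vp u →
  (∀ s, 0 < u s 0 → (∀ j : Fin 3, u s j.succ = 0) → (Jac u s).det ≠ 0) →
  ∃ Z : Finset R3, (∀ s, s ∈ Z ↔ (∀ k, 0 ≤ s k ∧ s k < 1) ∧ 0 < u s 0 ∧
    ∀ j : Fin 3, u s j.succ = 0) ∧
    W (QQ u) = c * ∑ s ∈ Z, ((SignType.sign (Jac u s).det : ℤ) : ℂ)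

/-- integrality -/
def S_INT : Prop := ∃ c : ℂ, c ≠ 0 ∧ (∃ u : R3 → Fin 4 → ℝ, Vp u ∧ W (QQ u) = c) ∧
  ∀ u : R3 → Fin 4 → ℝ, Vp u → ∃ k : ℤ, W (QQ u) = k * c

/-- evenness for real loops -/
def S_EVEN : Prop := ∃ c : ℂ, c ≠ 0 ∧ (∃ u : R3 → Fin 4 → ℝ, Vp u ∧ W (QQ u) = c) ∧
  ∀ (n : ℕ) (R : R3 → Matrix (Fin n) (Fin n) ℝ), LpR R → ∃ k : ℤ, W (toC R) = 2 * k * c

/-- smooth embedding of `Tⁿ = ℝⁿ/ℤⁿ` into `V` -/
structure Emb {ι V : Type} [Fintype ι] [NormedAddCommGroup V] [NormedSpace ℝ V]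
    (f : (ι → ℝ) → V) : Prop where
  smooth : ContDiff ℝ ∞ f
  eq_iff : ∀ x y, f x = f y ↔ ∃ m : ι → ℤ, ∀ i, y i = x i + m i
  immersion : ∀ x, Function.Injective (fderiv ℝ f x)

/-- two embeddings of `Tⁿ` with the same image differ by a smooth map `ℝⁿ → ℝⁿ` -/
def S_LIFT : Prop := ∀ (ι V : Type) [Fintype ι] [NormedAddCommGroup V] [NormedSpace ℝ V]
  [FiniteDimensional ℝ V] (f F : (ι → ℝ) → V), Emb f → Emb F → range f = range F →
  ∃ ψ : (ι → ℝ) → (ι → ℝ), ContDiff ℝ ∞ ψ ∧ ∀ x, f (ψ x) = F x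

end Pool.Agent.W630.LT
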